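import Mathlib
/-! FDF-Area. Choice of two thresholds. PLAN (area argument). e_A(z) = ∑_{z < xa i} wa i, e_B similarly; `∫_0^∞ e_A = ∑ wa xa`.
Suppose no pair works. Then for all (x,y) in the open region `T = {x>0, y>0, 2x+3y<θ, 3x+2y<θ}`:
`θ - 2x - 3y ≤ e_A(x)` or `θ - 3x - 2y ≤ e_B(y)`. For fixed x the set of y ∈ T_x with `θ-2x-3y ≤ e_A(x)` has length ≤ e_A(x)/3; so
area(T) ≤ (1/3)∫ e_A + (1/3)∫ e_B = (∑ wa xa + ∑ wb xb)/3. The area of T is θ²/15. Hence θ² ≤ 5 (∑ wa xa + ∑ wb xb).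
A way without measure theory in the plane: integrate over x ∈ [0, θ/2] and y ∈ [0, θ/2] the indicator functions as iterated interval integrals,
or use `MeasureTheory.volume` on ℝ × ℝ with `Measure.prod_apply`. For the sums: it is enough to bound, by linearity in the atoms,
the volume of `{(x,y) ∈ T : θ-2x-3y ≤ e_A(x)}` by `∫_x e_A(x)/3 = ∑ wa i * xa i / 3` (layer cake for a finite sum: `∫_0^∞ [x < xa i] dx = xa i`). -/
namespace FDF
open Finset
open scoped BigOperators Classical

open MeasureTheory in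
private lemma int_one (c w R : ℝ) (hc : 0 ≤ c) (hw : 0 ≤ w) :
    IntegrableOn (fun z : ℝ => if z < c then w else 0) (Set.Ioo 0 R) ∧
    ∫ z in Set.Ioo 0 R, (if z < c then w else 0) ≤ w * c := by
  have e : (fun z : ℝ => if z < c then w else 0) = (Set.Iio c).indicator (fun _ => w) := by
    funext z
    simp only [Set.indicator, Set.mem_Iio]
  rw [e]
  refine ⟨(integrableOn_const (by simp) (by simp)).indicator measurableSet_Iio, ?_⟩
  rw [setIntegral_indicator measurableSet_Iio, setIntegral_const, smul_eq_mul, mul_comm]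
  refine mul_le_mul_of_nonneg_left ?_ hw
  have h1 : Set.Ioo 0 R ∩ Set.Iio c ⊆ Set.Ioo 0 c := fun x hx => ⟨hx.1.1, hx.2⟩
  have h2 : (volume.real (Set.Ioo 0 R ∩ Set.Iio c)) ≤ volume.real (Set.Ioo 0 c) :=
    measureReal_mono h1 (by simp)
  refine h2.trans ?_
  rw [Real.volume_real_Ioo_of_le hc, sub_zero]

private lemma sum_eq {α : Type} (s : Finset α) (wa xa : α → ℝ) (z : ℝ) :
    (∑ i ∈ s with z < xa i, wa i) = ∑ i ∈ s, if z < xa i then wa i else 0 := by
  rw [Finset.sum_filter]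

open MeasureTheory in
private lemma int_sum {α : Type} (s : Finset α) (wa xa : α → ℝ)
    (hwa : ∀ i ∈ s, 0 ≤ wa i) (hxa : ∀ i ∈ s, 0 ≤ xa i) (R : ℝ) :
    IntegrableOn (fun z : ℝ => ∑ i ∈ s, if z < xa i then wa i else 0) (Set.Ioo 0 R) ∧
    ∫ z in Set.Ioo 0 R, (∑ i ∈ s, if z < xa i then wa i else 0) ≤ ∑ i ∈ s, wa i * xa i := by
  refine ⟨integrable_finset_sum _ fun i hi => (int_one (xa i) (wa i) R (hxa i hi) (hwa i hi)).1, ?_⟩
  rw [integral_finset_sum _ fun i hi => (int_one (xa i) (wa i) R (hxa i hi) (hwa i hi)).1]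
  exact Finset.sum_le_sum fun i hi => (int_one (xa i) (wa i) R (hxa i hi) (hwa i hi)).2

private lemma meas_sum {α : Type} (s : Finset α) (wa xa : α → ℝ) :
    Measurable (fun z : ℝ => ∑ i ∈ s, if z < xa i then wa i else 0) := by
  refine Finset.measurable_sum _ fun i _ => ?_
  exact Measurable.ite measurableSet_Iio measurable_const measurable_const

open MeasureTheory in
/-- the region where the first alternative holds -/
private lemma vol_reg {α : Type} (s : Finset α) (wa xa : α → ℝ)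
    (hwa : ∀ i ∈ s, 0 ≤ wa i) (hxa : ∀ i ∈ s, 0 ≤ xa i) (θ ε : ℝ) (hθ : 0 < θ) (hε : 0 < ε) :
    (volume : Measure (ℝ × ℝ)) (regionBetween
      (fun z : ℝ => (θ - 2 * z - ∑ i ∈ s, if z < xa i then wa i else 0) / 3 - ε)
      (fun z : ℝ => (θ - 2 * z) / 3) (Set.Ioo 0 θ)) ≤
      ENNReal.ofReal ((∑ i ∈ s, wa i * xa i) / 3 + ε * θ) := by
  obtain ⟨h1, h2⟩ := int_sum s wa xa hwa hxa θ
  have hg : IntegrableOn (fun z : ℝ => (θ - 2 * z) / 3) (Set.Ioo 0 θ) := by
    have hc : Continuous (fun z : ℝ => (θ - 2 * z) / 3) := by fun_prop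
    exact (hc.integrableOn_Icc (a := 0) (b := θ)).mono_set Set.Ioo_subset_Icc_self
  have hk : IntegrableOn (fun z : ℝ => (∑ i ∈ s, if z < xa i then wa i else 0) / 3 + ε)
      (Set.Ioo 0 θ) :=
    (h1.div_const 3).add (integrableOn_const (by simp) (by simp))
  have hf : IntegrableOn
      (fun z : ℝ => (θ - 2 * z - ∑ i ∈ s, if z < xa i then wa i else 0) / 3 - ε)
      (Set.Ioo 0 θ) := by
    have := hg.sub hk
    refine this.congr (Filter.Eventually.of_forall fun z => ?_)
    simp only [Pi.sub_apply]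
    ring
  rw [Measure.volume_eq_prod, volume_regionBetween_eq_integral hf hg measurableSet_Ioo ?_]
  · refine ENNReal.ofReal_le_ofReal ?_
    have e1 : ∫ y in Set.Ioo 0 θ, ((fun z : ℝ => (θ - 2 * z) / 3) -
        fun z : ℝ => (θ - 2 * z - ∑ i ∈ s, if z < xa i then wa i else 0) / 3 - ε) y =
        ∫ y in Set.Ioo 0 θ, ((∑ i ∈ s, if y < xa i then wa i else 0) / 3 + ε) := by
      refine integral_congr_ae (Filter.Eventually.of_forall fun z => ?_)
      simp only [Pi.sub_apply]
      ring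
    rw [e1, integral_add (h1.div_const 3) (integrableOn_const (by simp) (by simp)),
      integral_div, setIntegral_const, Real.volume_real_Ioo_of_le hθ.le, smul_eq_mul, sub_zero]
    have h3 : (∫ z in Set.Ioo 0 θ, (∑ i ∈ s, if z < xa i then wa i else 0)) / 3 ≤
        (∑ i ∈ s, wa i * xa i) / 3 := by
      linarith
    linarith
  · intro x _
    have h3 : 0 ≤ ∑ i ∈ s, if x < xa i then wa i else 0 :=
      Finset.sum_nonneg fun i hi => by
        split_ifs
        · exact hwa i hi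
        · exact le_rfl
    linarith

open MeasureTheory in
private lemma meas_reg {α : Type} (s : Finset α) (wa xa : α → ℝ) (θ ε : ℝ) :
    MeasurableSet (regionBetween
      (fun z : ℝ => (θ - 2 * z - ∑ i ∈ s, if z < xa i then wa i else 0) / 3 - ε)
      (fun z : ℝ => (θ - 2 * z) / 3) (Set.Ioo 0 θ)) := by
  have h := meas_sum s wa xa
  refine measurableSet_regionBetween ?_ ?_ measurableSet_Ioo
  · exact (((measurable_const.sub (measurable_const.mul measurable_id)).sub h).div_const 3).sub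
      measurable_const
  · exact (measurable_const.sub (measurable_const.mul measurable_id)).div_const 3

open MeasureTheory in
/-- the area of the region T -/
private lemma vol_T (θ : ℝ) (hθ : 0 < θ) :
    ENNReal.ofReal (θ ^ 2 / 15) ≤ (volume : Measure (ℝ × ℝ)) (regionBetween
      (fun _ : ℝ => 0) (fun z : ℝ => min ((θ - 2 * z) / 3) ((θ - 3 * z) / 2))
      (Set.Ioo 0 (θ / 3))) := by
  have hc : Continuous (fun z : ℝ => min ((θ - 2 * z) / 3) ((θ - 3 * z) / 2)) := by fun_prop
  have hg : IntegrableOn (fun z : ℝ => min ((θ - 2 * z) / 3) ((θ - 3 * z) / 2))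
      (Set.Ioo 0 (θ / 3)) :=
    (hc.integrableOn_Icc (a := 0) (b := θ / 3)).mono_set Set.Ioo_subset_Icc_self
  have hf : IntegrableOn (fun _ : ℝ => (0 : ℝ)) (Set.Ioo 0 (θ / 3)) :=
    integrableOn_const (by simp) (by simp)
  rw [Measure.volume_eq_prod, volume_regionBetween_eq_integral hf hg measurableSet_Ioo ?_]
  · refine ENNReal.ofReal_le_ofReal (le_of_eq ?_)
    have e1 : ∫ y in Set.Ioo 0 (θ / 3),
        ((fun z : ℝ => min ((θ - 2 * z) / 3) ((θ - 3 * z) / 2)) - fun _ : ℝ => (0 : ℝ)) y =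
        ∫ y in (0 : ℝ)..(θ / 3), min ((θ - 2 * y) / 3) ((θ - 3 * y) / 2) := by
      rw [intervalIntegral.integral_of_le (by positivity), integral_Ioc_eq_integral_Ioo]
      refine integral_congr_ae (Filter.Eventually.of_forall fun z => ?_)
      simp only [Pi.sub_apply, sub_zero]
    have e2 : ∫ y in (0 : ℝ)..(θ / 5), min ((θ - 2 * y) / 3) ((θ - 3 * y) / 2) =
        ∫ y in (0 : ℝ)..(θ / 5), (θ / 3 - 2 / 3 * y) := by
      refine intervalIntegral.integral_congr fun y hy => ?_
      rw [Set.uIcc_of_le (by positivity)] at hy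
      have h1 := hy.2
      rw [min_eq_left (by linarith)]
      ring
    have e3 : ∫ y in (θ / 5)..(θ / 3), min ((θ - 2 * y) / 3) ((θ - 3 * y) / 2) =
        ∫ y in (θ / 5)..(θ / 3), (θ / 2 - 3 / 2 * y) := by
      refine intervalIntegral.integral_congr fun y hy => ?_
      rw [Set.uIcc_of_le (by linarith)] at hy
      have h1 := hy.1
      rw [min_eq_right (by linarith)]
      ring
    rw [e1, ← intervalIntegral.integral_add_adjacent_intervals (b := θ / 5)
      (hc.intervalIntegrable _ _) (hc.intervalIntegrable _ _), e2, e3]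
    rw [intervalIntegral.integral_sub (by simp) (Continuous.intervalIntegrable (by fun_prop) _ _),
      intervalIntegral.integral_sub (by simp) (Continuous.intervalIntegrable (by fun_prop) _ _),
      intervalIntegral.integral_const, intervalIntegral.integral_const,
      intervalIntegral.integral_const_mul, intervalIntegral.integral_const_mul, integral_id,
      integral_id]
    simp only [smul_eq_mul]
    ring
  · intro x hx
    have h1 := hx.2
    refine le_min ?_ ?_
    · linarith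
    · linarith

theorem area {α β : Type} (s : Finset α) (t : Finset β) (wa xa : α → ℝ) (wb xb : β → ℝ)
    (hwa : ∀ i ∈ s, 0 ≤ wa i) (hxa : ∀ i ∈ s, 0 ≤ xa i) (hwb : ∀ i ∈ t, 0 ≤ wb i) (hxb : ∀ i ∈ t, 0 ≤ xb i)
    (θ : ℝ) (hθ : 0 < θ) (h : 5 * (∑ i ∈ s, wa i * xa i + ∑ i ∈ t, wb i * xb i) < θ ^ 2) :
    ∃ zA zB : ℝ, 0 ≤ zA ∧ 0 ≤ zB ∧
      (∑ i ∈ s with zA < xa i, wa i) + 2 * zA + 3 * zB < θ ∧
      (∑ i ∈ t with zB < xb i, wb i) + 3 * zA + 2 * zB < θ := by
  by_contra hcon
  push Not at hcon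
  set SA := ∑ i ∈ s, wa i * xa i with hSA
  set SB := ∑ i ∈ t, wb i * xb i with hSB
  obtain ⟨ε, hε, hε2⟩ : ∃ ε : ℝ, 0 < ε ∧ 2 * (ε * θ) < (θ ^ 2 - 5 * (SA + SB)) / 15 := by
    refine ⟨(θ ^ 2 - 5 * (SA + SB)) / (60 * θ), by apply div_pos <;> linarith, ?_⟩
    have e1 : (θ ^ 2 - 5 * (SA + SB)) / (60 * θ) * θ = (θ ^ 2 - 5 * (SA + SB)) / 60 := by
      field_simp
    rw [e1]
    linarith
  have hA := vol_reg s wa xa hwa hxa θ ε hθ hε
  have hB := vol_reg t wb xb hwb hxb θ ε hθ hε
  have hT := vol_T θ hθ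
  have hsub : regionBetween
      (fun _ : ℝ => 0) (fun z : ℝ => min ((θ - 2 * z) / 3) ((θ - 3 * z) / 2))
      (Set.Ioo 0 (θ / 3)) ⊆
      regionBetween (fun z : ℝ => (θ - 2 * z - ∑ i ∈ s, if z < xa i then wa i else 0) / 3 - ε)
        (fun z : ℝ => (θ - 2 * z) / 3) (Set.Ioo 0 θ) ∪
      Prod.swap ⁻¹' (regionBetween
        (fun z : ℝ => (θ - 2 * z - ∑ i ∈ t, if z < xb i then wb i else 0) / 3 - ε)
        (fun z : ℝ => (θ - 2 * z) / 3) (Set.Ioo 0 θ)) := by
    rintro ⟨x, y⟩ ⟨⟨hx0, hx1⟩, hy0, hy1⟩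
    simp only [lt_min_iff] at hx0 hx1 hy0 hy1
    obtain ⟨hy1, hy2⟩ := hy1
    by_cases hc : (∑ i ∈ s, if x < xa i then wa i else 0) + 2 * x + 3 * y < θ
    · right
      have h1 := hcon x y hx0.le hy0.le (by rw [sum_eq]; exact hc)
      rw [sum_eq] at h1
      refine ⟨⟨hy0, ?_⟩, ?_, ?_⟩
      · change y < θ
        linarith
      · change (θ - 2 * y - ∑ i ∈ t, if y < xb i then wb i else 0) / 3 - ε < x
        linarith
      · change x < (θ - 2 * y) / 3
        linarith
    · left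
      rw [not_lt] at hc
      refine ⟨⟨hx0, ?_⟩, ?_, ?_⟩
      · change x < θ
        linarith
      · change (θ - 2 * x - ∑ i ∈ s, if x < xa i then wa i else 0) / 3 - ε < y
        linarith
      · change y < (θ - 2 * x) / 3
        linarith
  have hswap : (MeasureTheory.MeasureSpace.volume : MeasureTheory.Measure (ℝ × ℝ))
      (Prod.swap ⁻¹' (regionBetween
        (fun z : ℝ => (θ - 2 * z - ∑ i ∈ t, if z < xb i then wb i else 0) / 3 - ε)
        (fun z : ℝ => (θ - 2 * z) / 3) (Set.Ioo 0 θ))) =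
      (MeasureTheory.MeasureSpace.volume : MeasureTheory.Measure (ℝ × ℝ)) (regionBetween
        (fun z : ℝ => (θ - 2 * z - ∑ i ∈ t, if z < xb i then wb i else 0) / 3 - ε)
        (fun z : ℝ => (θ - 2 * z) / 3) (Set.Ioo 0 θ)) := by
    rw [MeasureTheory.Measure.volume_eq_prod]
    exact MeasureTheory.Measure.measurePreserving_swap.measure_preimage
      (meas_reg t wb xb θ ε).nullMeasurableSet
  have h1 := (hT.trans (MeasureTheory.measure_mono hsub)).trans
    (MeasureTheory.measure_union_le _ _)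
  rw [hswap] at h1
  have h2 := h1.trans (add_le_add hA hB)
  have hSA0 : 0 ≤ SA := Finset.sum_nonneg fun i hi => mul_nonneg (hwa i hi) (hxa i hi)
  have hSB0 : 0 ≤ SB := Finset.sum_nonneg fun i hi => mul_nonneg (hwb i hi) (hxb i hi)
  have hεθ : 0 < ε * θ := mul_pos hε hθ
  rw [← hSA, ← hSB, ← ENNReal.ofReal_add (by linarith) (by linarith),
    ENNReal.ofReal_le_ofReal_iff (by linarith)] at h2
  linarith

end FDF
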