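import Pool.Agent.FDF.Boot
/-! FDF-B1. PLAN. L := lam w. `10 L² ≤ 1/100` (Btot ≥ 0), so `L ≤ .03163`.
`hx`: `∑ (pp j - 1/3)² = gam + Bin - Bcr ≤ .0126 + .01 - 10 L²` (`sum_sq`, T1 ≥ 0, Bin ≤ Btot, Bcr ≥ 0) and `(pp j - 1/3)² ≤ (2/3) ∑`
(the three numbers sum to 0); so `|pp j - 1/3| ≤ .1228 - 27 L²` because `(.1228 - 27 L²)² ≥ .0150667 - 6.6667 L²` and `.1228 - 27L² > 0`.
`bb_small`: for v apply `profile` with p = pp, a = al v, n = nn v (`al_sum`): `hn1`, `hn2` from `pt` (drop the other squares, chi ≥ 0):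
`(ν + L/2)² < (2/3) L + L²/2`; ν ≥ .1315 would give `.01729 < .53517 L + .25 L²` false for L ≤ .03163; ν ≤ -.16334 similar.
`hS`: `chi_ge`, `pt` (2 chi < (2/3)L + L²/2), `Bin ≤ Btot ≤ .01 - 10L²`: `∑ a(p-a) ≤ L/3 + L²/4 + .005 - 5L²`.
Then `min_le` with the index i of `profile`. -/
namespace FDF
open Finset
open scoped BigOperators Classical
namespace OG
variable {V : Type} {G : OG V} [Fintype V] {w : V → ℝ} {f : V → Fin 3}

private lemma b1_Bin_nonneg (h : Part G w f) : 0 ≤ G.Bin w f :=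
  Finset.sum_nonneg fun v _ => mul_nonneg (h.opt.pos v).le
    (G.bin_nonneg w f (fun v => (h.opt.pos v).le) v)

private lemma b1_Bcr_nonneg (h : Part G w f) : 0 ≤ G.Bcr w f :=
  Finset.sum_nonneg fun v _ => mul_nonneg (h.opt.pos v).le
    (G.bcr_nonneg w f (fun v => (h.opt.pos v).le) v)

private lemma b1_lam_nonneg : 0 ≤ G.lam w := Real.sqrt_nonneg _

private lemma b1_lamsq (h : Part G w f) : 10 * G.lam w ^ 2 ≤ 1 / 100 := by
  have h1 := G.Btot_eq w f
  have h2 := b1_Bin_nonneg h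
  have h3 := b1_Bcr_nonneg h
  have h4 := h.small
  linarith

private lemma b1_lam_le (h : Part G w f) : G.lam w ≤ 3163 / 100000 := by
  have h1 := b1_lamsq h
  have h0 : 0 ≤ G.lam w := b1_lam_nonneg
  by_contra hc
  push Not at hc
  nlinarith

private lemma b1_Bin_le (h : Part G w f) : G.Bin w f ≤ 1 / 100 - 10 * G.lam w ^ 2 := by
  have h1 := G.Btot_eq w f
  have h3 := b1_Bcr_nonneg h
  have h4 := h.small
  linarith

private lemma b1_third (a b c S : ℝ) (h0 : a + b + c = 0) (h : a ^ 2 + b ^ 2 + c ^ 2 ≤ S) :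
    c ^ 2 ≤ 2 / 3 * S := by
  obtain rfl : c = -(a + b) := by linarith
  nlinarith [sq_nonneg (a - b)]

theorem Part.hx (h : Part G w f) (j : Fin 3) :
    |pp w f j - 1 / 3| ≤ 1228 / 10000 - 27 * G.lam w ^ 2 := by
  have hs := G.sum_sq w f h.opt.sum
  have hB := b1_Bin_le h
  have hC := b1_Bcr_nonneg h
  have hT : 0 ≤ G.T1 w := T1_nonneg (fun v => (h.opt.pos v).le)
  have hc := h.c1
  have hp := pp_sum w f h.opt.sum
  have hL := b1_lamsq h
  set L := G.lam w
  have hL2 : 0 ≤ L ^ 2 := sq_nonneg L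
  have key : (pp w f j - 1 / 3) ^ 2 ≤ 2 / 3 * (226 / 10000 - 10 * L ^ 2) := by
    have h1 : ∑ j, (pp w f j - 1 / 3) ^ 2 ≤ 226 / 10000 - 10 * L ^ 2 := by
      rw [hs]; linarith
    rw [Fin.sum_univ_three] at h1 hp
    have hj : j = 0 ∨ j = 1 ∨ j = 2 := by fin_cases j <;> simp
    rcases hj with rfl | rfl | rfl
    · exact b1_third _ _ _ _ (by linarith : (pp w f 1 - 1 / 3) + (pp w f 2 - 1 / 3) +
        (pp w f 0 - 1 / 3) = 0) (by linarith)
    · exact b1_third _ _ _ _ (by linarith : (pp w f 0 - 1 / 3) + (pp w f 2 - 1 / 3) +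
        (pp w f 1 - 1 / 3) = 0) (by linarith)
    · exact b1_third _ _ _ _ (by linarith : (pp w f 0 - 1 / 3) + (pp w f 1 - 1 / 3) +
        (pp w f 2 - 1 / 3) = 0) (by linarith)
  apply abs_le_of_sq_le_sq
  · refine key.trans ?_
    nlinarith [sq_nonneg (L ^ 2)]
  · linarith

theorem Part.bb_small (h : Part G w f) (v : V) : G.bb w f v < 65 / 1000 := by
  have hw : ∀ v, 0 ≤ w v := fun v => (h.opt.pos v).le
  have hL := b1_lamsq h
  have hL' := b1_lam_le h
  have hL0 : 0 ≤ G.lam w := b1_lam_nonneg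
  have hB := b1_Bin_le h
  have hpt := pt h.opt v
  have hchi := G.chi_nonneg w hw v
  have hcg := G.chi_ge w f hw v
  have hx := fun j => abs_le.mp (h.hx j)
  set L := G.lam w
  set N := G.nn w v
  have hsq : 0 ≤ (G.oo w v - 1 / 3 + L / 2) ^ 2 := sq_nonneg _
  have hsq' : 0 ≤ (N - 1 / 3 + L / 2) ^ 2 := sq_nonneg _
  obtain ⟨i, hi⟩ := profile (pp w f) (G.al w f v) L hL0 (G.al_nonneg w f hw v) (G.al_le w f hw v)
    (pp_sum w f h.opt.sum)
    (fun i => by have := (hx i).1; linarith) (fun i => by have := (hx i).2; linarith)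
    (by
      rw [G.al_sum w f v]
      show 17 / 100 < N
      by_contra hc
      push Not at hc
      have h1 : (N - 1 / 3 + L / 2) ^ 2 < 2 / 3 * L + L ^ 2 / 2 := by linarith
      nlinarith)
    (by
      rw [G.al_sum w f v]
      show N < _
      by_contra hc
      push Not at hc
      have h1 : (N - 1 / 3 + L / 2) ^ 2 < 2 / 3 * L + L ^ 2 / 2 := by linarith
      nlinarith)
    (by linarith)
  exact lt_of_le_of_lt (G.min_le w h.opt.pos f h.min v i) hi

end OG
end FDF
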