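import Pool.Agent.FDF.B1
/-! FDF-B2. PLAN. x_j = pp j - 1/3. `phi_ge`, `phi_neg`, `bb < .065`, `|x_j| ≤ .1228`: since `bb² ≤ .065 bb = .065 (bin + bcr)` and
`1 + 3(x_i + x_j) = 1 - 3 x_k ≥ 1 - .3684`: `3 x0 x1 x2 + .435 Btot + lam² < 0` (`Btot = Bin + Bcr`, `bcr_eq`).
So x0 x1 x2 < 0 and ∑ x = 0: exactly one x is negative; call its index iC and the two others iA, iB; m = -x_iC;
`3 x_A x_B m ≤ (3/4) m³`. `m_sq`: `T1_ge` with `pp ≥ .2105`: `3 pp - 6*.065 ≥ .24`, `3(pp+pp') - .39 ≥ .87`, so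
`7 T1 ≥ 1.68 Bin + 6 Bcr`, so `∑ x² = gam + Bin - Bcr ≤ .0126`; `∑ x² ≥ (3/2) m²`. -/
namespace FDF
open Finset
open scoped BigOperators Classical
namespace OG
variable {V : Type} {G : OG V} [Fintype V] {w : V → ℝ} {f : V → Fin 3}

/-- labelled parts: A, B large, C small -/
structure Lab (w : V → ℝ) (f : V → Fin 3) (iA iB iC : Fin 3) (m : ℝ) : Prop where
  ab : iA ≠ iB
  ac : iA ≠ iC
  bc : iB ≠ iC
  hA : 1 / 3 < pp w f iA
  hB : 1 / 3 < pp w f iB
  hC : pp w f iC = 1 / 3 - m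
  sum : (pp w f iA - 1 / 3) + (pp w f iB - 1 / 3) = m

private lemma lab_aux (iA iB iC : Fin 3) (hab : iA ≠ iB) (hac : iA ≠ iC) (hbc : iB ≠ iC)
    (L B : ℝ) (hB : 0 ≤ B)
    (hsum : (pp w f iA - 1 / 3) + (pp w f iB - 1 / 3) + (pp w f iC - 1 / 3) = 0)
    (hprod : 3 * ((pp w f iA - 1 / 3) * (pp w f iB - 1 / 3) * (pp w f iC - 1 / 3)) +
      435 / 1000 * B + L ^ 2 < 0)
    (hneg : pp w f iC - 1 / 3 < 0)
    (hsq : (pp w f iA - 1 / 3) ^ 2 + (pp w f iB - 1 / 3) ^ 2 + (pp w f iC - 1 / 3) ^ 2 ≤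
      126 / 10000) :
    ∃ iA iB iC m, Lab w f iA iB iC m ∧
    L ^ 2 + 435 / 1000 * B < 3 / 4 * m ^ 3 ∧ 3 / 2 * m ^ 2 ≤ 126 / 10000 := by
  obtain ⟨xA, hxA⟩ : ∃ x, x = pp w f iA - 1 / 3 := ⟨_, rfl⟩
  obtain ⟨xB, hxB⟩ : ∃ x, x = pp w f iB - 1 / 3 := ⟨_, rfl⟩
  obtain ⟨xC, hxC⟩ : ∃ x, x = pp w f iC - 1 / 3 := ⟨_, rfl⟩
  rw [← hxA, ← hxB, ← hxC] at hsum hprod hsq
  rw [← hxC] at hneg
  have hL2 : 0 ≤ L ^ 2 := sq_nonneg L
  have hAB : 0 < xA * xB := by
    by_contra hcon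
    have h1 : 0 ≤ xA * xB * xC := mul_nonneg_of_nonpos_of_nonpos (not_lt.mp hcon) hneg.le
    nlinarith
  have hA : 0 < xA := by
    by_contra hcon
    have h1 : xA ≤ 0 := not_lt.mp hcon
    have h2 : 0 < xB := by linarith
    nlinarith
  have hB' : 0 < xB := by
    by_contra hcon
    have h1 : xB ≤ 0 := not_lt.mp hcon
    nlinarith
  have hm : -xC = xA + xB := by linarith
  refine ⟨iA, iB, iC, -xC, ⟨hab, hac, hbc, by linarith, by linarith, by linarith, by linarith⟩,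
    ?_, ?_⟩
  · have h1 : xC = -(xA + xB) := by linarith
    rw [h1] at hprod ⊢
    have h2 : 0 ≤ (xA - xB) ^ 2 * (xA + xB) := mul_nonneg (sq_nonneg _) (by linarith)
    nlinarith
  · have h1 : xC = -(xA + xB) := by linarith
    rw [h1] at hsq ⊢
    nlinarith [sq_nonneg (xA - xB)]

private lemma fin3_cases (i : Fin 3) : i = 0 ∨ i = 1 ∨ i = 2 := by
  fin_cases i <;> simp

theorem Part.lab (h : Part G w f) : ∃ iA iB iC m, Lab w f iA iB iC m ∧
    G.lam w ^ 2 + 435 / 1000 * G.Btot w f < 3 / 4 * m ^ 3 ∧ 3 / 2 * m ^ 2 ≤ 126 / 10000 := by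
  have hw : ∀ v, 0 ≤ w v := fun v => (h.opt.pos v).le
  have hs := h.opt.sum
  have hps : pp w f 0 + pp w f 1 + pp w f 2 = 1 := by
    have := pp_sum w f hs
    rwa [Fin.sum_univ_three] at this
  have hL2 : 0 ≤ G.lam w ^ 2 := sq_nonneg _
  have hx : ∀ j, |pp w f j - 1 / 3| ≤ 1228 / 10000 := fun j => (h.hx j).trans (by linarith)
  have hx1 : ∀ j, -(1228 / 10000) ≤ pp w f j - 1 / 3 := fun j => (abs_le.mp (hx j)).1
  have hx2 : ∀ j, pp w f j - 1 / 3 ≤ 1228 / 10000 := fun j => (abs_le.mp (hx j)).2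
  have hpair : ∀ i j : Fin 3, i ≠ j → 2 / 3 - 1228 / 10000 ≤ pp w f i + pp w f j := by
    intro i j hij
    have h0 := hx2 0
    have h1 := hx2 1
    have h2 := hx2 2
    rcases fin3_cases i with rfl | rfl | rfl <;> rcases fin3_cases j with rfl | rfl | rfl <;>
      first
        | exact absurd rfl hij
        | linarith
  have hbin : ∀ v, 0 ≤ G.bin w f v := fun v => bin_nonneg w f G hw v
  have hbcr : ∀ v, 0 ≤ G.bcr w f v := fun v => bcr_nonneg w f G hw v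
  have hal : ∀ v j, 0 ≤ G.al w f v j := fun v j => al_nonneg w f G hw v j
  have hbb : ∀ v, G.bb w f v < 65 / 1000 := fun v => h.bb_small v
  have hbb0 : ∀ v, 0 ≤ G.bb w f v := fun v => add_nonneg (hbin v) (hbcr v)
  have hbbsq : ∀ v, G.bb w f v ^ 2 ≤ 65 / 1000 * G.bb w f v := by
    intro v
    nlinarith [hbb v, hbb0 v]
  -- the two pointwise estimates
  have hA : ∀ v, 435 / 1000 * G.bb w f v ≤ G.bin w f v +
        (∑ i, if i = f v then 0 else
          (1 + 3 * ((pp w f i - 1 / 3) + (pp w f (f v) - 1 / 3))) * G.al w f v i)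
        - 3 * G.bb w f v ^ 2 := by
    intro v
    have h1 : 6316 / 10000 * G.bcr w f v ≤ ∑ i, if i = f v then 0 else
          (1 + 3 * ((pp w f i - 1 / 3) + (pp w f (f v) - 1 / 3))) * G.al w f v i := by
      rw [bcr_eq w f G v, Finset.mul_sum]
      refine Finset.sum_le_sum fun i _ => ?_
      by_cases hi : i = f v
      · rw [if_pos hi, if_pos hi, mul_zero]
      · rw [if_neg hi, if_neg hi]
        refine mul_le_mul_of_nonneg_right ?_ (hal v i)
        have := hpair i (f v) hi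
        linarith
    have h2 := hbbsq v
    have h3 : G.bb w f v = G.bin w f v + G.bcr w f v := rfl
    have h4 := hbin v
    have h5 := hbcr v
    rw [h3] at h2 ⊢
    linarith
  have hT : ∀ v, 24 / 100 * G.bin w f v + 87 / 100 * G.bcr w f v ≤
      3 * (pp w f (f v) * G.bin w f v +
      (∑ i, if i = f v then 0 else (pp w f i + pp w f (f v)) * G.al w f v i)
      - 2 * G.bb w f v ^ 2) := by
    intro v
    have h1 : 54 / 100 * G.bcr w f v ≤ ∑ i, if i = f v then 0 else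
          (pp w f i + pp w f (f v)) * G.al w f v i := by
      rw [bcr_eq w f G v, Finset.mul_sum]
      refine Finset.sum_le_sum fun i _ => ?_
      by_cases hi : i = f v
      · rw [if_pos hi, if_pos hi, mul_zero]
      · rw [if_neg hi, if_neg hi]
        refine mul_le_mul_of_nonneg_right ?_ (hal v i)
        have := hpair i (f v) hi
        linarith
    have h2 := hbbsq v
    have h3 : G.bb w f v = G.bin w f v + G.bcr w f v := rfl
    have h4 := hbin v
    have h5 := hbcr v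
    have h6 : 21 / 100 * G.bin w f v ≤ pp w f (f v) * G.bin w f v := by
      refine mul_le_mul_of_nonneg_right ?_ h4
      have := hx1 (f v)
      linarith
    rw [h3] at h2 ⊢
    linarith
  -- summation
  have hBtot : 435 / 1000 * G.Btot w f ≤ ∑ v, w v * (G.bin w f v +
        (∑ i, if i = f v then 0 else
          (1 + 3 * ((pp w f i - 1 / 3) + (pp w f (f v) - 1 / 3))) * G.al w f v i)
        - 3 * G.bb w f v ^ 2) := by
    unfold Btot
    rw [Finset.mul_sum]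
    refine Finset.sum_le_sum fun v _ => ?_
    have := mul_le_mul_of_nonneg_left (hA v) (hw v)
    linarith
  have hTsum : 24 / 100 * G.Bin w f + 87 / 100 * G.Bcr w f ≤ G.T1 w := by
    refine le_trans ?_ (T1_ge G w f hw)
    unfold Bin Bcr
    rw [Finset.mul_sum, Finset.mul_sum, Finset.mul_sum, ← Finset.sum_add_distrib]
    refine Finset.sum_le_sum fun v _ => ?_
    have := mul_le_mul_of_nonneg_left (hT v) (hw v)
    linarith
  have hBin0 : 0 ≤ G.Bin w f := Finset.sum_nonneg fun v _ => mul_nonneg (hw v) (hbin v)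
  have hBcr0 : 0 ≤ G.Bcr w f := Finset.sum_nonneg fun v _ => mul_nonneg (hw v) (hbcr v)
  have hBt0 : 0 ≤ G.Btot w f := Finset.sum_nonneg fun v _ => mul_nonneg (hw v) (hbb0 v)
  have hkey : 3 * ((pp w f 0 - 1 / 3) * (pp w f 1 - 1 / 3) * (pp w f 2 - 1 / 3)) +
      435 / 1000 * G.Btot w f + G.lam w ^ 2 < 0 := by
    have h1 := phi_ge G w f hw hs
    have h2 := phi_neg h.opt
    linarith
  have hsq : (pp w f 0 - 1 / 3) ^ 2 + (pp w f 1 - 1 / 3) ^ 2 + (pp w f 2 - 1 / 3) ^ 2 ≤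
      126 / 10000 := by
    have h1 := sum_sq w f G hs
    rw [Fin.sum_univ_three] at h1
    have h2 := h.c1
    linarith
  have h01 : (0 : Fin 3) ≠ 1 := by decide
  have h02 : (0 : Fin 3) ≠ 2 := by decide
  have h12 : (1 : Fin 3) ≠ 2 := by decide
  by_cases hn2 : pp w f 2 - 1 / 3 < 0
  · exact lab_aux 0 1 2 h01 h02 h12 _ _ hBt0 (by linarith) hkey hn2 hsq
  by_cases hn1 : pp w f 1 - 1 / 3 < 0
  · refine lab_aux 0 2 1 h02 h01 h12.symm _ _ hBt0 (by linarith) ?_ hn1 (by linarith)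
    have : (pp w f 0 - 1 / 3) * (pp w f 2 - 1 / 3) * (pp w f 1 - 1 / 3) =
        (pp w f 0 - 1 / 3) * (pp w f 1 - 1 / 3) * (pp w f 2 - 1 / 3) := by ring
    rw [this]; exact hkey
  by_cases hn0 : pp w f 0 - 1 / 3 < 0
  · refine lab_aux 1 2 0 h12 h01.symm h02.symm _ _ hBt0 (by linarith) ?_ hn0 (by linarith)
    have : (pp w f 1 - 1 / 3) * (pp w f 2 - 1 / 3) * (pp w f 0 - 1 / 3) =
        (pp w f 0 - 1 / 3) * (pp w f 1 - 1 / 3) * (pp w f 2 - 1 / 3) := by ring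
    rw [this]; exact hkey
  · exfalso
    have h0 := not_lt.mp hn0
    have h1 := not_lt.mp hn1
    have h2 := not_lt.mp hn2
    have h3 : 0 ≤ (pp w f 0 - 1 / 3) * (pp w f 1 - 1 / 3) * (pp w f 2 - 1 / 3) :=
      mul_nonneg (mul_nonneg h0 h1) h2
    linarith

end OG
end FDF
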