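import Pool.Agent.FDF.B2
/-! FDF-B3. PLAN. From `m² ≤ .0084`: m ≤ .0917, `(3/4) m³ ≤ .000579`; so lam² + .435 Btot < .000579. Hence for every v (`chi_ge`, `pt`, Bin ≤ Btot):
`∑_j al (pp - al) ≤ lam/3 + lam²/4 + Btot/2 ≤ .0082` (Btot/2 ≤ (.000579 - lam²)/.87; the map lam ↦ lam/3 - .8994 lam² is increasing on
[0, .0241]). With μ_{f v} = bin v, μ_i = al v i (i ≠ f v), M = bb v = ∑ μ_i (`bin_eq`, `bcr_eq`): `al (pp-al)` at f v is `bin (pp - bin)`, and
every `μ_i (pp_i - μ_i) ≥ μ_i (.24163 - M)`, so `M (.24163 - M) ≤ .0082`, `round2`. `bb1`: for f v ∈ {iA,iB} use only the two parts iA, iB, pp > 1/3, `round3`. -/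
namespace FDF
open Finset
open scoped BigOperators Classical
namespace OG
variable {V : Type} {G : OG V} [Fintype V] {w : V → ℝ} {f : V → Fin 3}

/-- bad partners in `A ∪ B` of a vertex of `A ∪ B`; `0` for the vertices of `C` -/
noncomputable def be1 (G : OG V) (w : V → ℝ) (f : V → Fin 3) (iA iB : Fin 3) (v : V) : ℝ :=
  if f v = iA then G.bin w f v + G.al w f v iB
  else if f v = iB then G.bin w f v + G.al w f v iA else 0

noncomputable def B1 (G : OG V) (w : V → ℝ) (f : V → Fin 3) (iA iB : Fin 3) : ℝ :=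
  ∑ v, w v * be1 G w f iA iB v

/-- sum over the three parts, written with the three labels -/
private lemma sum_lab {iA iB iC : Fin 3} (hab : iA ≠ iB) (hac : iA ≠ iC) (hbc : iB ≠ iC) (g : Fin 3 → ℝ) :
    ∑ j, g j = g iA + g iB + g iC := by
  rw [Fin.sum_univ_three]
  fin_cases iA <;> fin_cases iB <;> fin_cases iC <;> simp at hab hac hbc ⊢ <;> ring

/-- numerical facts on `m` -/
private lemma m_facts {iA iB iC : Fin 3} {m : ℝ} (l : Lab w f iA iB iC m)
    (h2 : 3 / 2 * m ^ 2 ≤ 126 / 10000) : 0 < m ∧ m ≤ 917 / 10000 ∧ 3 / 4 * m ^ 3 ≤ 5778 / 10000000 := by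
  have hm : 0 < m := by have := l.hA; have := l.hB; have := l.sum; linarith
  have hm1 : m ≤ 917 / 10000 := by
    by_contra hc
    push Not at hc
    nlinarith
  refine ⟨hm, hm1, ?_⟩
  have h3 : m ^ 2 ≤ 84 / 10000 := by linarith
  have h4 : m ^ 3 ≤ 917 / 10000 * (84 / 10000) := by
    calc m ^ 3 = m * m ^ 2 := by ring
      _ ≤ 917 / 10000 * (84 / 10000) := by
        apply mul_le_mul hm1 h3 (by positivity) (by norm_num)
  linarith

private lemma S_le (h : Part G w f) {iA iB iC : Fin 3} {m : ℝ} (l : Lab w f iA iB iC m)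
    (h1 : G.lam w ^ 2 + 435 / 1000 * G.Btot w f < 3 / 4 * m ^ 3) (h2 : 3 / 2 * m ^ 2 ≤ 126 / 10000) (v : V) :
    ∑ j, G.al w f v j * (pp w f j - G.al w f v j) ≤ 82 / 10000 := by
  obtain ⟨hm, hm1, hm3⟩ := m_facts l h2
  have hw : ∀ v, 0 ≤ w v := fun v => (h.opt.pos v).le
  have hc := G.chi_ge w f hw v
  have hp := pt h.opt v
  have hB : G.Btot w f = G.Bin w f + G.Bcr w f := G.Btot_eq w f
  have hcr : 0 ≤ G.Bcr w f := Finset.sum_nonneg fun u _ => mul_nonneg (hw u) (G.bcr_nonneg w f hw u)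
  have hin : 0 ≤ G.Bin w f := Finset.sum_nonneg fun u _ => mul_nonneg (hw u) (G.bin_nonneg w f hw u)
  have hl : 0 < G.lam w := lam_pos h.opt
  have s1 := sq_nonneg (G.nn w v - 1 / 3 + G.lam w / 2)
  have s2 := sq_nonneg (G.oo w v - 1 / 3 + G.lam w / 2)
  have hl2 : G.lam w ^ 2 < 5778 / 10000000 := by nlinarith
  have hl3 : G.lam w < 241 / 10000 := by
    by_contra hcc
    push Not at hcc
    nlinarith
  nlinarith

private lemma mu_ge {x p q M : ℝ} (hx : 0 ≤ x) (hxM : x ≤ M) (hq : q ≤ p) : x * (q - M) ≤ x * (p - x) := by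
  apply mul_le_mul_of_nonneg_left _ hx
  linarith

theorem Part.bb_small2 (h : Part G w f) {iA iB iC : Fin 3} {m : ℝ} (l : Lab w f iA iB iC m)
    (h1 : G.lam w ^ 2 + 435 / 1000 * G.Btot w f < 3 / 4 * m ^ 3) (h2 : 3 / 2 * m ^ 2 ≤ 126 / 10000) (v : V) :
    G.bb w f v < 411 / 10000 := by
  have hw : ∀ v, 0 ≤ w v := fun v => (h.opt.pos v).le
  obtain ⟨hm, hm1, hm3⟩ := m_facts l h2
  have hS := S_le h l h1 h2 v
  have hb := h.bb_small v
  have hq : ∀ j, 24163 / 100000 ≤ pp w f j := by
    have hA := l.hA; have hB := l.hB; have hC := l.hC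
    intro j
    have hj : j = iA ∨ j = iB ∨ j = iC := by
      have := l.ab; have := l.ac; have := l.bc
      fin_cases iA <;> fin_cases iB <;> fin_cases iC <;> fin_cases j <;> simp_all
    rcases hj with rfl | rfl | rfl
    · linarith
    · linarith
    · rw [hC]; linarith
  have hbin := G.bin_eq w f v
  have hbcr := G.bcr_eq w f v
  have hbin0 := G.bin_nonneg w f hw v
  have ha0 := G.al_nonneg w f hw v
  refine round2 _ (24163 / 100000) hb le_rfl ?_
  refine le_trans ?_ hS
  have hbb : G.bb w f v = G.bin w f v + ∑ j, if j = f v then 0 else G.al w f v j := by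
    unfold bb; rw [hbcr]
  set M := G.bb w f v with hM
  have key : ∀ j, (if j = f v then G.bin w f v else G.al w f v j) * (24163 / 100000 - M) ≤
      G.al w f v j * (pp w f j - G.al w f v j) := by
    have hle : ∀ j, (if j = f v then 0 else G.al w f v j) ≤ ∑ j, if j = f v then 0 else G.al w f v j := by
      intro j
      refine Finset.single_le_sum (f := fun j => if j = f v then 0 else G.al w f v j) (fun i _ => ?_) (Finset.mem_univ j)
      split_ifs
      · exact le_rfl
      · exact ha0 i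
    have hsum0 : 0 ≤ ∑ j, if j = f v then 0 else G.al w f v j := by
      refine Finset.sum_nonneg fun i _ => ?_
      split_ifs
      · exact le_rfl
      · exact ha0 i
    intro j
    by_cases hj : j = f v
    · subst hj
      rw [if_pos rfl]
      have h3 : G.al w f v (f v) * (pp w f (f v) - G.al w f v (f v)) =
          G.bin w f v * (pp w f (f v) - G.bin w f v) := by rw [hbin]; ring
      rw [h3]
      exact mu_ge hbin0 (by rw [hbb]; linarith) (hq _)
    · rw [if_neg hj]
      refine mu_ge (ha0 j) ?_ (hq _)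
      have h4 := hle j
      rw [if_neg hj] at h4
      rw [hbb]; linarith
  have hMs : M = ∑ j, if j = f v then G.bin w f v else G.al w f v j := by
    rw [hbb]
    have : ∀ j, (if j = f v then G.bin w f v else G.al w f v j) =
        (if j = f v then G.bin w f v else 0) + (if j = f v then 0 else G.al w f v j) := by
      intro j; split_ifs <;> simp
    rw [Finset.sum_congr rfl fun j _ => this j, Finset.sum_add_distrib]
    simp
  calc M * (24163 / 100000 - M) = ∑ j, (if j = f v then G.bin w f v else G.al w f v j) * (24163 / 100000 - M) := by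
        rw [← Finset.sum_mul, ← hMs]
    _ ≤ _ := Finset.sum_le_sum fun j _ => key j

private lemma be1_aux (h : Part G w f) {iA iB iC : Fin 3} {m : ℝ} (l : Lab w f iA iB iC m)
    (h1 : G.lam w ^ 2 + 435 / 1000 * G.Btot w f < 3 / 4 * m ^ 3) (h2 : 3 / 2 * m ^ 2 ≤ 126 / 10000) (v : V)
    (i j k : Fin 3) (hij : i ≠ j) (hik : i ≠ k) (hjk : j ≠ k) (hi : 1 / 3 < pp w f i) (hj : 1 / 3 < pp w f j)
    (hv : f v = i) : G.bin w f v + G.al w f v j < 268 / 10000 := by
  have hw : ∀ v, 0 ≤ w v := fun v => (h.opt.pos v).le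
  have hS := S_le h l h1 h2 v
  have hb := h.bb_small2 l h1 h2 v
  have hbin := G.bin_eq w f v
  have hbcr := G.bcr_eq w f v
  have hbin0 := G.bin_nonneg w f hw v
  have ha0 := G.al_nonneg w f hw v
  have hak := G.al_le w f hw v k
  rw [sum_lab hij hik hjk] at hS hbcr
  have hbb : G.bb w f v = G.bin w f v + (G.al w f v j + G.al w f v k) := by
    unfold bb; rw [hbcr, hv]
    rw [if_pos rfl, if_neg (Ne.symm hij), if_neg (Ne.symm hik)]; ring
  have hlt : G.bin w f v + G.al w f v j < 411 / 10000 := by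
    have := ha0 k
    linarith
  refine round3 _ hlt (le_trans ?_ hS)
  have e1 : G.al w f v i * (pp w f i - G.al w f v i) = G.bin w f v * (pp w f i - G.bin w f v) := by
    rw [hbin, hv]; ring
  rw [e1]
  have k1 := mu_ge (x := G.bin w f v) (p := pp w f i) (q := 1 / 3) (M := G.bin w f v + G.al w f v j) hbin0
    (by have := ha0 j; linarith) hi.le
  have k2 := mu_ge (x := G.al w f v j) (p := pp w f j) (q := 1 / 3) (M := G.bin w f v + G.al w f v j) (ha0 j)
    (by linarith) hj.le
  have k3 : 0 ≤ G.al w f v k * (pp w f k - G.al w f v k) := mul_nonneg (ha0 k) (by linarith)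
  linarith

theorem Part.be1_small (h : Part G w f) {iA iB iC : Fin 3} {m : ℝ} (l : Lab w f iA iB iC m)
    (h1 : G.lam w ^ 2 + 435 / 1000 * G.Btot w f < 3 / 4 * m ^ 3) (h2 : 3 / 2 * m ^ 2 ≤ 126 / 10000) (v : V) :
    be1 G w f iA iB v < 268 / 10000 := by
  unfold be1
  split_ifs with hA hB
  · exact be1_aux h l h1 h2 v iA iB iC l.ab l.ac l.bc l.hA l.hB hA
  · exact be1_aux h l h1 h2 v iB iA iC (Ne.symm l.ab) l.bc l.ac l.hB l.hA hB
  · norm_num

end OG
end FDF
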