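import Pool.Agent.FDF.B3
/-! FDF-B4. PLAN. `fin1`: `phi_ge`, `phi_neg` and, for every v, the pointwise inequality
`bin + ∑_{i≠f v} (1+3(x_i+x_{f v})) al v i - 3 bb² ≥ (9196/10000) be1 v`: for f v = iA: bb = be1 + al v iC, so
`3 bb² = 3 be1² + 3 al_C (2 be1 + al_C) ≤ .0804 be1 + al_C * 6 * .0411`, coefficient of al v iB: `1 + 3m ≥ 1`, of al v iC: `1 - 3 x_B ≥ 1 - 3m ≥ .7249`
(m ≤ .0917). For f v = iC: `≥ bb (.7249 - .1233) ≥ 0`. And `3 x0 x1 x2 = -3 x_A x_B m ≥ -(3/4) m³` (reorder: the product over Fin 3).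
`fin2`: `sum_sq`, `c1`, `T1_ge` and pointwise `3 (pp bin + ∑ (pp+pp) al) - 6 bb² ≥ ...`: for f v ∈ {iA,iB}: `(3 pp - .2466) bin + (2 - .2466) al_other + ...`
so `7 T1 - Bin + Bcr ≥ (427/100) B1`. And `∑ x² ≥ (3/2) m²`. -/
namespace FDF
open Finset
open scoped BigOperators Classical
namespace OG
variable {V : Type} {G : OG V} [Fintype V] {w : V → ℝ} {f : V → Fin 3}

private lemma s3 (x : Fin 3 → ℝ) {a b c : Fin 3} (hab : a ≠ b) (hac : a ≠ c) (hbc : b ≠ c) :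
    ∑ i, x i = x a + x b + x c := by
  rw [Fin.sum_univ_three]
  fin_cases a <;> fin_cases b <;> fin_cases c <;> simp at hab hac hbc <;> simp <;> ring

private lemma p3 (x : Fin 3 → ℝ) {a b c : Fin 3} (hab : a ≠ b) (hac : a ≠ c) (hbc : b ≠ c) :
    x 0 * x 1 * x 2 = x a * x b * x c := by
  fin_cases a <;> fin_cases b <;> fin_cases c <;> simp at hab hac hbc <;>
    simp only [Fin.zero_eta, Fin.mk_one, Fin.reduceFinMk] <;> ring

private lemma off3 (x : Fin 3 → ℝ) {a b c : Fin 3} (hab : a ≠ b) (hac : a ≠ c) (hbc : b ≠ c) :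
    (∑ i, if i = a then 0 else x i) = x b + x c := by
  rw [s3 _ hab hac hbc, if_pos rfl, if_neg hab.symm, if_neg hac.symm, zero_add]

private lemma three {iA iB iC : Fin 3} (hab : iA ≠ iB) (hac : iA ≠ iC) (hbc : iB ≠ iC)
    (j : Fin 3) : j = iA ∨ j = iB ∨ j = iC := by
  revert hab hac hbc
  revert iA iB iC j
  decide

private lemma m_bd {m : ℝ} (h2 : 3 / 2 * m ^ 2 ≤ 126 / 10000) : m ≤ 917 / 10000 := by
  nlinarith

private lemma numA (m xA xB bi aB aC be bb : ℝ) (hm : m ≤ 917 / 10000) (hA : 0 ≤ xA)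
    (hB : 0 ≤ xB) (hs : xA + xB = m) (hbi : 0 ≤ bi) (haB : 0 ≤ aB) (haC : 0 ≤ aC)
    (hbe : be = bi + aB) (hbb : bb = bi + (aB + aC)) (h1 : bb < 411 / 10000)
    (h2 : be < 268 / 10000) :
    9196 / 10000 * be ≤ bi + ((1 + 3 * (xB + xA)) * aB + (1 + 3 * (-m + xA)) * aC)
      - 3 * bb ^ 2 := by
  have e1 : bb = be + aC := by rw [hbe, hbb]; ring
  have hbe0 : 0 ≤ be := by rw [hbe]; linarith
  have k1 : be * be ≤ 268 / 10000 * be := mul_le_mul_of_nonneg_right h2.le hbe0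
  have k2 : aC * (be + bb) ≤ aC * (822 / 10000) := by
    refine mul_le_mul_of_nonneg_left ?_ haC
    linarith
  have k3 : bb ^ 2 = be * be + aC * (be + bb) := by rw [e1]; ring
  have k4 : 0 ≤ (xB + xA) * aB := mul_nonneg (by linarith) haB
  have k5 : xB * aC ≤ 917 / 10000 * aC := mul_le_mul_of_nonneg_right (by linarith) haC
  have k6 : -m + xA = -xB := by linarith
  rw [k6, k3]
  have k7 : bi = be - aB := by rw [hbe]; ring
  rw [k7]
  nlinarith

private lemma numC (m xA xB bi aA aB bb : ℝ) (hm : m ≤ 917 / 10000) (hA : 0 ≤ xA)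
    (hB : 0 ≤ xB) (hs : xA + xB = m) (hbi : 0 ≤ bi) (haA : 0 ≤ aA) (haB : 0 ≤ aB)
    (hbb : bb = bi + (aA + aB)) (h1 : bb < 411 / 10000) :
    0 ≤ bi + ((1 + 3 * (xA + -m)) * aA + (1 + 3 * (xB + -m)) * aB) - 3 * bb ^ 2 := by
  have hbb0 : 0 ≤ bb := by rw [hbb]; linarith
  have k1 : bb * bb ≤ 411 / 10000 * bb := mul_le_mul_of_nonneg_right h1.le hbb0
  have k2 : xA + -m = -xB := by linarith
  have k3 : xB + -m = -xA := by linarith
  have k4 : xB * aA ≤ 917 / 10000 * aA := mul_le_mul_of_nonneg_right (by linarith) haA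
  have k5 : xA * aB ≤ 917 / 10000 * aB := mul_le_mul_of_nonneg_right (by linarith) haB
  rw [k2, k3]
  nlinarith

private lemma numA2 (m xA xB bi aB aC be bb : ℝ) (hm : m ≤ 917 / 10000) (hA : 0 ≤ xA)
    (hB : 0 ≤ xB) (hs : xA + xB = m) (hbi : 0 ≤ bi) (haB : 0 ≤ aB) (haC : 0 ≤ aC)
    (hbe : be = bi + aB) (hbb : bb = bi + (aB + aC)) (h1 : bb < 411 / 10000)
    (h2 : be < 268 / 10000) :
    427 / 100 * be ≤ 21 * ((1 / 3 + xA) * bi + (((1 / 3 + xB) + (1 / 3 + xA)) * aB +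
      ((1 / 3 - m) + (1 / 3 + xA)) * aC) - 2 * bb ^ 2) - bi + (aB + aC) := by
  have e1 : bb = be + aC := by rw [hbe, hbb]; ring
  have hbe0 : 0 ≤ be := by rw [hbe]; linarith
  have k1 : be * be ≤ 268 / 10000 * be := mul_le_mul_of_nonneg_right h2.le hbe0
  have k2 : aC * (be + bb) ≤ aC * (822 / 10000) := by
    refine mul_le_mul_of_nonneg_left ?_ haC
    linarith
  have k3 : bb ^ 2 = be * be + aC * (be + bb) := by rw [e1]; ring
  have k4 : 0 ≤ (xB + xA) * aB := mul_nonneg (by linarith) haB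
  have k5 : xB * aC ≤ 917 / 10000 * aC := mul_le_mul_of_nonneg_right (by linarith) haC
  have k6 : (1 / 3 - m) + (1 / 3 + xA) = 2 / 3 - xB := by linarith
  have k7 : bi = be - aB := by rw [hbe]; ring
  have k8 : 0 ≤ xA * bi := mul_nonneg hA hbi
  have k9 : aB ≤ be := by rw [hbe]; linarith
  rw [k6, k3]
  have k10 : (1 / 3 + xA) * bi = 1 / 3 * bi + xA * bi := by ring
  rw [k10]
  nlinarith

private lemma numC2 (m xA xB bi aA aB bb : ℝ) (hm : m ≤ 917 / 10000) (hA : 0 ≤ xA)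
    (hB : 0 ≤ xB) (hs : xA + xB = m) (hbi : 0 ≤ bi) (haA : 0 ≤ aA) (haB : 0 ≤ aB)
    (hbb : bb = bi + (aA + aB)) (h1 : bb < 411 / 10000) :
    0 ≤ 21 * ((1 / 3 - m) * bi + (((1 / 3 + xA) + (1 / 3 - m)) * aA +
      ((1 / 3 + xB) + (1 / 3 - m)) * aB) - 2 * bb ^ 2) - bi + (aA + aB) := by
  have hbb0 : 0 ≤ bb := by rw [hbb]; linarith
  have k1 : bb * bb ≤ 411 / 10000 * bb := mul_le_mul_of_nonneg_right h1.le hbb0
  have k2 : (1 / 3 + xA) + (1 / 3 - m) = 2 / 3 - xB := by linarith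
  have k3 : (1 / 3 + xB) + (1 / 3 - m) = 2 / 3 - xA := by linarith
  have k4 : xB * aA ≤ 917 / 10000 * aA := mul_le_mul_of_nonneg_right (by linarith) haA
  have k5 : xA * aB ≤ 917 / 10000 * aB := mul_le_mul_of_nonneg_right (by linarith) haB
  have k6 : m * bi ≤ 917 / 10000 * bi := mul_le_mul_of_nonneg_right hm hbi
  rw [k2, k3]
  nlinarith

private lemma point1 (h : Part G w f) {iA iB iC : Fin 3} {m : ℝ} (l : Lab w f iA iB iC m)
    (h1 : G.lam w ^ 2 + 435 / 1000 * G.Btot w f < 3 / 4 * m ^ 3) (h2 : 3 / 2 * m ^ 2 ≤ 126 / 10000)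
    (v : V) :
    9196 / 10000 * be1 G w f iA iB v ≤ G.bin w f v +
        (∑ i, if i = f v then 0 else
          (1 + 3 * ((pp w f i - 1 / 3) + (pp w f (f v) - 1 / 3))) * G.al w f v i)
        - 3 * G.bb w f v ^ 2 := by
  have hw : ∀ v, 0 ≤ w v := fun v => (h.opt.pos v).le
  have hm := m_bd h2
  have hbb := h.bb_small2 l h1 h2 v
  have hbe := h.be1_small l h1 h2 v
  have hbi := G.bin_nonneg w f hw v
  have hal := G.al_nonneg w f hw v
  have hA := l.hA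
  have hB := l.hB
  have hC := l.hC
  have hs := l.sum
  have ebb : G.bb w f v = G.bin w f v + ∑ j, if j = f v then 0 else G.al w f v j := by
    unfold bb
    rw [bcr_eq]
  have hC' : pp w f iC - 1 / 3 = -m := by rw [hC]; ring
  rcases three l.ab l.ac l.bc (f v) with hv | hv | hv
  · rw [hv, off3 _ l.ab l.ac l.bc] at ebb ⊢
    have ebe : be1 G w f iA iB v = G.bin w f v + G.al w f v iB := by
      unfold be1
      rw [if_pos hv]
    rw [hC']
    exact numA m _ _ _ _ _ _ _ hm (by linarith) (by linarith) hs hbi (hal iB) (hal iC) ebe ebb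
      hbb hbe
  · rw [hv, off3 _ l.ab.symm l.bc l.ac] at ebb ⊢
    have ebe : be1 G w f iA iB v = G.bin w f v + G.al w f v iA := by
      unfold be1
      rw [if_neg (by rw [hv]; exact l.ab.symm), if_pos hv]
    rw [hC']
    exact numA m _ _ _ _ _ _ _ hm (by linarith) (by linarith) (by linarith) hbi (hal iA) (hal iC)
      ebe ebb hbb hbe
  · rw [hv, off3 _ l.ac.symm l.bc.symm l.ab] at ebb ⊢
    have ebe : be1 G w f iA iB v = 0 := by
      unfold be1
      rw [if_neg (by rw [hv]; exact l.ac.symm), if_neg (by rw [hv]; exact l.bc.symm)]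
    rw [hC', ebe, mul_zero]
    exact numC m _ _ _ _ _ _ hm (by linarith) (by linarith) hs hbi (hal iA) (hal iB) ebb hbb

private lemma point2 (h : Part G w f) {iA iB iC : Fin 3} {m : ℝ} (l : Lab w f iA iB iC m)
    (h1 : G.lam w ^ 2 + 435 / 1000 * G.Btot w f < 3 / 4 * m ^ 3) (h2 : 3 / 2 * m ^ 2 ≤ 126 / 10000)
    (v : V) :
    427 / 100 * be1 G w f iA iB v ≤ 21 * (pp w f (f v) * G.bin w f v +
      (∑ i, if i = f v then 0 else (pp w f i + pp w f (f v)) * G.al w f v i)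
      - 2 * G.bb w f v ^ 2) - G.bin w f v + G.bcr w f v := by
  have hw : ∀ v, 0 ≤ w v := fun v => (h.opt.pos v).le
  have hm := m_bd h2
  have hbb := h.bb_small2 l h1 h2 v
  have hbe := h.be1_small l h1 h2 v
  have hbi := G.bin_nonneg w f hw v
  have hal := G.al_nonneg w f hw v
  have hA := l.hA
  have hB := l.hB
  have hC := l.hC
  have hs := l.sum
  have ebb : G.bb w f v = G.bin w f v + ∑ j, if j = f v then 0 else G.al w f v j := by
    unfold bb
    rw [bcr_eq]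
  rw [bcr_eq]
  obtain ⟨xA, hxA⟩ : ∃ xA, xA = pp w f iA - 1 / 3 := ⟨_, rfl⟩
  obtain ⟨xB, hxB⟩ : ∃ xB, xB = pp w f iB - 1 / 3 := ⟨_, rfl⟩
  have eA : pp w f iA = 1 / 3 + xA := by rw [hxA]; ring
  have eB : pp w f iB = 1 / 3 + xB := by rw [hxB]; ring
  have hA0 : 0 ≤ xA := by rw [hxA]; linarith
  have hB0 : 0 ≤ xB := by rw [hxB]; linarith
  have hs' : xA + xB = m := by rw [hxA, hxB]; exact hs
  rcases three l.ab l.ac l.bc (f v) with hv | hv | hv
  · rw [hv, off3 _ l.ab l.ac l.bc] at ebb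
    rw [hv, off3 _ l.ab l.ac l.bc, off3 _ l.ab l.ac l.bc]
    have ebe : be1 G w f iA iB v = G.bin w f v + G.al w f v iB := by
      unfold be1
      rw [if_pos hv]
    rw [eA, eB, hC]
    exact numA2 m _ _ _ _ _ _ _ hm hA0 hB0 hs' hbi (hal iB) (hal iC) ebe ebb hbb hbe
  · rw [hv, off3 _ l.ab.symm l.bc l.ac] at ebb
    rw [hv, off3 _ l.ab.symm l.bc l.ac, off3 _ l.ab.symm l.bc l.ac]
    have ebe : be1 G w f iA iB v = G.bin w f v + G.al w f v iA := by
      unfold be1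
      rw [if_neg (by rw [hv]; exact l.ab.symm), if_pos hv]
    rw [eA, eB, hC]
    exact numA2 m _ _ _ _ _ _ _ hm hB0 hA0 (by linarith) hbi (hal iA) (hal iC) ebe ebb hbb hbe
  · rw [hv, off3 _ l.ac.symm l.bc.symm l.ab] at ebb
    rw [hv, off3 _ l.ac.symm l.bc.symm l.ab, off3 _ l.ac.symm l.bc.symm l.ab]
    have ebe : be1 G w f iA iB v = 0 := by
      unfold be1
      rw [if_neg (by rw [hv]; exact l.ac.symm), if_neg (by rw [hv]; exact l.bc.symm)]
    rw [eA, eB, hC, ebe, mul_zero]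
    exact numC2 m _ _ _ _ _ _ hm hA0 hB0 hs' hbi (hal iA) (hal iB) ebb hbb

theorem Part.fin1 (h : Part G w f) {iA iB iC : Fin 3} {m : ℝ} (l : Lab w f iA iB iC m)
    (h1 : G.lam w ^ 2 + 435 / 1000 * G.Btot w f < 3 / 4 * m ^ 3) (h2 : 3 / 2 * m ^ 2 ≤ 126 / 10000) :
    G.lam w ^ 2 + 9196 / 10000 * B1 G w f iA iB < 3 / 4 * m ^ 3 := by
  have hw : ∀ v, 0 ≤ w v := fun v => (h.opt.pos v).le
  have k1 := G.phi_ge w f hw h.opt.sum
  have k2 := phi_neg h.opt
  have k3 : 9196 / 10000 * B1 G w f iA iB ≤ ∑ v, w v * (G.bin w f v +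
        (∑ i, if i = f v then 0 else
          (1 + 3 * ((pp w f i - 1 / 3) + (pp w f (f v) - 1 / 3))) * G.al w f v i)
        - 3 * G.bb w f v ^ 2) := by
    unfold B1
    rw [Finset.mul_sum]
    refine Finset.sum_le_sum fun v _ => ?_
    have k := mul_le_mul_of_nonneg_left (point1 h l h1 h2 v) (hw v)
    have e : 9196 / 10000 * (w v * be1 G w f iA iB v) =
        w v * (9196 / 10000 * be1 G w f iA iB v) := by ring
    rw [e]
    exact k
  have k4 := p3 (fun j => pp w f j - 1 / 3) l.ab l.ac l.bc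
  rw [k4] at k1
  have hC' : pp w f iC - 1 / 3 = -m := by rw [l.hC]; ring
  rw [hC'] at k1
  have hA := l.hA
  have hB := l.hB
  have hs := l.sum
  obtain ⟨xA, hxA⟩ : ∃ xA, xA = pp w f iA - 1 / 3 := ⟨_, rfl⟩
  obtain ⟨xB, hxB⟩ : ∃ xB, xB = pp w f iB - 1 / 3 := ⟨_, rfl⟩
  rw [← hxA, ← hxB] at k1 hs
  have hm0 : 0 < m := by
    rw [← hs, hxA, hxB]
    linarith
  have k5 : xA * xB ≤ m ^ 2 / 4 := by
    rw [← hs]
    nlinarith [sq_nonneg (xA - xB)]
  have k6 : xA * xB * m ≤ m ^ 2 / 4 * m := mul_le_mul_of_nonneg_right k5 hm0.le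
  have k7 : m ^ 3 = m ^ 2 * m := by ring
  rw [k7]
  linarith

theorem Part.fin2 (h : Part G w f) {iA iB iC : Fin 3} {m : ℝ} (l : Lab w f iA iB iC m)
    (h1 : G.lam w ^ 2 + 435 / 1000 * G.Btot w f < 3 / 4 * m ^ 3) (h2 : 3 / 2 * m ^ 2 ≤ 126 / 10000) :
    3 / 2 * m ^ 2 + 427 / 100 * B1 G w f iA iB ≤ 126 / 10000 := by
  have hw : ∀ v, 0 ≤ w v := fun v => (h.opt.pos v).le
  have k1 := G.T1_ge w f hw
  have k2 := h.c1
  have k3 := sum_sq w f G h.opt.sum
  have k4 : 427 / 100 * B1 G w f iA iB ≤ 21 * (∑ v, w v * (pp w f (f v) * G.bin w f v +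
      (∑ i, if i = f v then 0 else (pp w f i + pp w f (f v)) * G.al w f v i)
      - 2 * G.bb w f v ^ 2)) - G.Bin w f + G.Bcr w f := by
    unfold B1 Bin Bcr
    rw [Finset.mul_sum, Finset.mul_sum, ← Finset.sum_sub_distrib, ← Finset.sum_add_distrib]
    refine Finset.sum_le_sum fun v _ => ?_
    have k := mul_le_mul_of_nonneg_left (point2 h l h1 h2 v) (hw v)
    have e : 427 / 100 * (w v * be1 G w f iA iB v) =
        w v * (427 / 100 * be1 G w f iA iB v) := by ring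
    rw [e]
    refine k.trans (le_of_eq ?_)
    ring
  have k5 := s3 (fun j => (pp w f j - 1 / 3) ^ 2) l.ab l.ac l.bc
  rw [k5] at k3
  have hC' : pp w f iC - 1 / 3 = -m := by rw [l.hC]; ring
  rw [hC'] at k3
  have hs := l.sum
  obtain ⟨xA, hxA⟩ : ∃ xA, xA = pp w f iA - 1 / 3 := ⟨_, rfl⟩
  obtain ⟨xB, hxB⟩ : ∃ xB, xB = pp w f iB - 1 / 3 := ⟨_, rfl⟩
  rw [← hxA, ← hxB] at k3 hs
  have k6 : m ^ 2 / 2 ≤ xA ^ 2 + xB ^ 2 := by
    rw [← hs]
    nlinarith [sq_nonneg (xA - xB)]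
  have k7 : (-m) ^ 2 = m ^ 2 := by ring
  rw [k7] at k3
  linarith

end OG
end FDF
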