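import Mathlib.Data.List.Basic

/-!
# FDF certificates: the checker (helper3)

Relations of pairs are coded by `0` (nonadjacent or equal), `1` (arc from the first to the second), `2` (arc from the second to the first).
Everything is written with natural numbers so that the kernel evaluates it quickly (`decide +kernel`).
-/

namespace FDF

/-- digit number `k` (48 bits) of the table `T` -/
def dg (T k : ℕ) : ℕ := (T >>> (48 * k)) % 281474976710656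

/-- bit number `k` -/
def bt (T k : ℕ) : ℕ := (T >>> k) % 2

/-- entry `(i,j)` of the packed 5 x 5 matrix `M` (2 bits each) -/
def gt (M i j : ℕ) : ℕ := (M >>> (10 * i + 2 * j)) % 4

/-- forces the evaluation of `n` -/
def fz {β : Type} (n : ℕ) (f : ℕ → β) : β := match n with
  | 0 => f 0
  | n+1 => f (n+1)

theorem fz_eq {β : Type} (n : ℕ) (f : ℕ → β) : fz n f = f n := by
  cases n <;> rfl

/-- a certificate -/
structure Cert where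
  tabQ : ℕ
  tabQ1 : ℕ
  tabMu : ℕ
  tabO : ℕ
  DB : ℕ
  K : ℕ

/-- part code of `x` with respect to a triangle, from `9 r(a,x) + 3 r(b,x) + r(c,x)` -/
def prtN (t : ℕ) : ℕ := (17725775605936383 >>> (2 * t)) % 4

/-- bad pair -/
def badN (fx fy rxy : ℕ) : ℕ :=
  fz (prtN fx) fun px => fz (prtN fy) fun py =>
    cond (Nat.beq px 3) 1 (cond (Nat.beq py 3) 1
      (cond (Nat.beq px py) (cond (Nat.beq rxy 0) 0 1) (cond (Nat.beq rxy 0) 1 0)))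

/-- slot of the labelled type with code `9 r(a,b) + 3 r(a,c) + r(b,c)` (7 = not used) -/
def slot (tc : ℕ) : ℕ := (2417851638946683810590664 >>> (3 * tc)) % 8

def hitN (t : ℕ) : ℕ := bt 105804623 t

def allN (t : ℕ) : ℕ := bt 113467392 t

/-- negative part of the certificate function -/
def HN {α : Type} (C : Cert) (r : α → α → ℕ) (a b c x y : α) : ℕ :=
  fz (r a b) fun rab => fz (r a c) fun rac => fz (r a x) fun rax => fz (r a y) fun ray => fz (r x y) fun rxy =>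
  fz (9 * rab + (3 * rac + r b c)) fun tc => fz (9 * rax + (3 * ray + rxy)) fun tx =>
  (dg C.tabO tc +
    fz (slot tc) fun s => cond (Nat.beq s 7) 70368744177664
     (dg C.tabQ (s * 729 + ((9 * rax + (3 * r b x + r c x)) * 27 + (9 * ray + (3 * r b y + r c y))))))
   + (dg C.tabQ1 (27 * tc + tx) + (cond (Nat.beq (hitN tx) 0) (4 * dg C.tabMu tc) 0 +
     cond (Nat.beq C.DB 0) 0 (cond (Nat.beq (allN tc) 0) 0
      (C.DB * badN (9 * rax + (3 * r b x + r c x)) (9 * ray + (3 * r b y + r c y)) rxy))))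

/-- positive part of the certificate function -/
def HP {α : Type} (C : Cert) (r : α → α → ℕ) (a b c x y : α) : ℕ :=
  C.K + cond (Nat.beq (hitN (9 * r a x + (3 * r a y + r x y))) 0) 0
    (5 * dg C.tabMu (9 * r a b + (3 * r a c + r b c)))

def perms5 : List (ℕ × ℕ × ℕ × ℕ × ℕ) :=
  [(0,1,2,3,4), (0,1,2,4,3), (0,1,3,2,4), (0,1,3,4,2), (0,1,4,2,3), (0,1,4,3,2), (0,2,1,3,4), (0,2,1,4,3), (0,2,3,1,4), (0,2,3,4,1), (0,2,4,1,3), (0,2,4,3,1), (0,3,1,2,4), (0,3,1,4,2), (0,3,2,1,4), (0,3,2,4,1), (0,3,4,1,2), (0,3,4,2,1), (0,4,1,2,3), (0,4,1,3,2), (0,4,2,1,3), (0,4,2,3,1), (0,4,3,1,2), (0,4,3,2,1), (1,0,2,3,4), (1,0,2,4,3), (1,0,3,2,4), (1,0,3,4,2), (1,0,4,2,3), (1,0,4,3,2), (1,2,0,3,4), (1,2,0,4,3), (1,2,3,0,4), (1,2,3,4,0), (1,2,4,0,3), (1,2,4,3,0), (1,3,0,2,4), (1,3,0,4,2), (1,3,2,0,4), (1,3,2,4,0), (1,3,4,0,2), (1,3,4,2,0), (1,4,0,2,3), (1,4,0,3,2),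 (1,4,2,0,3), (1,4,2,3,0), (1,4,3,0,2), (1,4,3,2,0), (2,0,1,3,4), (2,0,1,4,3), (2,0,3,1,4), (2,0,3,4,1), (2,0,4,1,3), (2,0,4,3,1), (2,1,0,3,4), (2,1,0,4,3), (2,1,3,0,4), (2,1,3,4,0), (2,1,4,0,3), (2,1,4,3,0), (2,3,0,1,4), (2,3,0,4,1), (2,3,1,0,4), (2,3,1,4,0), (2,3,4,0,1), (2,3,4,1,0), (2,4,0,1,3), (2,4,0,3,1), (2,4,1,0,3), (2,4,1,3,0), (2,4,3,0,1), (2,4,3,1,0), (3,0,1,2,4), (3,0,1,4,2), (3,0,2,1,4), (3,0,2,4,1), (3,0,4,1,2), (3,0,4,2,1), (3,1,0,2,4), (3,1,0,4,2), (3,1,2,0,4), (3,1,2,4,0), (3,1,4,0,2), (3,1,4,2,0), (3,2,0,1,4), (3,2,0,4,1), (3,2,1,0,4), (3,2,1,4,0), (3,2,4,0,1), (3,2,4,1,0), (3,4,0,1,2), (3,4,0,2,1), (3,4,1,0,2), (3,4,1,2,0), (3,4,2,0,1), (3,4,2,1,0), (4,0,1,2,3), (4,0,1,3,2), (4,0,2,1,3), (4,0,2,3,1), (4,0,3,1,2), (4,0,3,2,1), (4,1,0,2,3), (4,1,0,3,2), (4,1,2,0,3), (4,1,2,3,0), (4,1,3,0,2), (4,1,3,2,0), (4,2,0,1,3), (4,2,0,3,1),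 (4,2,1,0,3), (4,2,1,3,0), (4,2,3,0,1), (4,2,3,1,0), (4,3,0,1,2), (4,3,0,2,1), (4,3,1,0,2), (4,3,1,2,0), (4,3,2,0,1), (4,3,2,1,0)]

def cyc4 : List (ℕ × ℕ × ℕ × ℕ) :=
  [(0,1,2,3), (0,1,2,4), (0,1,3,2), (0,1,3,4), (0,1,4,2), (0,1,4,3), (0,2,1,3), (0,2,1,4), (0,2,3,1), (0,2,3,4), (0,2,4,1), (0,2,4,3), (0,3,1,2), (0,3,1,4), (0,3,2,1), (0,3,2,4), (0,3,4,1), (0,3,4,2), (0,4,1,2), (0,4,1,3), (0,4,2,1), (0,4,2,3), (0,4,3,1), (0,4,3,2), (1,2,3,4), (1,2,4,3), (1,3,2,4), (1,3,4,2), (1,4,2,3), (1,4,3,2)]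

/-- no induced directed 4-cycle -/
def c4ok (M : ℕ) : Bool :=
  cyc4.all fun p => !(Nat.beq (gt M p.1 p.2.1) 1 && Nat.beq (gt M p.2.1 p.2.2.1) 1 && Nat.beq (gt M p.2.2.1 p.2.2.2) 1 &&
    Nat.beq (gt M p.2.2.2 p.1) 1 && Nat.beq (gt M p.1 p.2.2.1) 0 && Nat.beq (gt M p.2.1 p.2.2.2) 0)

/-- weight of a relation: 0, 5, 1 -/
def wt (x : ℕ) : ℕ := (104 >>> (3 * x)) % 8

def key (M i : ℕ) : ℕ := wt (gt M i 0) + (wt (gt M i 1) + (wt (gt M i 2) + (wt (gt M i 3) + wt (gt M i 4))))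

def sortedB (M : ℕ) : Bool :=
  fz (key M 3) fun k3 => Nat.ble k3 (key M 4) && fz (key M 2) fun k2 => Nat.ble k2 k3 &&
    fz (key M 1) fun k1 => Nat.ble k1 k2 && Nat.ble (key M 0) k1

def sumP (f : ℕ → ℕ → ℕ → ℕ → ℕ → ℕ) : List (ℕ × ℕ × ℕ × ℕ × ℕ) → ℕ
  | [] => 0
  | (a, b, c, x, y) :: l => f a b c x y + sumP f l

def chk1 (C : Cert) (M : ℕ) : Bool :=
  cond (sortedB M) (cond (c4ok M)
      (Nat.ble (sumP (HN C (gt M)) perms5) (sumP (HP C (gt M)) perms5))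
    true) true

/-- add the relation `v` of the pair `i j` -/
def ad (M i j v : ℕ) : ℕ := M + ((v <<< (10 * i + 2 * j)) + (((3 - v) % 3) <<< (10 * j + 2 * i)))

def all3 (f : ℕ → Bool) : Bool := f 0 && (f 1 && f 2)

def chkAll (C : Cert) (M0 : ℕ) : Bool :=
  all3 fun a => all3 fun b => all3 fun c => fz (ad (ad (ad M0 0 3 a) 1 3 b) 2 3 c) fun M1 =>
  all3 fun d => all3 fun e => all3 fun f => fz (ad (ad (ad M1 0 4 d) 1 4 e) 2 4 f) fun M2 =>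
  all3 fun g => fz (ad M2 3 4 g) fun M3 => chk1 C M3

def M0 (u v w : ℕ) : ℕ := ad (ad (ad 0 0 1 u) 0 2 v) 1 2 w

end FDF
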