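import Pool.Agent.FDF.PSum
/-! FDF-PChi. PLAN. `chi v ≥ ∑_{a,b, f a = f b} w a w b mm v a (1-mm v b) mm a b`, and `mm a b = 1 - (1 - mm a b)`. The main term is
`∑_j al v j (pp j - al v j)`. The error term is `Z = ∑_{a,b, f a = f b} w w mm v a (1-mm v b)(1-mm a b)`; swapping the names a,b and adding:
`2Z = ∑_{f a = f b} w w (mm v a (1-mm v b) + mm v b (1-mm v a)) (1-mm a b) ≤ ∑_{f a=f b} w w (1-mm a b) = Bin`. -/
namespace FDF
open Finset
open scoped BigOperators Classical
namespace OG
variable {V : Type} [Fintype V] (G : OG V) (w : V → ℝ) (f : V → Fin 3)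

private lemma chi_key (v : V) :
    ∑ j, G.al w f v j * (pp w f j - G.al w f v j) =
      ∑ a, ∑ b, w a * w b * ((if f a = f b then 1 else 0) * (G.mm v a * (1 - G.mm v b))) := by
  have h1 : ∀ j : Fin 3, G.al w f v j * (pp w f j - G.al w f v j) =
      ∑ a, ∑ b, (if f a = j then w a * G.mm v a else 0) *
        (if f b = j then w b * (1 - G.mm v b) else 0) := by
    intro j
    rw [← Finset.sum_mul_sum]
    congr 1
    unfold pp al
    rw [← Finset.sum_sub_distrib]
    refine Finset.sum_congr rfl fun b _ => ?_
    split_ifs <;> ring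
  simp_rw [h1]
  rw [Finset.sum_comm]
  refine Finset.sum_congr rfl fun a _ => ?_
  rw [Finset.sum_comm]
  refine Finset.sum_congr rfl fun b _ => ?_
  have h2 : ∀ j : Fin 3, (if f a = j then w a * G.mm v a else 0) *
        (if f b = j then w b * (1 - G.mm v b) else 0) =
      if f a = j then (w a * G.mm v a * (if f b = j then w b * (1 - G.mm v b) else 0)) else 0 := by
    intro j
    split_ifs <;> simp
  simp_rw [h2]
  rw [Finset.sum_ite_eq]
  simp only [Finset.mem_univ, if_true]
  by_cases h : f a = f b
  · rw [if_pos h.symm, if_pos h]; ring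
  · rw [if_neg (fun h' => h h'.symm), if_neg h]; ring

theorem chi_ge (hw : ∀ v, 0 ≤ w v) (v : V) :
    ∑ j, G.al w f v j * (pp w f j - G.al w f v j) ≤ G.chi w v + G.Bin w f / 2 := by
  rw [chi_key]
  have hBin : G.Bin w f = ∑ a, ∑ b, w a * w b * ((if f a = f b then 1 else 0) * (1 - G.mm a b)) := by
    unfold Bin bin
    refine Finset.sum_congr rfl fun a _ => ?_
    rw [Finset.mul_sum]
    refine Finset.sum_congr rfl fun b _ => ?_
    by_cases h : f a = f b
    · rw [if_pos h.symm, if_pos h]; ring
    · rw [if_neg (fun h' => h h'.symm), if_neg h]; ring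
  have hF : ∑ a, ∑ b, w a * w b * (G.mm v a * (1 - G.mm v b) * G.mm a b +
      (if f a = f b then 1 else 0) * (1 - G.mm a b) / 2 -
      (if f a = f b then 1 else 0) * (G.mm v a * (1 - G.mm v b))) =
      G.chi w v + G.Bin w f / 2 -
      ∑ a, ∑ b, w a * w b * ((if f a = f b then 1 else 0) * (G.mm v a * (1 - G.mm v b))) := by
    rw [hBin]
    unfold chi
    rw [Finset.sum_div, ← Finset.sum_add_distrib, ← Finset.sum_sub_distrib]
    refine Finset.sum_congr rfl fun a _ => ?_
    rw [Finset.sum_div, ← Finset.sum_add_distrib, ← Finset.sum_sub_distrib]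
    refine Finset.sum_congr rfl fun b _ => ?_
    ring
  have hS : 0 ≤ ∑ a, ∑ b, w a * w b * (G.mm v a * (1 - G.mm v b) * G.mm a b +
      (if f a = f b then 1 else 0) * (1 - G.mm a b) / 2 -
      (if f a = f b then 1 else 0) * (G.mm v a * (1 - G.mm v b))) := by
    set F : V → V → ℝ := fun a b => w a * w b * (G.mm v a * (1 - G.mm v b) * G.mm a b +
      (if f a = f b then 1 else 0) * (1 - G.mm a b) / 2 -
      (if f a = f b then 1 else 0) * (G.mm v a * (1 - G.mm v b))) with hFdef
    have h1 : ∑ a, ∑ b, F a b = ∑ a, ∑ b, F b a := Finset.sum_comm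
    have h2 : 0 ≤ ∑ a, ∑ b, (F a b + F b a) := by
      refine Finset.sum_nonneg fun a _ => Finset.sum_nonneg fun b _ => ?_
      have hwa := hw a
      have hwb := hw b
      have hwab : 0 ≤ w a * w b := mul_nonneg hwa hwb
      have ha0 := G.mm_nonneg v a
      have ha1 := G.mm_le_one v a
      have hb0 := G.mm_nonneg v b
      have hb1 := G.mm_le_one v b
      have hab0 := G.mm_nonneg a b
      have hab1 := G.mm_le_one a b
      by_cases h : f a = f b
      · have e : F a b + F b a = w a * w b * ((1 - G.mm a b) *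
            (1 - G.mm v a * (1 - G.mm v b) - G.mm v b * (1 - G.mm v a))) := by
          simp only [hFdef]
          rw [if_pos h, if_pos h.symm, G.mm_comm b a]
          ring
        rw [e]
        refine mul_nonneg hwab (mul_nonneg (by linarith) ?_)
        rcases G.mm_zero_or_one v a with hA | hA <;> rcases G.mm_zero_or_one v b with hB | hB <;>
          rw [hA, hB] <;> norm_num
      · have e : F a b + F b a = w a * w b * (G.mm v a * (1 - G.mm v b) * G.mm a b +
            G.mm v b * (1 - G.mm v a) * G.mm a b) := by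
          simp only [hFdef]
          rw [if_neg h, if_neg (fun h' => h h'.symm), G.mm_comm b a]
          ring
        rw [e]
        have h3 : 0 ≤ 1 - G.mm v b := by linarith
        have h4 : 0 ≤ 1 - G.mm v a := by linarith
        positivity
    have h3 : ∑ a, ∑ b, (F a b + F b a) = 2 * ∑ a, ∑ b, F a b := by
      simp_rw [Finset.sum_add_distrib]
      rw [← h1]; ring
    linarith
  linarith [hF, hS]

end OG
end FDF
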