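import Pool.Agent.FDF.PSum
/-! FDF-PMin. PLAN. `exists_min`: `Finset.exists_min_image` over `Finset.univ : Finset (V → Fin 3)` (finite, nonempty).
`min_le`: let j ≠ f v (the case j = f v is `bin_eq`, `bcr_eq`: equality), f' = Function.update f v j. Write
`Btot f = ∑_{u,x} w u w x bd f u x` with `bd f u x = if f u = f x then 1 - mm u x else mm u x` (symmetric in u,x).
The pairs not containing v are the same for f and f'; the pair (v,v) contributes 0 in both; so
`Btot f' - Btot f = 2 w v (∑_{x≠v} w x bd f' v x - ∑_{x≠v} w x bd f v x)`, the second sum is `bb v`, the first sum is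
`(pp j - al v j) + ∑_{i≠j} al v i - w v`. Minimality and w v > 0 give `bb v ≤ (pp j - al v j) + ∑_{i≠j} al v i - w v`. -/
namespace FDF
open Finset
open scoped BigOperators Classical
namespace OG
variable {V : Type} [Fintype V] (G : OG V) (w : V → ℝ)

theorem exists_min : ∃ f : V → Fin 3, ∀ f' : V → Fin 3, G.Btot w f ≤ G.Btot w f' := by
  obtain ⟨f, -, hf⟩ := Finset.exists_min_image (Finset.univ : Finset (V → Fin 3))
    (fun f => G.Btot w f) ⟨fun _ => 0, Finset.mem_univ _⟩
  exact ⟨f, fun f' => hf f' (Finset.mem_univ _)⟩

private noncomputable def bd (f : V → Fin 3) (u x : V) : ℝ :=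
  if f x = f u then 1 - G.mm u x else G.mm u x

omit [Fintype V] in
private lemma bd_symm (f : V → Fin 3) (u x : V) : bd G f u x = bd G f x u := by
  unfold bd
  rw [G.mm_comm u x]
  by_cases h : f x = f u
  · rw [if_pos h, if_pos h.symm]
  · rw [if_neg h, if_neg (fun h' => h h'.symm)]

omit [Fintype V] in
private lemma bd_self (f : V → Fin 3) (u : V) : bd G f u u = 0 := by
  unfold bd
  simp

private lemma bb_eq_bd (f : V → Fin 3) (v : V) : G.bb w f v = ∑ x, w x * bd G f v x := by
  unfold bb bin bcr bd
  rw [← Finset.sum_add_distrib]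
  refine Finset.sum_congr rfl fun x _ => ?_
  split_ifs <;> ring

private lemma Btot_eq_bd (f : V → Fin 3) :
    G.Btot w f = ∑ u, ∑ x, w u * w x * bd G f u x := by
  unfold Btot
  refine Finset.sum_congr rfl fun u _ => ?_
  rw [bb_eq_bd, Finset.mul_sum]
  refine Finset.sum_congr rfl fun x _ => ?_
  ring

private lemma split_v (g : V → V → ℝ) (v : V) (hs : ∀ u x, g u x = g x u) (h0 : g v v = 0) :
    ∑ u, ∑ x, g u x = 2 * ∑ x, g v x + ∑ u, ∑ x, (if u = v ∨ x = v then 0 else g u x) := by
  have h1 : ∀ u x, g u x = (if u = v then g u x else 0) + (if x = v then g u x else 0) +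
      (if u = v ∨ x = v then 0 else g u x) := by
    intro u x
    by_cases hu : u = v
    · by_cases hx : x = v
      · subst hu; subst hx; simp [h0]
      · simp [hu, hx]
    · by_cases hx : x = v
      · simp [hu, hx]
      · simp [hu, hx]
  have h2 : ∑ u, ∑ x, g u x = ∑ u, ∑ x, (if u = v then g u x else 0) +
      ∑ u, ∑ x, (if x = v then g u x else 0) +
      ∑ u, ∑ x, (if u = v ∨ x = v then 0 else g u x) := by
    rw [← Finset.sum_add_distrib, ← Finset.sum_add_distrib]
    refine Finset.sum_congr rfl fun u _ => ?_
    rw [← Finset.sum_add_distrib, ← Finset.sum_add_distrib]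
    exact Finset.sum_congr rfl fun x _ => h1 u x
  have h3 : ∑ u, ∑ x, (if u = v then g u x else 0) = ∑ x, g v x := by
    rw [Finset.sum_comm]
    refine Finset.sum_congr rfl fun x _ => ?_
    rw [Finset.sum_ite_eq']
    simp
  have h4 : ∑ u, ∑ x, (if x = v then g u x else 0) = ∑ x, g v x := by
    refine Finset.sum_congr rfl fun u _ => ?_
    rw [Finset.sum_ite_eq']
    simp only [Finset.mem_univ, if_true]
    exact hs u v
  rw [h2, h3, h4]
  ring

theorem min_le (hw : ∀ v, 0 < w v) (f : V → Fin 3) (hf : ∀ f' : V → Fin 3, G.Btot w f ≤ G.Btot w f')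
    (v : V) (j : Fin 3) :
    G.bb w f v ≤ (pp w f j - G.al w f v j) + ∑ i, if i = j then 0 else G.al w f v i := by
  by_cases hj : j = f v
  · subst hj
    unfold bb
    rw [bin_eq, bcr_eq]
  · -- the right-hand side as a sum
    have hR : (pp w f j - G.al w f v j) + ∑ i, (if i = j then 0 else G.al w f v i) =
        ∑ x, (if f x = j then w x * (1 - G.mm v x) else w x * G.mm v x) := by
      have e1 : ∑ i, (if i = j then 0 else G.al w f v i) =
          ∑ x, (if f x = j then 0 else w x * G.mm v x) := by
        have : ∀ i : Fin 3, (if i = j then 0 else G.al w f v i) =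
            ∑ x, (if f x = i then (if i = j then 0 else w x * G.mm v x) else 0) := by
          intro i
          by_cases hi : i = j
          · simp [hi]
          · simp only [hi, if_false]
            rfl
        simp_rw [this]
        rw [Finset.sum_comm]
        refine Finset.sum_congr rfl fun x _ => ?_
        rw [Finset.sum_ite_eq]
        simp
      rw [e1]
      unfold pp al
      rw [← Finset.sum_sub_distrib, ← Finset.sum_add_distrib]
      refine Finset.sum_congr rfl fun x _ => ?_
      split_ifs <;> ring
    rw [hR]
    set f' : V → Fin 3 := Function.update f v j with hf'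
    have hfv : f' v = j := by rw [hf']; simp
    have hfx : ∀ x, x ≠ v → f' x = f x := by
      intro x hx; rw [hf']; exact Function.update_of_ne hx _ _
    have hmin := hf f'
    rw [Btot_eq_bd, Btot_eq_bd] at hmin
    rw [split_v (fun u x => w u * w x * bd G f u x) v
        (fun u x => by simp only [bd_symm G f u x]; ring) (by simp only [bd_self]; ring),
      split_v (fun u x => w u * w x * bd G f' u x) v
        (fun u x => by simp only [bd_symm G f' u x]; ring) (by simp only [bd_self]; ring)] at hmin
    have hrest : ∑ u, ∑ x, (if u = v ∨ x = v then 0 else w u * w x * bd G f' u x) =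
        ∑ u, ∑ x, (if u = v ∨ x = v then 0 else w u * w x * bd G f u x) := by
      refine Finset.sum_congr rfl fun u _ => Finset.sum_congr rfl fun x _ => ?_
      by_cases h : u = v ∨ x = v
      · rw [if_pos h, if_pos h]
      · rw [if_neg h, if_neg h]
        have hu : u ≠ v := fun h' => h (Or.inl h')
        have hx : x ≠ v := fun h' => h (Or.inr h')
        unfold bd
        rw [hfx u hu, hfx x hx]
    have h1 : ∑ x, w v * w x * bd G f v x = w v * G.bb w f v := by
      rw [bb_eq_bd, Finset.mul_sum]
      exact Finset.sum_congr rfl fun x _ => by ring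
    have h2 : ∑ x, w v * w x * bd G f' v x = w v * ∑ x, w x * bd G f' v x := by
      rw [Finset.mul_sum]
      exact Finset.sum_congr rfl fun x _ => by ring
    have h3 : ∑ x, w x * bd G f' v x ≤
        ∑ x, (if f x = j then w x * (1 - G.mm v x) else w x * G.mm v x) := by
      refine Finset.sum_le_sum fun x _ => ?_
      by_cases hx : x = v
      · subst hx
        rw [bd_self]
        have : ¬ (f x = j) := fun h => hj h.symm
        rw [if_neg this, mm_self]
        have := hw x
        linarith
      · unfold bd
        rw [hfv, hfx x hx]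
        split_ifs <;> exact le_refl _
    have h4 : w v * G.bb w f v ≤ w v * ∑ x, w x * bd G f' v x := by
      rw [hrest, h1, h2] at hmin
      linarith
    have h5 : G.bb w f v ≤ ∑ x, w x * bd G f' v x := le_of_mul_le_mul_left h4 (hw v)
    linarith

end OG
end FDF
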