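import Pool.Agent.FDF.PT1
/-! FDF-PPhi. PLAN. Put x_j = pp j - 1/3 (∑ x_j = 0), τ(v) = bcr v - bin v, nn v - 1/3 = x_{f v} + τ(v) (`nn_eq`).
`N2 - gam/3 = ∑_v w v ((x+τ)² - (x+τ)/3) = ∑_v w v (x² - x/3) + ∑_v w v (2 x τ + τ² - τ/3)`, and by `sum_part`
`∑_v w v (x² - x/3) = ∑_j (1/3+x_j)(x_j² - x_j/3) = ∑ x_j³ = 3 x0 x1 x2` (∑ x_j = 0; `pp_sum`).
Add `(2/3) T1 ≥ 2 ∑ w (...)` (`T1_ge'`): the coefficient of `bin` is `-2x+1/3+2(1/3+x) = 1`; the coefficient of `al v i` (i ≠ j = f v) is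
`2x_j - 1/3 + 2(2/3+x_i+x_j) = 1+4x_j+2x_i`, and `cross_symm` (c j i = x_j - x_i) turns it into `1+3x_i+3x_j`.
Quadratic part: `(bcr-bin)² - 4 bin² - 4 bin bcr - 4 bcr² = -3(bin+bcr)² = -3 bb²`. -/
namespace FDF
open Finset
open scoped BigOperators Classical
namespace OG
variable {V : Type} [Fintype V] (G : OG V) (w : V → ℝ) (f : V → Fin 3)

theorem phi_ge (hw : ∀ v, 0 ≤ w v) (hs : ∑ v, w v = 1) :
    3 * ((pp w f 0 - 1 / 3) * (pp w f 1 - 1 / 3) * (pp w f 2 - 1 / 3)) +
      ∑ v, w v * (G.bin w f v +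
        (∑ i, if i = f v then 0 else
          (1 + 3 * ((pp w f i - 1 / 3) + (pp w f (f v) - 1 / 3))) * G.al w f v i)
        - 3 * G.bb w f v ^ 2) ≤ G.N2 w - G.gam w / 3 + 2 / 3 * G.T1 w := by
  have hT := G.T1_ge' w f hw
  have hsum := pp_sum w f hs
  rw [Fin.sum_univ_three] at hsum
  -- the part-dependent term
  have hpart := sum_part w f
    (fun j => (pp w f j - 1 / 3) ^ 2 - (pp w f j - 1 / 3) / 3)
  rw [Fin.sum_univ_three] at hpart
  have hcube : pp w f 0 * ((pp w f 0 - 1 / 3) ^ 2 - (pp w f 0 - 1 / 3) / 3) +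
      pp w f 1 * ((pp w f 1 - 1 / 3) ^ 2 - (pp w f 1 - 1 / 3) / 3) +
      pp w f 2 * ((pp w f 2 - 1 / 3) ^ 2 - (pp w f 2 - 1 / 3) / 3) =
      3 * ((pp w f 0 - 1 / 3) * (pp w f 1 - 1 / 3) * (pp w f 2 - 1 / 3)) := by
    have h2 : pp w f 2 = 1 - pp w f 0 - pp w f 1 := by linarith
    rw [h2]; ring
  -- symmetry of the cross terms
  have hcross := G.cross_symm w f (fun j i => pp w f j - pp w f i)
  -- the pointwise identity
  have hpt : ∀ v, w v * (G.nn w v - 1 / 3) ^ 2 - w v * (G.nn w v - 1 / 3) / 3 +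
      2 * (w v * (pp w f (f v) * G.bin w f v +
      (∑ i, if i = f v then 0 else (pp w f i + pp w f (f v)) * G.al w f v i)
      - 2 * (G.bin w f v ^ 2 + G.bin w f v * G.bcr w f v + G.bcr w f v ^ 2))) =
      w v * ((pp w f (f v) - 1 / 3) ^ 2 - (pp w f (f v) - 1 / 3) / 3) +
      w v * (G.bin w f v +
        (∑ i, if i = f v then 0 else
          (1 + 3 * ((pp w f i - 1 / 3) + (pp w f (f v) - 1 / 3))) * G.al w f v i)
        - 3 * G.bb w f v ^ 2) +
      w v * (∑ i, if i = f v then 0 else (pp w f (f v) - pp w f i) * G.al w f v i) := by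
    intro v
    have e1 : (∑ i, if i = f v then 0 else
          (1 + 3 * ((pp w f i - 1 / 3) + (pp w f (f v) - 1 / 3))) * G.al w f v i) +
        (∑ i, if i = f v then 0 else (pp w f (f v) - pp w f i) * G.al w f v i) =
        2 * (∑ i, if i = f v then 0 else (pp w f i + pp w f (f v)) * G.al w f v i) +
        (2 * pp w f (f v) - 1) * G.bcr w f v := by
      rw [G.bcr_eq w f v, Finset.mul_sum, Finset.mul_sum, ← Finset.sum_add_distrib,
        ← Finset.sum_add_distrib]
      refine Finset.sum_congr rfl fun i _ => ?_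
      by_cases h : i = f v
      · simp only [h, if_true]; ring
      · simp only [h, if_false]; ring
    have e2 := G.nn_eq w f v
    have e3 : G.bb w f v = G.bin w f v + G.bcr w f v := rfl
    rw [e2, e3]
    linear_combination (- w v) * e1
  have hS := Finset.sum_congr rfl (fun v (_ : v ∈ (Finset.univ : Finset V)) => hpt v)
  simp only [Finset.sum_add_distrib, Finset.sum_sub_distrib] at hS
  rw [← Finset.mul_sum, ← Finset.sum_div] at hS
  have hN : G.N2 w = ∑ v, w v * (G.nn w v - 1 / 3) ^ 2 := rfl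
  have hg : G.gam w = ∑ v, w v * (G.nn w v - 1 / 3) := rfl
  rw [← hN, ← hg] at hS
  have hc0 : ∑ v, w v * (∑ i, if i = f v then 0 else (pp w f (f v) - pp w f i) * G.al w f v i)
      = 0 := by
    have h1 : ∑ v, w v * (∑ j, if j = f v then 0 else (pp w f j - pp w f (f v)) * G.al w f v j) =
        - ∑ v, w v * (∑ i, if i = f v then 0 else (pp w f (f v) - pp w f i) * G.al w f v i) := by
      rw [← Finset.sum_neg_distrib]
      refine Finset.sum_congr rfl fun v _ => ?_
      rw [← mul_neg, ← Finset.sum_neg_distrib]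
      congr 1
      refine Finset.sum_congr rfl fun i _ => ?_
      split_ifs
      · simp
      · ring
    have h2 : ∑ v, w v * (∑ i, if i = f v then 0 else (pp w f (f v) - pp w f i) * G.al w f v i) =
        ∑ v, w v * (∑ j, if j = f v then 0 else (pp w f j - pp w f (f v)) * G.al w f v j) :=
      hcross
    linarith
  have hp2 : ∑ v, w v * ((pp w f (f v) - 1 / 3) ^ 2 - (pp w f (f v) - 1 / 3) / 3) =
      3 * ((pp w f 0 - 1 / 3) * (pp w f 1 - 1 / 3) * (pp w f 2 - 1 / 3)) := by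
    rw [← hcube]; exact hpart
  linarith

end OG
end FDF
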