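import Mathlib
/-! FDF-Prof. Real arithmetic: the profile of one vertex. PLAN. `μ i = min (a i) (p i - a i)`, `M = ∑ μ i`.
`∑ a i (p i - a i) = ∑ μ i (p i - μ i)`; `μ i ≤ p i / 2`, `μ i ≤ M`, so `μ i (p i - μ i) ≥ μ i * max (q/2) (q - M)` with
`q = 21053/100000 + 27 L^2 ≤ p i`. Claim `M < 65/1000`: otherwise (case M ≤ q/2) `∑ ≥ M (q - M) ≥ .065 (q - .065)`; (case M > q/2)
`∑ ≥ M q/2 ≥ q²/4 ≥ .065 (q-.065)`. But `.065 (q - .065) = .0094595 + 1.755 L²` exceeds `.005 + L/3 - 4.75 L²`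
(discriminant `1/9 - 4*6.505*.0044595 < 0`, i.e. `.0044595 - L/3 + 6.505 L² > 0`).
Number of i with `a i > p i/2` (full): none => n = M < .065 < .17, contradiction with hn1. Two (i ≠ j) => `n ≥ p i + p j - M =
1 - p k - M > 1 - (1/3 + .1228 - 27 L²) - .065 > .46484 > n`. So exactly one, call it i: then `p i - a i + ∑_{j≠i} a j = M < .065`. -/
namespace FDF

private lemma single (q p m M : ℝ) (hm0 : 0 ≤ m) (hmp : m ≤ p / 2) (hq : q ≤ p) (hmM : m ≤ M) :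
    m * (q / 2) ≤ m * (p - m) ∧ m * (q - M) ≤ m * (p - m) :=
  ⟨mul_le_mul_of_nonneg_left (by linarith) hm0, mul_le_mul_of_nonneg_left (by linarith) hm0⟩

private lemma mM (p0 p1 p2 m0 m1 m2 L : ℝ) (hL0 : 0 ≤ L)
    (h0 : 0 ≤ m0) (h1 : 0 ≤ m1) (h2 : 0 ≤ m2)
    (g0 : m0 ≤ p0 / 2) (g1 : m1 ≤ p1 / 2) (g2 : m2 ≤ p2 / 2)
    (q0 : 21053 / 100000 + 27 * L ^ 2 ≤ p0) (q1 : 21053 / 100000 + 27 * L ^ 2 ≤ p1)
    (q2 : 21053 / 100000 + 27 * L ^ 2 ≤ p2)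
    (hS : m0 * (p0 - m0) + m1 * (p1 - m1) + m2 * (p2 - m2) ≤
      5 / 1000 + L / 3 - 475 / 100 * L ^ 2) : m0 + m1 + m2 < 65 / 1000 := by
  by_contra hcon
  push Not at hcon
  have hL2 : 0 ≤ L ^ 2 := sq_nonneg L
  obtain ⟨q, hqdef⟩ : ∃ q : ℝ, q = 21053 / 100000 + 27 * L ^ 2 := ⟨_, rfl⟩
  rw [← hqdef] at q0 q1 q2
  obtain ⟨M, hM⟩ : ∃ M : ℝ, M = m0 + m1 + m2 := ⟨_, rfl⟩
  have s0 := single q p0 m0 M h0 g0 q0 (by linarith)
  have s1 := single q p1 m1 M h1 g1 q1 (by linarith)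
  have s2 := single q p2 m2 M h2 g2 q2 (by linarith)
  rw [← hM] at hcon
  have hq : 21053 / 100000 ≤ q := by linarith
  have t1 : M * (q / 2) ≤ 5 / 1000 + L / 3 - 475 / 100 * L ^ 2 := by
    have : M * (q / 2) = m0 * (q / 2) + m1 * (q / 2) + m2 * (q / 2) := by rw [hM]; ring
    linarith [s0.1, s1.1, s2.1]
  have t2 : M * (q - M) ≤ 5 / 1000 + L / 3 - 475 / 100 * L ^ 2 := by
    have : M * (q - M) = m0 * (q - M) + m1 * (q - M) + m2 * (q - M) := by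
      nth_rewrite 1 [hM]; ring
    linarith [s0.2, s1.2, s2.2]
  have t3 : 65 / 1000 * (q - 65 / 1000) ≤ 5 / 1000 + L / 3 - 475 / 100 * L ^ 2 := by
    rcases le_total M (q / 2) with h | h
    · have : 0 ≤ (M - 65 / 1000) * (q - M - 65 / 1000) :=
        mul_nonneg (by linarith) (by linarith)
      nlinarith
    · have h' : q / 2 * (q / 2) ≤ M * (q / 2) :=
        mul_le_mul_of_nonneg_right h (by linarith)
      have : 0 ≤ (q / 2 - 65 / 1000) ^ 2 := sq_nonneg _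
      nlinarith
  have t4 : 0 ≤ (L - 1 / 39.03) ^ 2 := sq_nonneg _
  rw [hqdef] at t3
  nlinarith

private lemma half (a p : ℝ) (ha0 : 0 ≤ a) (hap : a ≤ p) :
    ∃ m : ℝ, 0 ≤ m ∧ m ≤ p / 2 ∧ a * (p - a) = m * (p - m) ∧ (m = a ∨ m = p - a) := by
  rcases le_total a (p / 2) with h | h
  · exact ⟨a, ha0, h, rfl, Or.inl rfl⟩
  · exact ⟨p - a, by linarith, by linarith, by ring, Or.inr rfl⟩

theorem profile (p a : Fin 3 → ℝ) (L : ℝ) (hL0 : 0 ≤ L) (ha0 : ∀ i, 0 ≤ a i) (hap : ∀ i, a i ≤ p i)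
    (hp : ∑ i, p i = 1) (hpl : ∀ i, 21053 / 100000 + 27 * L ^ 2 ≤ p i)
    (hpu : ∀ i, p i ≤ 1 / 3 + 1228 / 10000 - 27 * L ^ 2)
    (hn1 : 17 / 100 < ∑ i, a i) (hn2 : ∑ i, a i < 1 / 3 + 1315 / 10000)
    (hS : ∑ i, a i * (p i - a i) ≤ 5 / 1000 + L / 3 - 475 / 100 * L ^ 2) :
    ∃ i, (p i - a i) + (∑ j, if j = i then 0 else a j) < 65 / 1000 := by
  rw [Fin.sum_univ_three] at hp hn1 hn2 hS
  obtain ⟨m0, h0, g0, e0, c0⟩ := half (a 0) (p 0) (ha0 0) (hap 0)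
  obtain ⟨m1, h1, g1, e1, c1⟩ := half (a 1) (p 1) (ha0 1) (hap 1)
  obtain ⟨m2, h2, g2, e2, c2⟩ := half (a 2) (p 2) (ha0 2) (hap 2)
  rw [e0, e1, e2] at hS
  have hM := mM (p 0) (p 1) (p 2) m0 m1 m2 L hL0 h0 h1 h2 g0 g1 g2 (hpl 0) (hpl 1) (hpl 2) hS
  have hL2 : 0 ≤ L ^ 2 := sq_nonneg L
  have u0 := hpu 0
  have u1 := hpu 1
  have u2 := hpu 2
  have s0 : ∑ j : Fin 3, (if j = 0 then 0 else a j) = a 1 + a 2 := by
    rw [Fin.sum_univ_three]; simp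
  have s1 : ∑ j : Fin 3, (if j = 1 then 0 else a j) = a 0 + a 2 := by
    rw [Fin.sum_univ_three]; simp
  have s2 : ∑ j : Fin 3, (if j = 2 then 0 else a j) = a 0 + a 1 := by
    rw [Fin.sum_univ_three]; simp
  rcases c0 with c0 | c0 <;> rcases c1 with c1 | c1 <;> rcases c2 with c2 | c2
  · exfalso; linarith
  · exact ⟨2, by rw [s2]; linarith⟩
  · exact ⟨1, by rw [s1]; linarith⟩
  · exfalso; linarith
  · exact ⟨0, by rw [s0]; linarith⟩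
  · exfalso; linarith
  · exfalso; linarith
  · exfalso; linarith

/-- second round: if `M (q - M) ≤ 82/10000`, `M < 65/1000`, `q ≥ 24163/100000` then `M < 411/10000`
(the map `x ↦ x (q-x)` is increasing on `[0, q/2]`). -/
theorem round2 (M q : ℝ) (hM : M < 65 / 1000) (hq : 24163 / 100000 ≤ q)
    (h : M * (q - M) ≤ 82 / 10000) : M < 411 / 10000 := by
  by_contra hcon
  push Not at hcon
  have : 0 ≤ (M - 411 / 10000) * (q - M - 411 / 10000) :=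
    mul_nonneg (by linarith) (by linarith)
  nlinarith

theorem round3 (M : ℝ) (hM : M < 411 / 10000) (h : M * (1 / 3 - M) ≤ 82 / 10000) : M < 268 / 10000 := by
  by_contra hcon
  push Not at hcon
  have : 0 ≤ (M - 268 / 10000) * (1 / 3 - M - 268 / 10000) :=
    mul_nonneg (by linarith) (by linarith)
  nlinarith

end FDF
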