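import Pool.Agent.FDF.Tri
import Pool.Agent.FDF.Prof
import Pool.Agent.FDF.PPhi
import Pool.Agent.FDF.PChi
import Pool.Agent.FDF.PMin
/-! FDF-Boot (B1-B4): the chain of estimates. See the plans. -/
namespace FDF
open Finset
open scoped BigOperators Classical
namespace OG
variable {V : Type} {G : OG V} [Fintype V] {w : V → ℝ}

/-- standing data after the choice of the optimal partition -/
structure Part (G : OG V) (w : V → ℝ) (f : V → Fin 3) : Prop where
  opt : G.Opt w
  min : ∀ f' : V → Fin 3, G.Btot w f ≤ G.Btot w f'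
  small : G.Btot w f ≤ 1 / 100 - 10 * G.lam w ^ 2
  c1 : G.gam w + 7 * G.T1 w ≤ 126 / 10000

theorem exists_Part (h : G.Opt w) (h1 : StC1) (h2 : StC2) : ∃ f, Part G w f := by
  obtain ⟨f0, h0⟩ := exists_part h h2
  obtain ⟨f, hf⟩ := G.exists_min w
  exact ⟨f, h, hf, (hf f0).trans h0, h1 V G w h.c4 (fun v => (h.pos v).le) h.sum
    (fun v => by rw [h.reg v]; exact h.low.le)⟩

end OG
end FDF
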