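import Mathlib
import Pool.Agent.FDF.Base
/-! FDF-CDig. Digits. PLAN: `ofD_get` by induction on k and L: `(d + 4 n) >>> (2(k+1)) = n >>> (2k)` (Nat.shiftRight_eq_div_pow, d < 4, omega)
and `(d + 4n) % 4 = d`. `gt_ofD`: 10 i + 2 j = 2 (5 i + j). `pack_eq`: both sides are explicit polynomials in the variables: unfold,
`Nat.shiftLeft_eq`, `ring` / `omega`. -/
namespace FDF

def ofD : List ℕ → ℕ
  | [] => 0
  | d :: l => d + 4 * ofD l

theorem ofD_get (L : List ℕ) (hL : ∀ d ∈ L, d < 4) (k : ℕ) :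
    (ofD L >>> (2 * k)) % 4 = L.getD k 0 := by
  induction L generalizing k with
  | nil => simp [ofD]
  | cons d l ih =>
    have hd : d < 4 := hL d List.mem_cons_self
    cases k with
    | zero =>
      simp only [ofD, Nat.mul_zero, Nat.shiftRight_zero, List.getD_cons_zero]
      omega
    | succ k =>
      have h1 : ofD (d :: l) >>> (2 * (k + 1)) = ofD l >>> (2 * k) := by
        rw [show 2 * (k + 1) = 2 + 2 * k by ring, Nat.shiftRight_add]
        congr 1
        rw [Nat.shiftRight_eq_div_pow]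
        simp only [ofD]
        omega
      rw [h1, ih (fun e he => hL e (List.mem_cons_of_mem _ he)), List.getD_cons_succ]

theorem gt_ofD (L : List ℕ) (hL : ∀ d ∈ L, d < 4) (i j : ℕ) :
    gt (ofD L) i j = L.getD (5 * i + j) 0 := by
  unfold gt
  rw [show 10 * i + 2 * j = 2 * (5 * i + j) by ring]
  exact ofD_get L hL _

/-- the packed matrix built by the checker -/
theorem pack_eq (u v w a b c d e f g : ℕ) :
    ad (ad (ad (ad (ad (ad (ad (M0 u v w) 0 3 a) 1 3 b) 2 3 c) 0 4 d) 1 4 e) 2 4 f) 3 4 g =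
      ofD [0, u, v, a, d,
           (3 - u) % 3, 0, w, b, e,
           (3 - v) % 3, (3 - w) % 3, 0, c, f,
           (3 - a) % 3, (3 - b) % 3, (3 - c) % 3, 0, g,
           (3 - d) % 3, (3 - e) % 3, (3 - f) % 3, (3 - g) % 3, 0] := by
  unfold M0 ad
  simp only [ofD, Nat.shiftLeft_eq]
  generalize (3 - u) % 3 = u'
  generalize (3 - v) % 3 = v'
  generalize (3 - w) % 3 = w'
  generalize (3 - a) % 3 = a'
  generalize (3 - b) % 3 = b'
  generalize (3 - c) % 3 = c'
  generalize (3 - d) % 3 = d'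
  generalize (3 - e) % 3 = e'
  generalize (3 - f) % 3 = f'
  generalize (3 - g) % 3 = g'
  norm_num
  ring

theorem all3_iff (p : ℕ → Bool) : all3 p = true ↔ ∀ a < 3, p a = true := by
  unfold all3
  rw [Bool.and_eq_true, Bool.and_eq_true]
  constructor
  · rintro ⟨h0, h1, h2⟩ a ha
    interval_cases a
    · exact h0
    · exact h1
    · exact h2
  · intro h
    exact ⟨h 0 (by norm_num), h 1 (by norm_num), h 2 (by norm_num)⟩

end FDF
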