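import Mathlib
/-! FDF-CExp. PLAN: `exp_perm`: reindex by `v ↦ v ∘ σ` (`Equiv.arrowCongr`, `Fintype.sum_equiv`), and `∏ i, w (v (σ i)) = ∏ i, w (v i)`
(`Equiv.prod_comp`). `sum_fin5`: equivalence `V × V × V × V × V ≃ (Fin 5 → V)`, `(a,b,c,d,e) ↦ ![a,b,c,d,e]` (right inverse:
`funext i; fin_cases i <;> rfl`), `Fintype.sum_equiv`, `Fintype.sum_prod_type`. -/
namespace FDF
open scoped BigOperators

theorem exp_perm {V : Type} [Fintype V] (w : V → ℝ) (F : (Fin 5 → V) → ℝ) (σ : Equiv.Perm (Fin 5)) :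
    ∑ v : Fin 5 → V, (∏ i, w (v i)) * F (v ∘ σ) = ∑ v : Fin 5 → V, (∏ i, w (v i)) * F v := by
  classical
  let e : (Fin 5 → V) ≃ (Fin 5 → V) := Equiv.arrowCongr σ.symm (Equiv.refl V)
  refine Fintype.sum_equiv e _ _ fun v => ?_
  have h1 : e v = v ∘ σ := by
    funext i
    simp [e, Equiv.arrowCongr]
  rw [h1]
  congr 1
  exact (Equiv.prod_comp σ (fun i => w (v i))).symm

theorem sum_fin5 {V : Type} [Fintype V] (F : V → V → V → V → V → ℝ) :
    ∑ v : Fin 5 → V, F (v 0) (v 1) (v 2) (v 3) (v 4) = ∑ a, ∑ b, ∑ c, ∑ d, ∑ e, F a b c d e := by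
  classical
  let e : (Fin 5 → V) ≃ V × V × V × V × V :=
    { toFun := fun v => (v 0, v 1, v 2, v 3, v 4)
      invFun := fun x => ![x.1, x.2.1, x.2.2.1, x.2.2.2.1, x.2.2.2.2]
      left_inv := by
        intro v
        funext i
        fin_cases i <;> rfl
      right_inv := by
        intro x
        rfl }
  rw [Fintype.sum_equiv e (fun v : Fin 5 → V => F (v 0) (v 1) (v 2) (v 3) (v 4))
    (fun x : V × V × V × V × V => F x.1 x.2.1 x.2.2.1 x.2.2.2.1 x.2.2.2.2) (fun v => rfl)]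
  simp only [Fintype.sum_prod_type]

end FDF
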