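import Mathlib
import Pool.Agent.FDF.Base
/-! FDF-CPerm. PLAN: `perm_sum`: the multiset `univ.val.map (fun σ => (σ 0, σ 1, σ 2, σ 3, σ 4))` (values in ℕ) equals `↑perms5`
(`decide +kernel` for the 120 elements), then `Finset.sum` = Multiset.sum of the map. (Only kernel `decide +kernel`, no native_decide.)
`sumP_eq`: induction on the list. `perms5_lt`: `decide`. -/
namespace FDF

theorem sumP_eq (f : ℕ → ℕ → ℕ → ℕ → ℕ → ℕ) (l : List (ℕ × ℕ × ℕ × ℕ × ℕ)) :
    sumP f l = (l.map (fun p => f p.1 p.2.1 p.2.2.1 p.2.2.2.1 p.2.2.2.2)).sum := by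
  induction l with
  | nil => rfl
  | cons p l ih =>
    obtain ⟨a, b, c, x, y⟩ := p
    simp [sumP, ih]

theorem perms5_lt : ∀ p ∈ perms5, p.1 < 5 ∧ p.2.1 < 5 ∧ p.2.2.1 < 5 ∧ p.2.2.2.1 < 5 ∧ p.2.2.2.2 < 5 := by
  decide +kernel

private theorem perms5_nodup : perms5.Nodup := by
  decide +kernel

private def tup (σ : Equiv.Perm (Fin 5)) : ℕ × ℕ × ℕ × ℕ × ℕ :=
  ((σ 0 : ℕ), (σ 1 : ℕ), (σ 2 : ℕ), (σ 3 : ℕ), (σ 4 : ℕ))

private theorem tup_mem : ∀ σ : Equiv.Perm (Fin 5), tup σ ∈ perms5 := by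
  decide +kernel

private theorem tup_inj : Function.Injective tup := by
  intro σ τ h
  simp only [tup, Prod.mk.injEq, Fin.val_inj] at h
  obtain ⟨h0, h1, h2, h3, h4⟩ := h
  ext i
  fin_cases i
  · exact congrArg Fin.val h0
  · exact congrArg Fin.val h1
  · exact congrArg Fin.val h2
  · exact congrArg Fin.val h3
  · exact congrArg Fin.val h4

private theorem image_tup : (Finset.univ : Finset (Equiv.Perm (Fin 5))).image tup = perms5.toFinset := by
  apply Finset.eq_of_subset_of_card_le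
  · intro x hx
    obtain ⟨σ, -, rfl⟩ := Finset.mem_image.mp hx
    exact List.mem_toFinset.mpr (tup_mem σ)
  · rw [List.toFinset_card_of_nodup perms5_nodup, Finset.card_image_of_injective _ tup_inj,
      Finset.card_univ, Fintype.card_perm, Fintype.card_fin]
    decide

theorem perm_sum (F : ℕ → ℕ → ℕ → ℕ → ℕ → ℕ) :
    ∑ σ : Equiv.Perm (Fin 5), F (σ 0) (σ 1) (σ 2) (σ 3) (σ 4) =
      (perms5.map (fun p => F p.1 p.2.1 p.2.2.1 p.2.2.2.1 p.2.2.2.2)).sum := by
  rw [← List.sum_toFinset _ perms5_nodup, ← image_tup, Finset.sum_image (fun a _ b _ h => tup_inj h)]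
  rfl

end FDF
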