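import Pool.Agent.FDF.SDP
import Pool.Agent.FDF.Base
/-! FDF-Code. The relation codes of an orgraph and the decoding of the tables `hitN`, `allN`, `prtN`.
PLAN: every statement is a finite case analysis: `rcases G.tri a x with h | h | h` (Rel.lean) gives `mm`, `aa`, `adj`, `A` of a pair in each
of the three cases, and `rel` has the value 0, 1, 2. For `hit_code`: 27 cases, `simp` with the facts; the table value by `decide`/`rfl`
(`hitN (9 * i + (3 * j + k))` for numerals). For `bad_code`: first `prt_code` (27 cases), then `badN` by the values of `prt`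
(`prt ∈ {0,1,2,3}`) and `rel x y ∈ {0,1,2}`: generalise. -/
namespace FDF
open Finset
open scoped BigOperators Classical

namespace OG
variable {V : Type} (G : OG V)

/-- relation code -/
noncomputable def rel (u v : V) : ℕ := if G.A u v then 1 else if G.A v u then 2 else 0

private lemma rtri (u v : V) :
    (G.rel u v = 0 ∧ ¬ G.A u v ∧ ¬ G.A v u) ∨ (G.rel u v = 1 ∧ G.A u v ∧ ¬ G.A v u) ∨
      (G.rel u v = 2 ∧ ¬ G.A u v ∧ G.A v u) := by
  unfold rel
  by_cases h1 : G.A u v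
  · have h2 := G.asymm u v h1
    simp [h1, h2]
  · by_cases h2 : G.A v u
    · simp [h1, h2]
    · simp [h1, h2]

lemma rel_lt (u v : V) : G.rel u v < 3 := by
  rcases G.rtri u v with ⟨h, -⟩ | ⟨h, -⟩ | ⟨h, -⟩ <;> omega

lemma rel_self (u : V) : G.rel u u = 0 := by
  have := G.A_irrefl u
  simp [rel, this]

lemma rel_rev (u v : V) : G.rel v u = (3 - G.rel u v) % 3 := by
  rcases G.rtri u v with ⟨h, h1, h2⟩ | ⟨h, h1, h2⟩ | ⟨h, h1, h2⟩ <;> rw [h] <;>
    simp [rel, h1, h2]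

lemma rel_eq_zero (u v : V) : G.rel u v = 0 ↔ ¬ G.adj u v := by
  rcases G.rtri u v with ⟨h, h1, h2⟩ | ⟨h, h1, h2⟩ | ⟨h, h1, h2⟩ <;> rw [h] <;>
    simp [adj, h1, h2]

lemma rel_eq_one (u v : V) : G.rel u v = 1 ↔ G.A u v := by
  rcases G.rtri u v with ⟨h, h1, h2⟩ | ⟨h, h1, h2⟩ | ⟨h, h1, h2⟩ <;> rw [h] <;>
    simp [h1]

lemma hit_code' (a x y : V) :
    hitN (9 * G.rel a x + (3 * G.rel a y + G.rel x y)) = if G.hit a x y then 1 else 0 := by
  rcases G.rtri a x with ⟨e1, p1, q1⟩ | ⟨e1, p1, q1⟩ | ⟨e1, p1, q1⟩ <;>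
  rcases G.rtri a y with ⟨e2, p2, q2⟩ | ⟨e2, p2, q2⟩ | ⟨e2, p2, q2⟩ <;>
  rcases G.rtri x y with ⟨e3, p3, q3⟩ | ⟨e3, p3, q3⟩ | ⟨e3, p3, q3⟩ <;>
  rw [e1, e2, e3] <;>
  simp only [hit, adj, p1, q1, p2, q2, p3, q3, not_true_eq_false, not_false_eq_true, and_true,
    and_false, or_true, or_false, if_true, if_false] <;> rfl

lemma hit_code (a x y : V) :
    (hitN (9 * G.rel a x + (3 * G.rel a y + G.rel x y)) : ℝ) = G.hh a x y := by
  rw [hit_code', hh]
  split_ifs <;> simp

lemma all_code' (a b c : V) :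
    (allN (9 * G.rel a b + (3 * G.rel a c + G.rel b c)) : ℝ) = G.t3 a b c := by
  have h0 : ∀ u v, G.rel u v = 0 → G.mm u v = 1 := by
    intro u v h
    have := (G.rel_eq_zero u v).1 h
    simp [mm, this]
  have h1 : ∀ u v, G.rel u v ≠ 0 → G.mm u v = 0 := by
    intro u v h
    have := (G.rel_eq_zero u v).not.1 h
    rw [not_not] at this
    simp [mm, this]
  rcases G.rtri a b with ⟨e1, -⟩ | ⟨e1, -⟩ | ⟨e1, -⟩ <;>
  rcases G.rtri a c with ⟨e2, -⟩ | ⟨e2, -⟩ | ⟨e2, -⟩ <;>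
  rcases G.rtri b c with ⟨e3, -⟩ | ⟨e3, -⟩ | ⟨e3, -⟩ <;>
  (first
    | have m1 := h0 _ _ e1
    | have m1 := h1 a b (by rw [e1]; decide)) <;>
  (first
    | have m2 := h0 _ _ e2
    | have m2 := h1 a c (by rw [e2]; decide)) <;>
  (first
    | have m3 := h0 _ _ e3
    | have m3 := h1 b c (by rw [e3]; decide)) <;>
  rw [e1, e2, e3, t3, m1, m2, m3] <;>
  (first
    | (rw [show allN _ = 0 from rfl]; norm_num)
    | (rw [show allN _ = 1 from rfl]; norm_num))

lemma all_code (a b c : V) :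
    allN (9 * G.rel a b + (3 * G.rel a c + G.rel b c)) = if G.t3 a b c = 0 then 0 else 1 := by
  have h := G.all_code' a b c
  have h2 : G.t3 a b c = 0 ∨ G.t3 a b c = 1 := by
    unfold t3
    rcases G.mm_zero_or_one a b with h1 | h1 <;> rcases G.mm_zero_or_one a c with h2 | h2 <;>
    rcases G.mm_zero_or_one b c with h3 | h3 <;> rw [h1, h2, h3] <;> norm_num
  rcases h2 with h2 | h2
  · rw [if_pos h2]
    rw [h2] at h
    exact_mod_cast h
  · rw [if_neg (by rw [h2]; norm_num)]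
    rw [h2] at h
    exact_mod_cast h

lemma prt_code (a b c x : V) :
    prtN (9 * G.rel a x + (3 * G.rel b x + G.rel c x)) = G.prt a b c x := by
  rcases G.rtri a x with ⟨e1, p1, q1⟩ | ⟨e1, p1, q1⟩ | ⟨e1, p1, q1⟩ <;>
  rcases G.rtri b x with ⟨e2, p2, q2⟩ | ⟨e2, p2, q2⟩ | ⟨e2, p2, q2⟩ <;>
  rcases G.rtri c x with ⟨e3, p3, q3⟩ | ⟨e3, p3, q3⟩ | ⟨e3, p3, q3⟩ <;>
  rw [e1, e2, e3] <;>
  simp only [prt, adj, p1, q1, p2, q2, p3, q3, not_true_eq_false, not_false_eq_true, and_true,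
    and_false, or_true, or_false, if_true, if_false] <;> rfl

lemma bad_code (a b c x y : V) :
    (badN (9 * G.rel a x + (3 * G.rel b x + G.rel c x)) (9 * G.rel a y + (3 * G.rel b y + G.rel c y)) (G.rel x y) : ℝ) =
      G.bad a b c x y := by
  unfold badN bad badP
  simp only [fz_eq]
  rw [prt_code, prt_code]
  have hr := G.rel_eq_zero x y
  generalize G.prt a b c x = px
  generalize G.prt a b c y = py
  generalize G.rel x y = r at hr ⊢
  generalize G.adj x y = P at hr ⊢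
  have hb : ∀ m n : ℕ, Nat.beq m n = decide (m = n) := by
    intro m n
    rw [Bool.eq_iff_iff, Nat.beq_eq, decide_eq_true_iff]
  simp only [hb]
  by_cases h1 : px = 3
  · simp [h1]
  · by_cases h2 : py = 3
    · simp [h2]
    · by_cases h3 : px = py
      · by_cases h4 : r = 0
        · have h5 : ¬ P := hr.1 h4
          subst h3; simp [h1, h4, h5]
        · have h5 : P := not_not.1 (mt hr.2 h4)
          subst h3; simp [h1, h4, h5]
      · by_cases h4 : r = 0
        · have h5 : ¬ P := hr.1 h4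
          simp [h1, h2, h3, h4, h5]
        · have h5 : P := not_not.1 (mt hr.2 h4)
          simp [h1, h2, h3, h4, h5]

end OG
end FDF
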