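import Mathlib
/-! FDF: collapse of weighted sums (helper3) -/
namespace FDF
open scoped BigOperators

theorem col3 {V : Type} [Fintype V] (w : V → ℝ) (hs : ∑ v, w v = 1) (F : V → V → V → ℝ) :
    ∑ a, ∑ b, ∑ c, ∑ x, ∑ y, w a * w b * w c * w x * w y * F a b c = ∑ a, ∑ b, ∑ c, w a * w b * w c * F a b c := by
  refine Finset.sum_congr rfl fun a _ => Finset.sum_congr rfl fun b _ => Finset.sum_congr rfl fun c _ => ?_
  have h1 : ∀ x, ∑ y, w a * w b * w c * w x * w y * F a b c = (w a * w b * w c * F a b c) * w x := by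
    intro x
    have h2 : ∀ y, w a * w b * w c * w x * w y * F a b c = (w a * w b * w c * F a b c * w x) * w y := by
      intro y; ring
    rw [Finset.sum_congr rfl fun y _ => h2 y, ← Finset.mul_sum, hs, mul_one]
  rw [Finset.sum_congr rfl fun x _ => h1 x, ← Finset.mul_sum, hs, mul_one]

theorem col2 {V : Type} [Fintype V] (w : V → ℝ) (hs : ∑ v, w v = 1) (F : V → V → ℝ) :
    ∑ a, ∑ b, ∑ c, w a * w b * w c * F a b = ∑ a, ∑ b, w a * w b * F a b := by
  refine Finset.sum_congr rfl fun a _ => Finset.sum_congr rfl fun b _ => ?_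
  have h2 : ∀ c, w a * w b * w c * F a b = (w a * w b * F a b) * w c := by
    intro c; ring
  rw [Finset.sum_congr rfl fun c _ => h2 c, ← Finset.mul_sum, hs, mul_one]

theorem col0 {V : Type} [Fintype V] (w : V → ℝ) (hs : ∑ v, w v = 1) :
    ∑ a, ∑ b, ∑ c, w a * w b * w c = 1 := by
  have h1 : ∀ a b, ∑ c, w a * w b * w c = w a * w b := by
    intro a b; rw [← Finset.mul_sum, hs, mul_one]
  have h2 : ∀ a, ∑ b, w a * w b = w a := by
    intro a; rw [← Finset.mul_sum, hs, mul_one]
  simp only [h1, h2, hs]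

end FDF
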