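import Mathlib
/-! FDF-Cov. The covering inequality. PLAN. λ_A(t) = ∑_{Fa i ≤ t} wa i. Layer cake: for each atom `max (m - F) 0 ^2 = ∫_0^m 2 (m-t) [F ≤ t] dt`
(F ≥ 0), so `∑ wa (m-Fa)_+² = ∫_0^m 2(m-t) λ_A(t) dt ≥ ∫_θ^m 2(m-t) λ_A(t) dt`. For t ∈ [θ,m]: `λ_A(t) ≥ length {s ∈ [θ,m] : s - θ ≤ λ_A(t)}`
(λ_A ≥ 0; the set is [θ, min(m, θ+λ_A)]). So the left side is ≥ `∫∫_{[θ,m]²} (2(m-t) [s-θ ≤ λ_A(t)] + 2(m-s) [t-θ ≤ λ_B(s)]) ≥
∫∫ 2 min(m-t, m-s) = (2/3)(m-θ)³`. Use iterated interval integrals (all functions are bounded and measurable: finite sums of indicators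
of half-lines) or volume on ℝ × ℝ. -/
namespace FDF
open Finset
open scoped BigOperators Classical

open MeasureTheory in
/-- the step function -/
private noncomputable def stp {α : Type} (s : Finset α) (wa Fa : α → ℝ) (t : ℝ) : ℝ := ∑ i ∈ s with Fa i ≤ t, wa i

private lemma stp_eq {α : Type} (s : Finset α) (wa Fa : α → ℝ) (t : ℝ) :
    stp s wa Fa t = ∑ i ∈ s, if Fa i ≤ t then wa i else 0 := by
  unfold stp
  rw [Finset.sum_filter]

private lemma stp_nonneg {α : Type} (s : Finset α) (wa Fa : α → ℝ) (hwa : ∀ i ∈ s, 0 ≤ wa i) (t : ℝ) :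
    0 ≤ stp s wa Fa t :=
  Finset.sum_nonneg fun i hi => hwa i (Finset.mem_filter.1 hi).1

private lemma stp_meas {α : Type} (s : Finset α) (wa Fa : α → ℝ) : Measurable (stp s wa Fa) := by
  have : stp s wa Fa = fun t => ∑ i ∈ s, if Fa i ≤ t then wa i else 0 := by
    funext t; exact stp_eq s wa Fa t
  rw [this]
  refine Finset.measurable_fun_sum _ fun i _ => ?_
  exact Measurable.ite measurableSet_Ici measurable_const measurable_const

open MeasureTheory in
private lemma inner_le (θ m c a : ℝ) (hc : 0 ≤ c) (ha : 0 ≤ a) :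
    ∫ s in Set.Ioc θ m, (if s - θ ≤ a then c else 0) ≤ c * a := by
  have h1 : ∀ s : ℝ, (if s - θ ≤ a then c else 0) = (Set.Iic (θ + a)).indicator (fun _ => c) s := by
    intro s
    by_cases h : s - θ ≤ a
    · rw [if_pos h, Set.indicator_of_mem]
      simp only [Set.mem_Iic]; linarith
    · rw [if_neg h, Set.indicator_of_notMem]
      simp only [Set.mem_Iic]; intro h'; apply h; linarith
  simp_rw [h1]
  rw [setIntegral_indicator measurableSet_Iic, setIntegral_const, smul_eq_mul, mul_comm]
  refine mul_le_mul_of_nonneg_left ?_ hc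
  have h2 : Set.Ioc θ m ∩ Set.Iic (θ + a) ⊆ Set.Ioc θ (θ + a) := by
    intro x hx
    exact ⟨hx.1.1, hx.2⟩
  have h3 : volume.real (Set.Ioc θ m ∩ Set.Iic (θ + a)) ≤ volume.real (Set.Ioc θ (θ + a)) :=
    measureReal_mono h2 (by simp)
  refine h3.trans ?_
  simp [Real.volume_real_Ioc, ha]

private lemma quad_deriv (m x : ℝ) : HasDerivAt (fun t : ℝ => - (m - t) ^ 2) (2 * (m - x)) x := by
  have hb : HasDerivAt (fun t : ℝ => m - t) (-1) x := (hasDerivAt_id x).const_sub m
  have h6 : HasDerivAt (fun t : ℝ => - (m - t) ^ 2) _ x := (hb.pow 2).neg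
  refine h6.congr_deriv ?_
  push_cast
  ring

open MeasureTheory in
private lemma atom_le (θ m F : ℝ) :
    ∫ t in Set.Ioc θ m, (if F ≤ t then 2 * (m - t) else 0) ≤ (max (m - F) 0) ^ 2 := by
  have h1 : ∀ t : ℝ, (if F ≤ t then 2 * (m - t) else 0) = (Set.Ici F).indicator (fun t => 2 * (m - t)) t := by
    intro t
    by_cases h : F ≤ t
    · rw [if_pos h, Set.indicator_of_mem (by simpa using h)]
    · rw [if_neg h, Set.indicator_of_notMem (by simpa using h)]
  simp_rw [h1]
  rw [setIntegral_indicator measurableSet_Ici]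
  rcases le_or_gt F m with hF | hF
  · have h2 : Set.Ioc θ m ∩ Set.Ici F ⊆ Set.Icc F m := by
      intro x hx
      exact ⟨hx.2, hx.1.2⟩
    have hint : IntegrableOn (fun t : ℝ => 2 * (m - t)) (Set.Icc F m) :=
      (Continuous.continuousOn (by fun_prop)).integrableOn_Icc
    have h3 : ∫ t in Set.Ioc θ m ∩ Set.Ici F, 2 * (m - t) ≤ ∫ t in Set.Icc F m, 2 * (m - t) := by
      refine setIntegral_mono_set hint ?_ h2.eventuallyLE
      filter_upwards [ae_restrict_mem measurableSet_Icc] with t ht
      have := ht.2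
      simp only [Pi.zero_apply]
      linarith
    refine h3.trans (le_of_eq ?_)
    rw [integral_Icc_eq_integral_Ioc, ← intervalIntegral.integral_of_le hF, max_eq_left (by linarith)]
    have h4 : ∫ t in F..m, 2 * (m - t) = (m - F) ^ 2 := by
      have : ∀ x ∈ Set.uIcc F m, HasDerivAt (fun t : ℝ => - (m - t) ^ 2) (2 * (m - x)) x := by
        intro x _
        exact quad_deriv m x
      rw [intervalIntegral.integral_eq_sub_of_hasDerivAt this]
      · ring
      · exact (Continuous.intervalIntegrable (by fun_prop) _ _)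
    exact h4
  · have h2 : Set.Ioc θ m ∩ Set.Ici F = ∅ := by
      ext x
      simp only [Set.mem_inter_iff, Set.mem_Ioc, Set.mem_Ici, Set.mem_empty_iff_false, iff_false, not_and, not_le, and_imp]
      intro _ h
      linarith
    rw [h2]
    simp

open MeasureTheory in
private lemma outer_le {α : Type} (s : Finset α) (wa Fa : α → ℝ) (hwa : ∀ i ∈ s, 0 ≤ wa i) (θ m : ℝ) :
    ∫ t in Set.Ioc θ m, 2 * (m - t) * stp s wa Fa t ≤ ∑ i ∈ s, wa i * (max (m - Fa i) 0) ^ 2 := by
  have h1 : ∀ t : ℝ, 2 * (m - t) * stp s wa Fa t = ∑ i ∈ s, wa i * (if Fa i ≤ t then 2 * (m - t) else 0) := by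
    intro t
    rw [stp_eq, Finset.mul_sum]
    refine Finset.sum_congr rfl fun i _ => ?_
    split_ifs <;> ring
  simp_rw [h1]
  rw [integral_finsetSum]
  · refine Finset.sum_le_sum fun i hi => ?_
    rw [integral_const_mul]
    exact mul_le_mul_of_nonneg_left (atom_le θ m (Fa i)) (hwa i hi)
  · intro i _
    refine Integrable.const_mul ?_ _
    refine Measure.integrableOn_of_bounded (M := 2 * (m - θ)) (by simp) ?_ ?_
    · exact (Measurable.ite measurableSet_Ici (by fun_prop) measurable_const).aestronglyMeasurable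
    · filter_upwards [ae_restrict_mem measurableSet_Ioc] with t ht
      have h1 := ht.1
      have h2 := ht.2
      split_ifs
      · rw [Real.norm_eq_abs, abs_of_nonneg (by linarith)]; linarith
      · simp; linarith

open MeasureTheory in
private lemma integrable_P (A : ℝ → ℝ) (hA : Measurable A) (θ m : ℝ) :
    Integrable (fun p : ℝ × ℝ => if p.2 - θ ≤ A p.1 then 2 * (m - p.1) else 0)
      ((volume.restrict (Set.Ioc θ m)).prod (volume.restrict (Set.Ioc θ m))) := by
  refine Integrable.of_bound (C := 2 * (m - θ)) ?_ ?_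
  · refine (Measurable.ite ?_ (by fun_prop) measurable_const).aestronglyMeasurable
    exact measurableSet_le (by fun_prop) (hA.comp measurable_fst)
  · rw [Measure.prod_restrict]
    filter_upwards [ae_restrict_mem (measurableSet_Ioc.prod measurableSet_Ioc)] with p hp
    have h1 := hp.1.1
    have h2 := hp.1.2
    split_ifs
    · rw [Real.norm_eq_abs, abs_of_nonneg (by linarith)]; linarith
    · simp; linarith

open MeasureTheory in
private lemma integrable_Q (B : ℝ → ℝ) (hB : Measurable B) (θ m : ℝ) :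
    Integrable (fun p : ℝ × ℝ => if p.1 - θ ≤ B p.2 then 2 * (m - p.2) else 0)
      ((volume.restrict (Set.Ioc θ m)).prod (volume.restrict (Set.Ioc θ m))) := by
  refine Integrable.of_bound (C := 2 * (m - θ)) ?_ ?_
  · refine (Measurable.ite ?_ (by fun_prop) measurable_const).aestronglyMeasurable
    exact measurableSet_le (by fun_prop) (hB.comp measurable_snd)
  · rw [Measure.prod_restrict]
    filter_upwards [ae_restrict_mem (measurableSet_Ioc.prod measurableSet_Ioc)] with p hp
    have h1 := hp.2.1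
    have h2 := hp.2.2
    split_ifs
    · rw [Real.norm_eq_abs, abs_of_nonneg (by linarith)]; linarith
    · simp; linarith

open MeasureTheory in
private lemma integral_min (θ m : ℝ) (hm : θ < m) :
    ∫ t in Set.Ioc θ m, ∫ s in Set.Ioc θ m, 2 * min (m - t) (m - s) = 2 / 3 * (m - θ) ^ 3 := by
  have h1 : ∀ t ∈ Set.Ioc θ m, ∫ s in Set.Ioc θ m, 2 * min (m - t) (m - s) = 2 * (t - θ) * (m - t) + (m - t) ^ 2 := by
    intro t ht
    rw [← intervalIntegral.integral_of_le hm.le]
    have hi : ∀ a b : ℝ, IntervalIntegrable (fun s : ℝ => 2 * min (m - t) (m - s)) volume a b := by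
      intro a b
      exact Continuous.intervalIntegrable (by fun_prop) _ _
    rw [← intervalIntegral.integral_add_adjacent_intervals (hi θ t) (hi t m)]
    have h2 : ∫ s in θ..t, 2 * min (m - t) (m - s) = ∫ s in θ..t, 2 * (m - t) := by
      refine intervalIntegral.integral_congr fun s hs => ?_
      rw [Set.uIcc_of_le ht.1.le] at hs
      have := hs.2
      change 2 * min (m - t) (m - s) = 2 * (m - t)
      rw [min_eq_left (by linarith)]
    have h3 : ∫ s in t..m, 2 * min (m - t) (m - s) = ∫ s in t..m, 2 * (m - s) := by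
      refine intervalIntegral.integral_congr fun s hs => ?_
      rw [Set.uIcc_of_le ht.2] at hs
      have := hs.1
      change 2 * min (m - t) (m - s) = 2 * (m - s)
      rw [min_eq_right (by linarith)]
    have h4 : ∫ s in t..m, 2 * (m - s) = (m - t) ^ 2 := by
      have : ∀ x ∈ Set.uIcc t m, HasDerivAt (fun t : ℝ => - (m - t) ^ 2) (2 * (m - x)) x := by
        intro x _
        exact quad_deriv m x
      rw [intervalIntegral.integral_eq_sub_of_hasDerivAt this]
      · ring
      · exact (Continuous.intervalIntegrable (by fun_prop) _ _)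
    rw [h2, h3, h4, intervalIntegral.integral_const, smul_eq_mul]
    ring
  rw [setIntegral_congr_fun measurableSet_Ioc h1, ← intervalIntegral.integral_of_le hm.le]
  have h5 : ∀ x ∈ Set.uIcc θ m, HasDerivAt (fun t : ℝ => m * (t - θ) ^ 2 - 2 / 3 * (t - θ) ^ 3 - θ * (t - θ) ^ 2 - (m - t) ^ 3 / 3)
      (2 * (x - θ) * (m - x) + (m - x) ^ 2) x := by
    intro x _
    have ha : HasDerivAt (fun t : ℝ => t - θ) 1 x := (hasDerivAt_id x).sub_const θ
    have hb : HasDerivAt (fun t : ℝ => m - t) (-1) x := (hasDerivAt_id x).const_sub m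
    have h6 : HasDerivAt (fun t : ℝ => m * (t - θ) ^ 2 - 2 / 3 * (t - θ) ^ 3 - θ * (t - θ) ^ 2 - (m - t) ^ 3 / 3) _ x :=
      ((((ha.pow 2).const_mul m).sub ((ha.pow 3).const_mul (2/3))).sub ((ha.pow 2).const_mul θ)).sub ((hb.pow 3).div_const 3)
    refine h6.congr_deriv ?_
    push_cast
    ring
  rw [intervalIntegral.integral_eq_sub_of_hasDerivAt h5]
  · ring
  · exact (Continuous.intervalIntegrable (by fun_prop) _ _)

open MeasureTheory in
theorem cover {α β : Type} (s : Finset α) (t : Finset β) (wa Fa : α → ℝ) (wb Fb : β → ℝ)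
    (hwa : ∀ i ∈ s, 0 ≤ wa i) (hFa : ∀ i ∈ s, 0 ≤ Fa i) (hwb : ∀ i ∈ t, 0 ≤ wb i) (hFb : ∀ i ∈ t, 0 ≤ Fb i)
    (m θ : ℝ) (hθ : 0 < θ) (hm : θ < m)
    (h : ∀ x y : ℝ, θ ≤ x → x ≤ m → θ ≤ y → y ≤ m →
      x - θ ≤ (∑ i ∈ s with Fa i ≤ y, wa i) ∨ y - θ ≤ (∑ i ∈ t with Fb i ≤ x, wb i)) :
    2 / 3 * (m - θ) ^ 3 ≤ ∑ i ∈ s, wa i * (max (m - Fa i) 0) ^ 2 + ∑ i ∈ t, wb i * (max (m - Fb i) 0) ^ 2 := by
  set A := stp s wa Fa with hAdef
  set B := stp t wb Fb with hBdef
  have hA : Measurable A := stp_meas s wa Fa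
  have hB : Measurable B := stp_meas t wb Fb
  have hA0 : ∀ y, 0 ≤ A y := stp_nonneg s wa Fa hwa
  have hB0 : ∀ y, 0 ≤ B y := stp_nonneg t wb Fb hwb
  let μ : Measure ℝ := volume.restrict (Set.Ioc θ m)
  have iP := integrable_P A hA θ m
  have iQ := integrable_Q B hB θ m
  have e1 : ∫ y, ∫ x, (if x - θ ≤ A y then 2 * (m - y) else 0) ∂μ ∂μ ≤ ∑ i ∈ s, wa i * (max (m - Fa i) 0) ^ 2 := by
    refine le_trans ?_ (outer_le s wa Fa hwa θ m)
    refine setIntegral_mono_on iP.integral_prod_left ?_ measurableSet_Ioc ?_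
    · refine Measure.integrableOn_of_bounded (M := 2 * (m - θ) * ∑ i ∈ s, wa i) (by simp) ?_ ?_
      · exact (Measurable.mul (by fun_prop) hA).aestronglyMeasurable
      · filter_upwards [ae_restrict_mem measurableSet_Ioc] with y hy
        have h1 := hy.1
        have h2 := hy.2
        have h3 : A y ≤ ∑ i ∈ s, wa i :=
          Finset.sum_le_sum_of_subset_of_nonneg (Finset.filter_subset _ _) fun i hi _ => hwa i hi
        rw [Real.norm_eq_abs, abs_of_nonneg (mul_nonneg (by linarith) (hA0 y))]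
        exact mul_le_mul (by linarith) h3 (hA0 y) (by linarith)
    · intro y hy
      exact inner_le θ m (2 * (m - y)) (A y) (by linarith [hy.2]) (hA0 y)
  have e2 : ∫ y, ∫ x, (if y - θ ≤ B x then 2 * (m - x) else 0) ∂μ ∂μ ≤ ∑ i ∈ t, wb i * (max (m - Fb i) 0) ^ 2 := by
    have hsw : ∫ y, ∫ x, (if y - θ ≤ B x then 2 * (m - x) else 0) ∂μ ∂μ =
        ∫ x, ∫ y, (if y - θ ≤ B x then 2 * (m - x) else 0) ∂μ ∂μ :=
      integral_integral_swap (f := fun y x => if y - θ ≤ B x then 2 * (m - x) else 0) iQ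
    rw [hsw]
    refine le_trans ?_ (outer_le t wb Fb hwb θ m)
    refine setIntegral_mono_on iQ.integral_prod_right ?_ measurableSet_Ioc ?_
    · refine Measure.integrableOn_of_bounded (M := 2 * (m - θ) * ∑ i ∈ t, wb i) (by simp) ?_ ?_
      · exact (Measurable.mul (by fun_prop) hB).aestronglyMeasurable
      · filter_upwards [ae_restrict_mem measurableSet_Ioc] with y hy
        have h1 := hy.1
        have h2 := hy.2
        have h3 : B y ≤ ∑ i ∈ t, wb i :=
          Finset.sum_le_sum_of_subset_of_nonneg (Finset.filter_subset _ _) fun i hi _ => hwb i hi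
        rw [Real.norm_eq_abs, abs_of_nonneg (mul_nonneg (by linarith) (hB0 y))]
        exact mul_le_mul (by linarith) h3 (hB0 y) (by linarith)
    · intro y hy
      exact inner_le θ m (2 * (m - y)) (B y) (by linarith [hy.2]) (hB0 y)
  have e3 : 2 / 3 * (m - θ) ^ 3 ≤ ∫ y, ∫ x, ((if x - θ ≤ A y then 2 * (m - y) else 0) + (if y - θ ≤ B x then 2 * (m - x) else 0)) ∂μ ∂μ := by
    rw [← integral_min θ m hm]
    have iM : Integrable (fun p : ℝ × ℝ => 2 * min (m - p.1) (m - p.2)) (μ.prod μ) := by
      refine Integrable.of_bound (C := 2 * (m - θ)) (Continuous.aestronglyMeasurable (by fun_prop)) ?_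
      rw [Measure.prod_restrict]
      filter_upwards [ae_restrict_mem (measurableSet_Ioc.prod measurableSet_Ioc)] with p hp
      have h1 := hp.1.1
      have h2 := hp.1.2
      have h3 := hp.2.1
      have h4 := hp.2.2
      have h5 : min (m - p.1) (m - p.2) ≤ m - p.1 := min_le_left _ _
      have h6 : 0 ≤ min (m - p.1) (m - p.2) := le_min (by linarith) (by linarith)
      rw [Real.norm_eq_abs, abs_of_nonneg (by linarith)]
      linarith
    have iPQ := iP.add iQ
    refine setIntegral_mono_on iM.integral_prod_left iPQ.integral_prod_left measurableSet_Ioc ?_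
    intro y hy
    have c1 : Integrable (fun x : ℝ => 2 * min (m - y) (m - x)) μ := by
      have : Continuous (fun x : ℝ => 2 * min (m - y) (m - x)) := by fun_prop
      exact this.integrableOn_Ioc
    have c2 : Integrable (fun x : ℝ => (if x - θ ≤ A y then 2 * (m - y) else 0) + (if y - θ ≤ B x then 2 * (m - x) else 0)) μ := by
      refine Measure.integrableOn_of_bounded (M := 2 * (m - θ) + 2 * (m - θ)) (by simp) ?_ ?_
      · refine (Measurable.add (Measurable.ite ?_ measurable_const measurable_const) (Measurable.ite ?_ (by fun_prop) measurable_const)).aestronglyMeasurable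
        · exact measurableSet_le (by fun_prop) measurable_const
        · exact measurableSet_le measurable_const hB
      · filter_upwards [ae_restrict_mem measurableSet_Ioc] with x hx
        have h1 := hx.1
        have h2 := hx.2
        have h3 := hy.1
        have h4 := hy.2
        refine (norm_add_le _ _).trans (add_le_add ?_ ?_)
        · split_ifs
          · rw [Real.norm_eq_abs, abs_of_nonneg (by linarith)]; linarith
          · simp; linarith
        · split_ifs
          · rw [Real.norm_eq_abs, abs_of_nonneg (by linarith)]; linarith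
          · simp; linarith
    refine setIntegral_mono_on c1 c2 measurableSet_Ioc ?_
    intro x hx
    have h1 := hx.1
    have h2 := hx.2
    have h3 := hy.1
    have h4 := hy.2
    rcases h x y h1.le h2 h3.le h4 with h' | h'
    · have h'' : x - θ ≤ A y := h'
      simp only [if_pos h'']
      have h5 : min (m - y) (m - x) ≤ m - y := min_le_left _ _
      split_ifs <;> linarith
    · have h'' : y - θ ≤ B x := h'
      simp only [if_pos h'']
      have h5 : min (m - y) (m - x) ≤ m - x := min_le_right _ _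
      split_ifs <;> linarith
  have e4 : ∫ y, ∫ x, ((if x - θ ≤ A y then 2 * (m - y) else 0) + (if y - θ ≤ B x then 2 * (m - x) else 0)) ∂μ ∂μ =
      ∫ y, ∫ x, (if x - θ ≤ A y then 2 * (m - y) else 0) ∂μ ∂μ + ∫ y, ∫ x, (if y - θ ≤ B x then 2 * (m - x) else 0) ∂μ ∂μ := by
    have q1 := integral_prod (μ := μ) (ν := μ) _ iP
    have q2 := integral_prod (μ := μ) (ν := μ) _ iQ
    have q3 := integral_prod (μ := μ) (ν := μ) _ (iP.add iQ)
    have q4 := integral_add (μ := μ.prod μ) iP iQ
    simp only [Pi.add_apply] at q1 q2 q3 q4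
    rw [← q1, ← q2, ← q4, q3]
  linarith

end FDF
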