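import Pool.Agent.FDF.Dich
import Pool.Agent.FDF.Area
import Pool.Agent.FDF.Cov
/-! FDF-Corner. PLAN. b1 := ∑_A w be + ∑_B w be ≥ 0. If m ≤ √(5 b1) the left side is 0. Otherwise for every θ with √(5 b1) < θ < m:
`area` (wa = w, xa = be) gives zA, zB; `dich` gives the hypothesis of `cover` (x, y ≤ m ≤ 1/3 ≤ |A|, |B|), so
`∑_A w (m - F)_+² + ∑_B w (m - F)_+² ≥ (2/3)(m-θ)³`. For a ∈ A ∪ B: `oo a ≤ F a + (1 - |A| - |B|) = F a + 1/3 - m`
(oo a = sum over A + sum over B + sum over the rest ≤ ... since aa ≤ 1), so `(m - F a)_+² ≤ (oo a - 1/3)²`; hence `E2 ≥ (2/3)(m-θ)³`.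
Let θ → √(5 b1) (or: suppose `3 E2 < 2 (m-√)^3` and choose θ by continuity; `le_of_forall_...`). -/
namespace FDF
open Finset
open scoped BigOperators Classical
namespace OG
variable {V : Type} [Fintype V] (G : OG V) (w : V → ℝ)

private lemma be_nonneg_aux (hw : ∀ v, 0 < w v) (P Q : Finset V) (v : V) : 0 ≤ G.be w P Q v := by
  unfold be
  refine add_nonneg (Finset.sum_nonneg fun u _ => mul_nonneg (hw u).le ?_)
    (Finset.sum_nonneg fun u _ => mul_nonneg (hw u).le (G.mm_nonneg v u))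
  have := G.mm_le_one v u
  linarith

private lemma FF_nonneg_aux (hw : ∀ v, 0 < w v) (P Q : Finset V) (v : V) : 0 ≤ G.FF w P Q v := by
  unfold FF
  exact add_nonneg (Finset.sum_nonneg fun u _ => mul_nonneg (hw u).le (G.aa_nonneg v u))
    (Finset.sum_nonneg fun u _ => mul_nonneg (hw u).le (G.aa_nonneg v u))

private lemma oo_le_aux (hw : ∀ v, 0 < w v) (hs : ∑ v, w v = 1) (A B : Finset V)
    (hAB : Disjoint A B) (m : ℝ)
    (hC : ∑ a ∈ A, w a + ∑ b ∈ B, w b = 2 / 3 + m) (v : V) :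
    G.oo w v ≤ G.FF w A B v + (1 / 3 - m) := by
  unfold oo FF
  have h1 : ∑ u, w u * G.aa v u = ∑ u ∈ A ∪ B, w u * G.aa v u + ∑ u ∈ (A ∪ B)ᶜ, w u * G.aa v u :=
    (Finset.sum_add_sum_compl (A ∪ B) _).symm
  have h2 : ∑ u, w u = ∑ u ∈ A ∪ B, w u + ∑ u ∈ (A ∪ B)ᶜ, w u :=
    (Finset.sum_add_sum_compl (A ∪ B) _).symm
  rw [Finset.sum_union hAB] at h1 h2
  have h3 : ∑ u ∈ (A ∪ B)ᶜ, w u * G.aa v u ≤ ∑ u ∈ (A ∪ B)ᶜ, w u := by
    refine Finset.sum_le_sum fun u _ => ?_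
    have := G.aa_le_one v u
    have := (hw u).le
    nlinarith
  linarith

private lemma step_aux (h4 : G.NoC4) (hw : ∀ v, 0 < w v) (hs : ∑ v, w v = 1) (A B : Finset V)
    (hAB : Disjoint A B) (m : ℝ) (hm1 : m ≤ 1 / 3) (hA : 1 / 3 ≤ ∑ a ∈ A, w a)
    (hB : 1 / 3 ≤ ∑ b ∈ B, w b)
    (hC : ∑ a ∈ A, w a + ∑ b ∈ B, w b = 2 / 3 + m) (θ : ℝ) (hθ : 0 < θ) (hθm : θ < m)
    (h5 : 5 * (∑ a ∈ A, w a * G.be w A B a + ∑ b ∈ B, w b * G.be w B A b) < θ ^ 2) :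
    2 * (m - θ) ^ 3 ≤ 3 * G.E2 w := by
  obtain ⟨zA, zB, hzA, hzB, e1, e2⟩ := area A B w (G.be w A B) w (G.be w B A)
    (fun i _ => (hw i).le) (fun i _ => G.be_nonneg_aux w hw A B i)
    (fun i _ => (hw i).le) (fun i _ => G.be_nonneg_aux w hw B A i) θ hθ h5
  have hcov := cover A B w (G.FF w A B) w (G.FF w A B)
    (fun i _ => (hw i).le) (fun i _ => G.FF_nonneg_aux w hw A B i)
    (fun i _ => (hw i).le) (fun i _ => G.FF_nonneg_aux w hw A B i) m θ hθ hθm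
    (fun x y _ hx _ hy => G.dich w h4 hw A B hAB θ zA zB hzA hzB e1 e2 x y
      (by linarith) (by linarith))
  have hpt : ∀ v, w v * (max (m - G.FF w A B v) 0) ^ 2 ≤ w v * (G.oo w v - 1 / 3) ^ 2 := by
    intro v
    refine mul_le_mul_of_nonneg_left ?_ (hw v).le
    have ho := G.oo_le_aux w hw hs A B hAB m hC v
    rcases le_total (m - G.FF w A B v) 0 with h | h
    · rw [max_eq_right h]
      have := sq_nonneg (G.oo w v - 1 / 3)
      simpa using this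
    · rw [max_eq_left h]
      have h' : m - G.FF w A B v ≤ 1 / 3 - G.oo w v := by linarith
      nlinarith
  have hE : ∑ a ∈ A, w a * (max (m - G.FF w A B a) 0) ^ 2
      + ∑ b ∈ B, w b * (max (m - G.FF w A B b) 0) ^ 2 ≤ G.E2 w := by
    rw [← Finset.sum_union hAB]
    unfold E2
    calc ∑ v ∈ A ∪ B, w v * (max (m - G.FF w A B v) 0) ^ 2
        ≤ ∑ v ∈ A ∪ B, w v * (G.oo w v - 1 / 3) ^ 2 := Finset.sum_le_sum fun v _ => hpt v
      _ ≤ ∑ v, w v * (G.oo w v - 1 / 3) ^ 2 :=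
          Finset.sum_le_sum_of_subset_of_nonneg (Finset.subset_univ _)
            (fun v _ _ => mul_nonneg (hw v).le (sq_nonneg _))
  linarith

theorem corner (h4 : G.NoC4) (hw : ∀ v, 0 < w v) (hs : ∑ v, w v = 1) (A B : Finset V)
    (hAB : Disjoint A B) (m : ℝ) (hm0 : 0 < m) (hm1 : m ≤ 1 / 3) (hA : 1 / 3 ≤ ∑ a ∈ A, w a) (hB : 1 / 3 ≤ ∑ b ∈ B, w b)
    (hC : ∑ a ∈ A, w a + ∑ b ∈ B, w b = 2 / 3 + m) :
    2 * (max (m - Real.sqrt (5 * (∑ a ∈ A, w a * G.be w A B a + ∑ b ∈ B, w b * G.be w B A b))) 0) ^ 3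
      ≤ 3 * G.E2 w := by
  set b1 : ℝ := ∑ a ∈ A, w a * G.be w A B a + ∑ b ∈ B, w b * G.be w B A b with hb1
  set r : ℝ := Real.sqrt (5 * b1) with hr
  have hr0 : 0 ≤ r := Real.sqrt_nonneg _
  rcases le_or_gt m r with h | h
  · rw [max_eq_right (by linarith)]
    have : 0 ≤ G.E2 w := Finset.sum_nonneg fun v _ => mul_nonneg (hw v).le (sq_nonneg _)
    simpa using this
  · rw [max_eq_left (by linarith)]
    have hkey : ∀ θ ∈ Set.Ioo r m, 2 * (m - θ) ^ 3 ≤ 3 * G.E2 w := by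
      intro θ hθ
      have hθ0 : 0 < θ := lt_of_le_of_lt hr0 hθ.1
      refine G.step_aux w h4 hw hs A B hAB m hm1 hA hB hC θ hθ0 hθ.2 ?_
      exact (Real.sqrt_lt' hθ0).1 hθ.1
    have hcont : Continuous fun θ : ℝ => 2 * (m - θ) ^ 3 := by fun_prop
    have ht : Filter.Tendsto (fun θ : ℝ => 2 * (m - θ) ^ 3) (nhdsWithin r (Set.Ioi r))
        (nhds (2 * (m - r) ^ 3)) := (hcont.tendsto r).mono_left nhdsWithin_le_nhds
    refine le_of_tendsto ht ?_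
    filter_upwards [Ioo_mem_nhdsGT h] with θ hθ using hkey θ hθ

end OG
end FDF
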