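import Pool.Agent.FDF.Four
/-! FDF-Count. From the weighted inequality to triples. PLAN. w = 1/n (n = card V > 0; n = 0 trivial). `dd = (number of ordered hit triples in V^3)/n³`
(hh is an indicator), so the number of ordered triples (a,b,c) ∈ V³ which are not hit is ≤ (5/9) n³. The map
(ordered triples with a,b,c pairwise different, not hit) → (3-subsets which are not hit) is 6 : 1 (hit is symmetric), so
6 * #(non-hit 3-sets) ≤ (5/9) n³. For the 6:1 count: `Finset.card_powersetCard`-like argument, or injection
(non-hit 3-sets) × (Perm (Fin 3)) → ordered triples. -/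
namespace FDF
open Finset
open scoped BigOperators Classical
namespace OG
variable {V : Type} (G : OG V)

private lemma six_le [Fintype V] :
    6 * (((univ : Finset V).powersetCard 3).filter (fun s => ¬ G.HitSet s)).card
      ≤ ((univ : Finset (V × V × V)).filter (fun p => ¬ G.hit p.1 p.2.1 p.2.2)).card := by
  have key : 6 * (((univ : Finset V).powersetCard 3).filter (fun s => ¬ G.HitSet s)).card
      ≤ ((univ : Finset (V × V × V)).filter (fun p => ¬ G.hit p.1 p.2.1 p.2.2 ∧
        ({p.1, p.2.1, p.2.2} : Finset V) ∈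
          (((univ : Finset V).powersetCard 3).filter (fun s => ¬ G.HitSet s)))).card := by
    refine Finset.mul_card_image_le_card_of_maps_to
      (f := fun p : V × V × V => ({p.1, p.2.1, p.2.2} : Finset V)) ?_ 6 ?_
    · intro p hp
      exact (mem_filter.1 hp).2.2
    · intro t ht
      have ht' := ht
      rw [mem_filter, mem_powersetCard] at ht
      obtain ⟨⟨-, hcard⟩, hn⟩ := ht
      obtain ⟨a, b, c, hab, hac, hbc, rfl⟩ := Finset.card_eq_three.1 hcard
      have e1 : ({a, c, b} : Finset V) = {a, b, c} := by
        ext x; simp only [mem_insert, mem_singleton]; tauto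
      have e2 : ({b, a, c} : Finset V) = {a, b, c} := by
        ext x; simp only [mem_insert, mem_singleton]; tauto
      have e3 : ({b, c, a} : Finset V) = {a, b, c} := by
        ext x; simp only [mem_insert, mem_singleton]; tauto
      have e4 : ({c, a, b} : Finset V) = {a, b, c} := by
        ext x; simp only [mem_insert, mem_singleton]; tauto
      have e5 : ({c, b, a} : Finset V) = {a, b, c} := by
        ext x; simp only [mem_insert, mem_singleton]; tauto
      have n0 : ¬ G.hit a b c := fun h => hn ((G.hitSet_iff a b c hab hac hbc).2 h)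
      have n1 : ¬ G.hit a c b := fun h => hn (e1 ▸ (G.hitSet_iff a c b hac hab hbc.symm).2 h)
      have n2 : ¬ G.hit b a c := fun h => hn (e2 ▸ (G.hitSet_iff b a c hab.symm hbc hac).2 h)
      have n3 : ¬ G.hit b c a := fun h => hn (e3 ▸ (G.hitSet_iff b c a hbc hab.symm hac.symm).2 h)
      have n4 : ¬ G.hit c a b := fun h => hn (e4 ▸ (G.hitSet_iff c a b hac.symm hbc.symm hab).2 h)
      have n5 : ¬ G.hit c b a := fun h => hn (e5 ▸ (G.hitSet_iff c b a hbc.symm hac.symm hab.symm).2 h)
      have hsub : ({(a, b, c), (a, c, b), (b, a, c), (b, c, a), (c, a, b), (c, b, a)} :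
          Finset (V × V × V)) ⊆
          (((univ : Finset (V × V × V)).filter (fun p => ¬ G.hit p.1 p.2.1 p.2.2 ∧
          ({p.1, p.2.1, p.2.2} : Finset V) ∈
          (((univ : Finset V).powersetCard 3).filter (fun s => ¬ G.HitSet s)))).filter
            (fun p => ({p.1, p.2.1, p.2.2} : Finset V) = {a, b, c})) := by
        intro p hp
        simp only [mem_insert, mem_singleton] at hp
        rw [mem_filter, mem_filter]
        rcases hp with rfl | rfl | rfl | rfl | rfl | rfl
        · exact ⟨⟨mem_univ _, n0, ht'⟩, rfl⟩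
        · exact ⟨⟨mem_univ _, n1, by rw [show (({(a, c, b).1, (a, c, b).2.1, (a, c, b).2.2} : Finset V)) = {a, b, c} from e1]; exact ht'⟩, e1⟩
        · exact ⟨⟨mem_univ _, n2, by rw [show (({(b, a, c).1, (b, a, c).2.1, (b, a, c).2.2} : Finset V)) = {a, b, c} from e2]; exact ht'⟩, e2⟩
        · exact ⟨⟨mem_univ _, n3, by rw [show (({(b, c, a).1, (b, c, a).2.1, (b, c, a).2.2} : Finset V)) = {a, b, c} from e3]; exact ht'⟩, e3⟩
        · exact ⟨⟨mem_univ _, n4, by rw [show (({(c, a, b).1, (c, a, b).2.1, (c, a, b).2.2} : Finset V)) = {a, b, c} from e4]; exact ht'⟩, e4⟩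
        · exact ⟨⟨mem_univ _, n5, by rw [show (({(c, b, a).1, (c, b, a).2.1, (c, b, a).2.2} : Finset V)) = {a, b, c} from e5]; exact ht'⟩, e5⟩
      have hc6 : ({(a, b, c), (a, c, b), (b, a, c), (b, c, a), (c, a, b), (c, b, a)} :
          Finset (V × V × V)).card = 6 := by
        have hba := hab.symm
        have hca := hac.symm
        have hcb := hbc.symm
        rw [card_insert_of_notMem, card_insert_of_notMem, card_insert_of_notMem,
          card_insert_of_notMem, card_insert_of_notMem, card_singleton] <;>
        simp only [mem_insert, mem_singleton, Prod.mk.injEq, not_or] <;> tauto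
      calc 6 = _ := hc6.symm
        _ ≤ _ := card_le_card hsub
  refine key.trans (card_le_card ?_)
  intro p hp
  rw [mem_filter] at hp ⊢
  exact ⟨hp.1, hp.2.1⟩

theorem count [Fintype V] (h : ∀ w : V → ℝ, (∀ v, 0 ≤ w v) → ∑ v, w v = 1 → 4 / 9 ≤ G.dd w) :
    54 * (((univ : Finset V).powersetCard 3).filter (fun s => ¬ G.HitSet s)).card
      ≤ 5 * (Fintype.card V) ^ 3 := by
  have h6 := G.six_le
  rcases Nat.eq_zero_or_pos (Fintype.card V) with h0 | hpos
  · have hV : (univ : Finset V) = ∅ := by rwa [← Finset.card_eq_zero, Finset.card_univ]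
    have : (((univ : Finset V).powersetCard 3).filter (fun s => ¬ G.HitSet s)).card = 0 := by
      rw [hV]; simp
    rw [this]; simp
  have hn : (0 : ℝ) < Fintype.card V := by exact_mod_cast hpos
  have hd := h (fun _ => 1 / (Fintype.card V : ℝ)) (fun _ => by positivity) (by
    rw [sum_const, card_univ, nsmul_eq_mul]; field_simp)
  have hdd : G.dd (fun _ => 1 / (Fintype.card V : ℝ)) =
      (((univ : Finset (V × V × V)).filter (fun p => G.hit p.1 p.2.1 p.2.2)).card : ℝ) /
        (Fintype.card V : ℝ) ^ 3 := by
    have e1 : (((univ : Finset (V × V × V)).filter (fun p => G.hit p.1 p.2.1 p.2.2)).card : ℝ) =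
        ∑ v, ∑ a, ∑ b, G.hh v a b := by
      rw [card_filter]
      push_cast
      rw [Fintype.sum_prod_type]
      refine sum_congr rfl (fun v _ => ?_)
      rw [Fintype.sum_prod_type]
      refine sum_congr rfl (fun a _ => sum_congr rfl (fun b _ => ?_))
      unfold hh
      rfl
    rw [e1]
    unfold dd ee
    simp only [← mul_sum]
    field_simp
  rw [hdd, le_div_iff₀ (by positivity)] at hd
  have hsum : ((univ : Finset (V × V × V)).filter (fun p => G.hit p.1 p.2.1 p.2.2)).card +
      ((univ : Finset (V × V × V)).filter (fun p => ¬ G.hit p.1 p.2.1 p.2.2)).card =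
      (Fintype.card V) ^ 3 := by
    rw [card_filter_add_card_filter_not, card_univ, Fintype.card_prod, Fintype.card_prod]
    ring
  have hsum' : (((univ : Finset (V × V × V)).filter (fun p => G.hit p.1 p.2.1 p.2.2)).card : ℝ) +
      (((univ : Finset (V × V × V)).filter (fun p => ¬ G.hit p.1 p.2.1 p.2.2)).card : ℝ) =
      (Fintype.card V : ℝ) ^ 3 := by exact_mod_cast hsum
  have h6' : (6 : ℝ) * ((((univ : Finset V).powersetCard 3).filter (fun s => ¬ G.HitSet s)).card : ℝ)
      ≤ (((univ : Finset (V × V × V)).filter (fun p => ¬ G.hit p.1 p.2.1 p.2.2)).card : ℝ) := by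
    exact_mod_cast h6
  have : (54 : ℝ) * ((((univ : Finset V).powersetCard 3).filter (fun s => ¬ G.HitSet s)).card : ℝ)
      ≤ 5 * (Fintype.card V : ℝ) ^ 3 := by linarith
  exact_mod_cast this

end OG
end FDF
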