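import Mathlib

/-!
# Fon-der-Flaass 3-graphs (project FDF, MP_a4d830_co, helper3)

Common definitions. Paper proof: /team-store/fdf_proof.md.
All quantities are finite sums over a finite type `V` with weights `w`.
-/

namespace FDF

open Finset
open scoped BigOperators Classical

/-- measure of the part `j` of the partition `f` -/
noncomputable def pp {V : Type} [Fintype V] (w : V → ℝ) (f : V → Fin 3) (j : Fin 3) : ℝ :=
  ∑ v, if f v = j then w v else 0

/-- an orgraph: a set of arcs without loops and without pairs of opposite arcs -/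
structure OG (V : Type) where
  A : V → V → Prop
  asymm : ∀ u v, A u v → ¬ A v u

namespace OG
variable {V : Type} (G : OG V)

/-- adjacency -/
def adj (u v : V) : Prop := G.A u v ∨ G.A v u

/-- no induced directed 4-cycle (in such a cycle the four vertices are automatically different) -/
def NoC4 : Prop := ∀ a b c d, G.A a b → G.A b c → G.A c d → G.A d a → G.adj a c ∨ G.adj b d

/-- some vertex is nonadjacent to the two others, or some vertex has two out-neighbours -/
def hit (a b c : V) : Prop :=
  (¬ G.adj a b ∧ ¬ G.adj a c) ∨ (¬ G.adj b a ∧ ¬ G.adj b c) ∨ (¬ G.adj c a ∧ ¬ G.adj c b) ∨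
  (G.A a b ∧ G.A a c) ∨ (G.A b a ∧ G.A b c) ∨ (G.A c a ∧ G.A c b)

/-- indicator of nonadjacency (`mm u u = 1`) -/
noncomputable def mm (u v : V) : ℝ := if G.adj u v then 0 else 1

/-- indicator of the arc `u → v` -/
noncomputable def aa (u v : V) : ℝ := if G.A u v then 1 else 0

/-- indicator of `hit` -/
noncomputable def hh (a b c : V) : ℝ := if G.hit a b c then 1 else 0

/-- exactly one arc in the triple -/
noncomputable def t1 (a b c : V) : ℝ :=
  G.mm a b * G.mm a c * (1 - G.mm b c) + G.mm a b * (1 - G.mm a c) * G.mm b c +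
    (1 - G.mm a b) * G.mm a c * G.mm b c

/-- three arcs in the triple -/
noncomputable def t3 (a b c : V) : ℝ := (1 - G.mm a b) * (1 - G.mm a c) * (1 - G.mm b c)

variable [Fintype V] (w : V → ℝ)

/-- measure of the non-neighbours of `v` (with `v` itself) -/
noncomputable def nn (v : V) : ℝ := ∑ u, w u * G.mm v u

/-- measure of the out-neighbours -/
noncomputable def oo (v : V) : ℝ := ∑ u, w u * G.aa v u

/-- measure of the in-neighbours -/
noncomputable def ii (v : V) : ℝ := ∑ u, w u * G.aa u v

/-- link density -/
noncomputable def ee (v : V) : ℝ := ∑ a, ∑ b, w a * w b * G.hh v a b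

/-- density -/
noncomputable def dd : ℝ := ∑ v, w v * G.ee w v

noncomputable def chi (v : V) : ℝ :=
  ∑ a, ∑ b, w a * w b * (G.mm v a * (1 - G.mm v b) * G.mm a b)

noncomputable def gam : ℝ := ∑ v, w v * (G.nn w v - 1 / 3)

noncomputable def N2 : ℝ := ∑ v, w v * (G.nn w v - 1 / 3) ^ 2

noncomputable def E2 : ℝ := ∑ v, w v * (G.oo w v - 1 / 3) ^ 2

noncomputable def T1 : ℝ := ∑ a, ∑ b, ∑ c, w a * w b * w c * G.t1 a b c

noncomputable def T0 : ℝ := ∑ a, ∑ b, ∑ c, w a * w b * w c * G.t3 a b c

/-- `λ = sqrt (3 E2)` -/
noncomputable def lam : ℝ := Real.sqrt (3 * G.E2 w)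

/-- an optimal counterexample (to be refuted) -/
structure Opt : Prop where
  c4 : G.NoC4
  pos : ∀ v, 0 < w v
  sum : ∑ v, w v = 1
  reg : ∀ v, G.ee w v = G.dd w
  low : G.dd w < 4 / 9

/-! ## partitions -/

variable (f : V → Fin 3)

/-- measure of the non-neighbours of `v` in the part `j` -/
noncomputable def al (v : V) (j : Fin 3) : ℝ := ∑ u, if f u = j then w u * G.mm v u else 0

/-- measure of the neighbours of `v` in its own part -/
noncomputable def bin (v : V) : ℝ := ∑ u, if f u = f v then w u * (1 - G.mm v u) else 0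

/-- measure of the non-neighbours of `v` in the other parts -/
noncomputable def bcr (v : V) : ℝ := ∑ u, if f u = f v then 0 else w u * G.mm v u

/-- measure of the bad partners of `v` -/
noncomputable def bb (v : V) : ℝ := G.bin w f v + G.bcr w f v

noncomputable def Bin : ℝ := ∑ v, w v * G.bin w f v

noncomputable def Bcr : ℝ := ∑ v, w v * G.bcr w f v

noncomputable def Btot : ℝ := ∑ v, w v * G.bb w f v

end OG

end FDF
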