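import Pool.Agent.FDF.Rel
/-! FDF-Dich. The dichotomy. PLAN = section 4 of /team-store/fdf_proof.md. WLOG zA ≤ zB (the statement is symmetric under A ↔ B, x ↔ y:
prove the case zA ≤ zB as a lemma and apply it to (B, A) otherwise). Suppose both conclusions fail:
A' = {a ∈ A : y < F a, be a ≤ zA}, B' = {b ∈ B : x < F b, be b ≤ zB}, where F v = out-measure inside A ∪ B, h = 2 zA + 2 zB.
(1) a ∈ A': `|O(a) ∩ B'| ≥ F a - |O(a) ∩ A| - |{b ∈ B : F b ≤ x}| - e_B > y - zA - (y - θ) - e_B > h`. Same for b ∈ B': `|O(b) ∩ A'| > h`.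
(2) A' nonempty: |A| - |{F ≤ y}| - e_A > |A| - x + θ - e_A > 0. a1 ∈ A' minimises |O(a) ∩ B'|, X = O(a1) ∩ B'; b1 ∈ X minimises |O(b) ∩ A'|
over X (X nonempty as |X| > h ≥ 0), Y = O(b1) ∩ A', |Y| > h.
(3) a ∈ Y, a ≁ a1: |X \ O(a)| ≤ |N(a1) ∩ B| + zB.  (4) b ∈ X, b ≁ b1: |Y ∩ I(b)| ≤ |N(b1) ∩ A| + zA.
(5) |X||Y| ≤ |Y|(z(a1)+zB) + |X| adjA(a1) + |X|(z(b1)+zA) + |Y| adjB(b1), with z(a1)+adjA(a1) = be a1 ≤ zA, z(b1)+adjB(b1) = be b1 ≤ zB;
so |X||Y| ≤ c1 |Y| + c2 |X| with c1 + c2 ≤ h < |X|, |Y|: contradiction. -/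
namespace FDF
open Finset
open scoped BigOperators Classical
namespace OG
variable {V : Type} [Fintype V] (G : OG V) (w : V → ℝ)

/-- bad partners of `v ∈ P` with respect to the two large parts `P` (own) and `Q` (other) -/
noncomputable def be (P Q : Finset V) (v : V) : ℝ :=
  ∑ u ∈ P, w u * (1 - G.mm v u) + ∑ u ∈ Q, w u * G.mm v u

/-- out-measure inside `A ∪ B` -/
noncomputable def FF (A B : Finset V) (v : V) : ℝ := ∑ u ∈ A, w u * G.aa v u + ∑ u ∈ B, w u * G.aa v u

/-- measure of a set -/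
private noncomputable def ms (w : V → ℝ) (S : Finset V) : ℝ := ∑ v ∈ S, w v

omit [Fintype V] in
private lemma ms_nonneg {w : V → ℝ} (hw : ∀ v, 0 < w v) (S : Finset V) : 0 ≤ ms w S :=
  Finset.sum_nonneg fun v _ => (hw v).le

omit [Fintype V] in
private lemma ms_mono {w : V → ℝ} (hw : ∀ v, 0 < w v) {S T : Finset V} (h : S ⊆ T) :
    ms w S ≤ ms w T :=
  Finset.sum_le_sum_of_subset_of_nonneg h fun v _ _ => (hw v).le

omit [Fintype V] in
private lemma ms_union {w : V → ℝ} (hw : ∀ v, 0 < w v) (S T : Finset V) :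
    ms w (S ∪ T) ≤ ms w S + ms w T := by
  unfold ms
  rw [← Finset.sum_union_inter]
  have := ms_nonneg hw (S ∩ T)
  unfold ms at this
  linarith

omit [Fintype V] in
private lemma ms_ne {w : V → ℝ} {S : Finset V} (h : 0 < ms w S) : S.Nonempty := by
  rcases Finset.eq_empty_or_nonempty S with h1 | h1
  · rw [h1] at h
    unfold ms at h
    rw [Finset.sum_empty] at h
    exact absurd h (lt_irrefl _)
  · exact h1

omit [Fintype V] in
private lemma ms_split (w : V → ℝ) (S : Finset V) (p : V → Prop) :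
    ms w S = ms w (S.filter p) + ms w (S.filter fun v => ¬ p v) := by
  unfold ms
  rw [Finset.sum_filter_add_sum_filter_not]

omit [Fintype V] in
private lemma sum_aa (S : Finset V) (v : V) :
    ∑ u ∈ S, w u * G.aa v u = ms w (S.filter fun u => G.A v u) := by
  unfold ms aa
  rw [Finset.sum_filter]
  apply Finset.sum_congr rfl
  intro u _
  split_ifs <;> ring

omit [Fintype V] in
private lemma sum_mm (S : Finset V) (v : V) :
    ∑ u ∈ S, w u * G.mm v u = ms w (S.filter fun u => ¬ G.adj v u) := by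
  unfold ms mm
  rw [Finset.sum_filter]
  apply Finset.sum_congr rfl
  intro u _
  by_cases h : G.adj v u
  · rw [if_pos h, if_neg (not_not.2 h)]; ring
  · rw [if_neg h, if_pos h]; ring

omit [Fintype V] in
private lemma sum_adj (S : Finset V) (v : V) :
    ∑ u ∈ S, w u * (1 - G.mm v u) = ms w (S.filter fun u => G.adj v u) := by
  unfold ms mm
  rw [Finset.sum_filter]
  apply Finset.sum_congr rfl
  intro u _
  by_cases h : G.adj v u
  · rw [if_pos h, if_pos h]; ring
  · rw [if_neg h, if_neg h]; ring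

omit [Fintype V] in
private lemma be_eq (P Q : Finset V) (v : V) : G.be w P Q v =
    ms w (P.filter fun u => G.adj v u) + ms w (Q.filter fun u => ¬ G.adj v u) := by
  unfold be
  rw [sum_adj, sum_mm]

omit [Fintype V] in
private lemma FF_eq (A B : Finset V) (v : V) : G.FF w A B v =
    ms w (A.filter fun u => G.A v u) + ms w (B.filter fun u => G.A v u) := by
  unfold FF
  rw [sum_aa, sum_aa]

omit [Fintype V] in
/-- the exchange step -/
private lemma exch {G : OG V} {w : V → ℝ} (h4 : G.NoC4) (hw : ∀ v, 0 < w v) {S T : Finset V}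
    (hST : S ⊆ T) {p p1 q : V} (hp : ¬ G.adj p1 p)
    (hmin : ms w (S.filter fun u => G.A p1 u) ≤ ms w (S.filter fun u => G.A p u))
    (hq1 : G.A p1 q) (hq2 : G.A q p) :
    ms w ((S.filter fun u => G.A p1 u).filter fun u => ¬ G.A p u) ≤
      ms w (T.filter fun u => ¬ G.adj p1 u) + ms w (T.filter fun u => G.adj q u) := by
  have e1 := ms_split w (S.filter fun u => G.A p1 u) (fun u => G.A p u)
  have e2 := ms_split w (S.filter fun u => G.A p u) (fun u => G.A p1 u)
  have e3 : (S.filter fun u => G.A p1 u).filter (fun u => G.A p u) =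
      (S.filter fun u => G.A p u).filter (fun u => G.A p1 u) := by
    rw [Finset.filter_filter, Finset.filter_filter]
    apply Finset.filter_congr
    intro u _
    exact and_comm
  rw [e3] at e1
  have h1 : ms w ((S.filter fun u => G.A p u).filter fun u => ¬ G.A p1 u) ≤
      ms w (T.filter fun u => ¬ G.adj p1 u) + ms w (T.filter fun u => G.adj q u) := by
    refine le_trans (ms_mono hw ?_) (ms_union hw _ _)
    intro r hr
    rw [Finset.mem_filter, Finset.mem_filter] at hr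
    obtain ⟨⟨hrS, hpr⟩, hp1r⟩ := hr
    rw [Finset.mem_union, Finset.mem_filter, Finset.mem_filter]
    by_cases ha : G.adj p1 r
    · right
      refine ⟨hST hrS, ?_⟩
      have hr1 : G.A r p1 := by
        rcases ha with ha | ha
        · exact absurd ha hp1r
        · exact ha
      rcases h4 p1 q p r hq1 hq2 hpr hr1 with h | h
      · exact absurd h hp
      · exact h
    · exact Or.inl ⟨hST hrS, ha⟩
  linarith

omit [Fintype V] in
/-- many out-neighbours in the good part of the other side -/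
private lemma many {G : OG V} {w : V → ℝ} (hw : ∀ v, 0 < w v) {A B : Finset V}
    {y θ zA h : ℝ} {Bx Bz B' : Finset V}
    (hB' : B ⊆ B' ∪ (Bx ∪ Bz)) {a : V} (ha : y < G.FF w A B a) (hz : G.be w A B a ≤ zA)
    (hx : ms w Bx < y - θ) (hh : ms w Bz + zA + h < θ) :
    h < ms w (B'.filter fun u => G.A a u) := by
  rw [FF_eq] at ha
  rw [be_eq] at hz
  have h1 : ms w (A.filter fun u => G.A a u) ≤ ms w (A.filter fun u => G.adj a u) := by
    apply ms_mono hw
    intro u hu
    rw [Finset.mem_filter] at hu ⊢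
    exact ⟨hu.1, Or.inl hu.2⟩
  have h2 := ms_nonneg hw (B.filter fun u => ¬ G.adj a u)
  have h3 : ms w (B.filter fun u => G.A a u) ≤
      ms w (B'.filter fun u => G.A a u) + (ms w Bx + ms w Bz) := by
    have h4 : (B.filter fun u => G.A a u) ⊆ (B'.filter fun u => G.A a u) ∪ (Bx ∪ Bz) := by
      intro u hu
      rw [Finset.mem_filter] at hu
      have := hB' hu.1
      rw [Finset.mem_union] at this ⊢
      rcases this with h | h
      · left
        rw [Finset.mem_filter]
        exact ⟨h, hu.2⟩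
      · exact Or.inr h
    have h5 := ms_mono hw h4
    have h6 := ms_union hw (B'.filter fun u => G.A a u) (Bx ∪ Bz)
    have h7 := ms_union hw Bx Bz
    linarith
  linarith

omit [Fintype V] in
private lemma pairs (w : V → ℝ) (X Y : Finset V) (p : V → V → Prop) :
    (∑ a ∈ Y, w a * ms w (X.filter fun b => ¬ p a b)) +
      (∑ b ∈ X, w b * ms w (Y.filter fun a => p a b)) = ms w X * ms w Y := by
  have e1 : ∑ b ∈ X, w b * ms w (Y.filter fun a => p a b) =
      ∑ a ∈ Y, w a * ms w (X.filter fun b => p a b) := by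
    unfold ms
    simp only [Finset.mul_sum, Finset.sum_filter]
    rw [Finset.sum_comm]
    apply Finset.sum_congr rfl
    intro a _
    apply Finset.sum_congr rfl
    intro b _
    split_ifs <;> ring
  rw [e1, ← Finset.sum_add_distrib]
  have e2 : ∀ a ∈ Y, w a * ms w (X.filter fun b => ¬ p a b) +
      w a * ms w (X.filter fun b => p a b) = ms w X * w a := by
    intro a _
    rw [ms_split w X (p a)]
    ring
  rw [Finset.sum_congr rfl e2, ← Finset.mul_sum]
  rfl

omit [Fintype V] in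
private lemma half {w : V → ℝ} (hw : ∀ v, 0 < w v) (Y A : Finset V) (hYA : Y ⊆ A)
    (f : V → ℝ) (q : V → Prop) {c M : ℝ} (hc : 0 ≤ c) (hM : 0 ≤ M)
    (h1 : ∀ a ∈ Y, ¬ q a → f a ≤ c) (h2 : ∀ a ∈ Y, f a ≤ M) :
    ∑ a ∈ Y, w a * f a ≤ ms w Y * c + M * ms w (A.filter q) := by
  have h3 : ∑ a ∈ Y, w a * f a ≤ ∑ a ∈ Y, (w a * c + if q a then w a * M else 0) := by
    apply Finset.sum_le_sum
    intro a ha
    have hwa := (hw a).le
    by_cases hq : q a
    · rw [if_pos hq]
      have := mul_le_mul_of_nonneg_left (h2 a ha) hwa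
      have := mul_nonneg hwa hc
      linarith
    · rw [if_neg hq, add_zero]
      exact mul_le_mul_of_nonneg_left (h1 a ha hq) hwa
  refine h3.trans ?_
  rw [Finset.sum_add_distrib, ← Finset.sum_mul, ← Finset.sum_filter, ← Finset.sum_mul]
  have h4 : ms w (Y.filter q) ≤ ms w (A.filter q) := ms_mono hw (Finset.filter_subset_filter _ hYA)
  have h5 := mul_le_mul_of_nonneg_left h4 hM
  unfold ms at h5 ⊢
  linarith

omit [Fintype V] in
private lemma dich_aux (h4 : G.NoC4) (hw : ∀ v, 0 < w v) (A B : Finset V)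
    (θ zA zB : ℝ) (hzA : 0 ≤ zA) (hzB : 0 ≤ zB) (hzz : zA ≤ zB)
    (h1 : (∑ a ∈ A with zA < G.be w A B a, w a) + 2 * zA + 3 * zB < θ)
    (h2 : (∑ b ∈ B with zB < G.be w B A b, w b) + 3 * zA + 2 * zB < θ)
    (x y : ℝ) (hx : x ≤ ∑ a ∈ A, w a) :
    x - θ ≤ (∑ a ∈ A with G.FF w A B a ≤ y, w a) ∨ y - θ ≤ (∑ b ∈ B with G.FF w A B b ≤ x, w b) := by
  by_contra hcon
  push Not at hcon
  obtain ⟨g1, g2⟩ := hcon
  obtain ⟨Ay, hAy⟩ : ∃ S : Finset V, S = A.filter fun a => G.FF w A B a ≤ y := ⟨_, rfl⟩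
  obtain ⟨Az, hAz⟩ : ∃ S : Finset V, S = A.filter fun a => zA < G.be w A B a := ⟨_, rfl⟩
  obtain ⟨Bx, hBx⟩ : ∃ S : Finset V, S = B.filter fun b => G.FF w A B b ≤ x := ⟨_, rfl⟩
  obtain ⟨Bz, hBz⟩ : ∃ S : Finset V, S = B.filter fun b => zB < G.be w B A b := ⟨_, rfl⟩
  rw [← hAy] at g1
  rw [← hBx] at g2
  rw [← hAz] at h1
  rw [← hBz] at h2
  change ms w Ay < x - θ at g1
  change ms w Bx < y - θ at g2
  change ms w Az + 2 * zA + 3 * zB < θ at h1
  change ms w Bz + 3 * zA + 2 * zB < θ at h2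
  change x ≤ ms w A at hx
  obtain ⟨A', hA'⟩ : ∃ S : Finset V, S = A.filter fun a => y < G.FF w A B a ∧ G.be w A B a ≤ zA :=
    ⟨_, rfl⟩
  obtain ⟨B', hB'⟩ : ∃ S : Finset V, S = B.filter fun b => x < G.FF w A B b ∧ G.be w B A b ≤ zB :=
    ⟨_, rfl⟩
  have mA' : ∀ a ∈ A', a ∈ A ∧ y < G.FF w A B a ∧ G.be w A B a ≤ zA := by
    intro a ha
    rw [hA', Finset.mem_filter] at ha
    exact ha
  have mB' : ∀ b ∈ B', b ∈ B ∧ x < G.FF w A B b ∧ G.be w B A b ≤ zB := by
    intro b hb
    rw [hB', Finset.mem_filter] at hb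
    exact hb
  have sA' : A' ⊆ A := fun a ha => (mA' a ha).1
  have sB' : B' ⊆ B := fun b hb => (mB' b hb).1
  have cA : A ⊆ A' ∪ (Ay ∪ Az) := by
    intro a ha
    rw [Finset.mem_union, Finset.mem_union, hA', hAy, hAz, Finset.mem_filter, Finset.mem_filter,
      Finset.mem_filter]
    by_cases c1 : G.FF w A B a ≤ y
    · exact Or.inr (Or.inl ⟨ha, c1⟩)
    · by_cases c2 : G.be w A B a ≤ zA
      · exact Or.inl ⟨ha, not_le.1 c1, c2⟩
      · exact Or.inr (Or.inr ⟨ha, not_le.1 c2⟩)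
  have cB : B ⊆ B' ∪ (Bx ∪ Bz) := by
    intro b hb
    rw [Finset.mem_union, Finset.mem_union, hB', hBx, hBz, Finset.mem_filter, Finset.mem_filter,
      Finset.mem_filter]
    by_cases c1 : G.FF w A B b ≤ x
    · exact Or.inr (Or.inl ⟨hb, c1⟩)
    · by_cases c2 : G.be w B A b ≤ zB
      · exact Or.inl ⟨hb, not_le.1 c1, c2⟩
      · exact Or.inr (Or.inr ⟨hb, not_le.1 c2⟩)
  -- many out-neighbours
  have mA : ∀ a ∈ A', 2 * zA + 2 * zB < ms w (B'.filter fun u => G.A a u) := by
    intro a ha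
    exact many hw cB (mA' a ha).2.1 (mA' a ha).2.2 g2 (by linarith)
  have mB : ∀ b ∈ B', 2 * zA + 2 * zB < ms w (A'.filter fun u => G.A b u) := by
    intro b hb
    refine many (A := B) hw cA (y := x) (θ := θ) ?_ (mB' b hb).2.2 g1 (by linarith)
    have e1 : G.FF w B A b = G.FF w A B b := by unfold FF; ring
    rw [e1]
    exact (mB' b hb).2.1
  -- nonempty
  have nA : A'.Nonempty := by
    apply ms_ne (w := w)
    have i1 := ms_mono hw cA
    have i2 := ms_union hw A' (Ay ∪ Az)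
    have i3 := ms_union hw Ay Az
    linarith
  obtain ⟨a1, ha1, ha1min⟩ := Finset.exists_min_image A'
    (fun a => ms w (B'.filter fun u => G.A a u)) nA
  obtain ⟨X, hX⟩ : ∃ S : Finset V, S = B'.filter fun u => G.A a1 u := ⟨_, rfl⟩
  have mX : ∀ b ∈ X, b ∈ B' ∧ G.A a1 b := by
    intro b hb
    rw [hX, Finset.mem_filter] at hb
    exact hb
  have hXh : 2 * zA + 2 * zB < ms w X := by rw [hX]; exact mA a1 ha1
  have nX : X.Nonempty := ms_ne (w := w) (by linarith)
  obtain ⟨b1, hb1, hb1min⟩ := Finset.exists_min_image X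
    (fun b => ms w (A'.filter fun u => G.A b u)) nX
  obtain ⟨Y, hY⟩ : ∃ S : Finset V, S = A'.filter fun u => G.A b1 u := ⟨_, rfl⟩
  have mY : ∀ a ∈ Y, a ∈ A' ∧ G.A b1 a := by
    intro a ha
    rw [hY, Finset.mem_filter] at ha
    exact ha
  have hYh : 2 * zA + 2 * zB < ms w Y := by rw [hY]; exact mB b1 (mX b1 hb1).1
  have sX : X ⊆ B := fun b hb => sB' (mX b hb).1
  have sY : Y ⊆ A := fun a ha => sA' (mY a ha).1
  have ba1 := (mA' a1 ha1).2.2
  have bb1 := (mB' b1 (mX b1 hb1).1).2.2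
  rw [be_eq] at ba1 bb1
  obtain ⟨za, hza⟩ : ∃ t : ℝ, t = ms w (B.filter fun u => ¬ G.adj a1 u) := ⟨_, rfl⟩
  obtain ⟨zb, hzb⟩ : ∃ t : ℝ, t = ms w (A.filter fun u => ¬ G.adj b1 u) := ⟨_, rfl⟩
  obtain ⟨ja, hja⟩ : ∃ t : ℝ, t = ms w (A.filter fun u => G.adj a1 u) := ⟨_, rfl⟩
  obtain ⟨jb, hjb⟩ : ∃ t : ℝ, t = ms w (B.filter fun u => G.adj b1 u) := ⟨_, rfl⟩
  rw [← hza, ← hja] at ba1
  rw [← hzb, ← hjb] at bb1
  have za0 : 0 ≤ za := by rw [hza]; exact ms_nonneg hw _
  have zb0 : 0 ≤ zb := by rw [hzb]; exact ms_nonneg hw _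
  have ja0 : 0 ≤ ja := by rw [hja]; exact ms_nonneg hw _
  have jb0 : 0 ≤ jb := by rw [hjb]; exact ms_nonneg hw _
  have X0 := ms_nonneg hw X
  have Y0 := ms_nonneg hw Y
  -- step 3
  have s3 : ∀ a ∈ Y, ¬ G.adj a1 a → ms w (X.filter fun b => ¬ G.A a b) ≤ za + zB := by
    intro a ha hna
    have haA := (mY a ha).1
    by_cases hex : ∃ b ∈ X, G.A b a
    · obtain ⟨b, hb, hba⟩ := hex
      have i1 := exch h4 hw sB' hna (ha1min a haA) (mX b hb).2 hba
      rw [← hX, ← hza] at i1
      have i2 := (mB' b (mX b hb).1).2.2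
      rw [be_eq] at i2
      have i3 := ms_nonneg hw (A.filter fun u => ¬ G.adj b u)
      linarith
    · push Not at hex
      have i1 : ms w (X.filter fun b => ¬ G.A a b) ≤ ms w (B.filter fun u => ¬ G.adj a u) := by
        apply ms_mono hw
        intro b hb
        rw [Finset.mem_filter] at hb ⊢
        refine ⟨sX hb.1, ?_⟩
        rintro (h | h)
        · exact hb.2 h
        · exact hex b hb.1 h
      have i2 := (mA' a haA).2.2
      rw [be_eq] at i2
      have i3 := ms_nonneg hw (A.filter fun u => G.adj a u)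
      linarith
  -- step 4
  have s4 : ∀ b ∈ X, ¬ G.adj b1 b → ms w (Y.filter fun a => G.A a b) ≤ zb + zA := by
    intro b hb hnb
    by_cases hex : ∃ a ∈ Y, G.A a b
    · obtain ⟨a, ha, hab⟩ := hex
      have i1 := exch h4 hw sA' hnb (hb1min b hb) (mY a ha).2 hab
      rw [← hY, ← hzb] at i1
      have i2 := (mA' a (mY a ha).1).2.2
      rw [be_eq] at i2
      have i3 := ms_nonneg hw (B.filter fun u => ¬ G.adj a u)
      have i4 : ms w (Y.filter fun a => G.A a b) ≤ ms w (Y.filter fun u => ¬ G.A b u) := by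
        apply ms_mono hw
        intro u hu
        rw [Finset.mem_filter] at hu ⊢
        exact ⟨hu.1, G.asymm u b hu.2⟩
      linarith
    · push Not at hex
      have i1 : (Y.filter fun a => G.A a b) = ∅ := by
        apply Finset.filter_eq_empty_iff.2
        intro a ha
        exact hex a ha
      rw [i1]
      have : ms w (∅ : Finset V) = 0 := by unfold ms; exact Finset.sum_empty
      rw [this]
      linarith
  -- double counting
  have e0 := pairs w X Y (fun a b => G.A a b)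
  have f1 := half hw Y A sY (fun a => ms w (X.filter fun b => ¬ G.A a b)) (fun u => G.adj a1 u)
    (c := za + zB) (M := ms w X) (by linarith) X0 s3
    (fun a _ => ms_mono hw (Finset.filter_subset _ _))
  have f2 := half hw X B sX (fun b => ms w (Y.filter fun a => G.A a b)) (fun u => G.adj b1 u)
    (c := zb + zA) (M := ms w Y) (by linarith) Y0 s4
    (fun b _ => ms_mono hw (Finset.filter_subset _ _))
  rw [← hja] at f1
  rw [← hjb] at f2
  have key : ms w X * ms w Y ≤ (za + zB + jb) * ms w Y + (ja + zb + zA) * ms w X := by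
    rw [← e0]
    refine (add_le_add f1 f2).trans (le_of_eq ?_)
    ring
  rcases le_total (ms w X) (ms w Y) with hle | hle
  · have k1 : (ja + zb + zA) * ms w X ≤ (ja + zb + zA) * ms w Y :=
      mul_le_mul_of_nonneg_left hle (by linarith)
    have k2 : (za + zB + jb + (ja + zb + zA)) * ms w Y < ms w X * ms w Y := by
      apply mul_lt_mul_of_pos_right _ (by linarith)
      linarith
    linarith
  · have k1 : (za + zB + jb) * ms w Y ≤ (za + zB + jb) * ms w X :=
      mul_le_mul_of_nonneg_left hle (by linarith)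
    have k2 : (za + zB + jb + (ja + zb + zA)) * ms w X < ms w Y * ms w X := by
      apply mul_lt_mul_of_pos_right _ (by linarith)
      linarith
    linarith

theorem dich (h4 : G.NoC4) (hw : ∀ v, 0 < w v) (A B : Finset V) (hAB : Disjoint A B)
    (θ zA zB : ℝ) (hzA : 0 ≤ zA) (hzB : 0 ≤ zB)
    (h1 : (∑ a ∈ A with zA < G.be w A B a, w a) + 2 * zA + 3 * zB < θ)
    (h2 : (∑ b ∈ B with zB < G.be w B A b, w b) + 3 * zA + 2 * zB < θ)
    (x y : ℝ) (hx : x ≤ ∑ a ∈ A, w a) (hy : y ≤ ∑ b ∈ B, w b) :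
    x - θ ≤ (∑ a ∈ A with G.FF w A B a ≤ y, w a) ∨ y - θ ≤ (∑ b ∈ B with G.FF w A B b ≤ x, w b) := by
  rcases le_total zA zB with hz | hz
  · exact dich_aux G w h4 hw A B θ zA zB hzA hzB hz h1 h2 x y hx
  · have h := dich_aux G w h4 hw B A θ zB zA hzB hzA hz (by linarith) (by linarith) y x hy
    have e1 : ∀ v, G.FF w B A v = G.FF w A B v := by
      intro v
      unfold FF
      ring
    simp only [e1] at h
    exact h.symm

end OG
end FDF
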