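import Pool.Agent.FDF.Base
/-! FDF certificates: checker for `Q = L Lᵀ` (helper3) -/
namespace FDF

def dotN (T bi bj : ℕ) : ℕ → ℕ
  | 0 => 0
  | k + 1 => dotN T bi bj k + dg T (bi + k) * dg T (bj + k)

def rowN (T bi : ℕ) : ℕ → ℕ
  | 0 => 0
  | k + 1 => rowN T bi k + dg T (bi + k)

def allB : ℕ → (ℕ → Bool) → Bool
  | 0, _ => true
  | n + 1, p => p n && allB n p

/-- `Q i j = ∑_{k<n} L i k * L j k` for the table with 27 rows starting at digit `qb` of `Q`, row `i` of `L` starting at digit `lb + n i`;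
`Q` has the offset `2^46` and `L` the offset `2^30`. -/
def psdB (Q L qb lb n : ℕ) : Bool :=
  allB 27 fun i => fz (rowN L (lb + n * i) n) fun ri => allB 27 fun j => fz (rowN L (lb + n * j) n) fun rj =>
    Nat.beq (dg Q (qb + (i * 27 + j)) + 1073741824 * (ri + rj))
      (70368744177664 + (n * 1152921504606846976 + dotN L (lb + n * i) (lb + n * j) n))

end FDF
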