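import Mathlib
import Pool.Agent.FDF.PsdB
/-! FDF-PsdR. Real meaning of `psdB`. PLAN: `dotN`, `rowN` = sums over `Finset.range n` (induction), `allB_iff`; the checked identity in ℕ,
cast to ℝ, is `dg Q (..) - 2^46 = ∑_k (L i k - 2^30) (L j k - 2^30)` (expand the product: `2^60 = 1152921504606846976`, `2^46 = 70368744177664`,
`2^30 = 1073741824`). `psd_nonneg`: insert, exchange the sums: `∑_k (∑_x W x * l (f x) k)^2`. -/
namespace FDF
open scoped BigOperators

theorem allB_iff (n : ℕ) (p : ℕ → Bool) : allB n p = true ↔ ∀ i < n, p i = true := by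
  induction n with
  | zero => simp [allB]
  | succ n ih =>
    rw [allB, Bool.and_eq_true, ih]
    constructor
    · rintro ⟨h1, h2⟩ i hi
      rcases Nat.lt_succ_iff_lt_or_eq.1 hi with h | h
      · exact h2 i h
      · rw [h]; exact h1
    · intro h
      exact ⟨h n (Nat.lt_succ_self n), fun i hi => h i (Nat.lt_succ_of_lt hi)⟩

private theorem dotN_eq (T bi bj n : ℕ) :
    dotN T bi bj n = ∑ k ∈ Finset.range n, dg T (bi + k) * dg T (bj + k) := by
  induction n with
  | zero => simp [dotN]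
  | succ n ih => rw [dotN, Finset.sum_range_succ, ih]

private theorem rowN_eq (T bi n : ℕ) : rowN T bi n = ∑ k ∈ Finset.range n, dg T (bi + k) := by
  induction n with
  | zero => simp [rowN]
  | succ n ih => rw [rowN, Finset.sum_range_succ, ih]

theorem psd_real {Q L qb lb n : ℕ} (h : psdB Q L qb lb n = true) (i j : ℕ) (hi : i < 27) (hj : j < 27) :
    (dg Q (qb + (i * 27 + j)) : ℝ) - 70368744177664 =
      ∑ k ∈ Finset.range n, ((dg L (lb + n * i + k) : ℝ) - 1073741824) * ((dg L (lb + n * j + k) : ℝ) - 1073741824) := by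
  unfold psdB at h
  rw [allB_iff] at h
  have h1 := h i hi
  rw [fz_eq, allB_iff] at h1
  have h2 := h1 j hj
  rw [fz_eq] at h2
  have h3 := Nat.eq_of_beq_eq_true h2
  rw [rowN_eq, rowN_eq, dotN_eq] at h3
  have h4 : ((dg Q (qb + (i * 27 + j)) : ℕ) : ℝ) + 1073741824 *
      ((∑ k ∈ Finset.range n, (dg L (lb + n * i + k) : ℝ)) + ∑ k ∈ Finset.range n, (dg L (lb + n * j + k) : ℝ)) =
      70368744177664 + ((n : ℝ) * 1152921504606846976 +
        ∑ k ∈ Finset.range n, (dg L (lb + n * i + k) : ℝ) * (dg L (lb + n * j + k) : ℝ)) := by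
    have h5 := congrArg (Nat.cast (R := ℝ)) h3
    push_cast at h5
    exact h5
  have h6 : ∑ k ∈ Finset.range n, ((dg L (lb + n * i + k) : ℝ) - 1073741824) * ((dg L (lb + n * j + k) : ℝ) - 1073741824) =
      (∑ k ∈ Finset.range n, (dg L (lb + n * i + k) : ℝ) * (dg L (lb + n * j + k) : ℝ)) -
      1073741824 * (∑ k ∈ Finset.range n, (dg L (lb + n * i + k) : ℝ)) -
      1073741824 * (∑ k ∈ Finset.range n, (dg L (lb + n * j + k) : ℝ)) + (n : ℝ) * 1152921504606846976 := by
    have h7 : (n : ℝ) * 1152921504606846976 = ∑ k ∈ Finset.range n, (1152921504606846976 : ℝ) := by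
      rw [Finset.sum_const, Finset.card_range, nsmul_eq_mul]
    rw [h7, Finset.mul_sum, Finset.mul_sum, ← Finset.sum_sub_distrib, ← Finset.sum_sub_distrib,
      ← Finset.sum_add_distrib]
    refine Finset.sum_congr rfl fun k _ => ?_
    ring
  rw [h6]
  linarith

theorem psd_nonneg {Q L qb lb n : ℕ} (h : psdB Q L qb lb n = true) {ι : Type} [Fintype ι] (W : ι → ℝ) (f : ι → ℕ)
    (hf : ∀ x, f x < 27) :
    0 ≤ ∑ x, ∑ y, W x * W y * ((dg Q (qb + (f x * 27 + f y)) : ℝ) - 70368744177664) := by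
  have h1 : ∑ x, ∑ y, W x * W y * ((dg Q (qb + (f x * 27 + f y)) : ℝ) - 70368744177664) =
      ∑ k ∈ Finset.range n, (∑ x, W x * ((dg L (lb + n * f x + k) : ℝ) - 1073741824)) ^ 2 := by
    have h2 : ∀ x y, W x * W y * ((dg Q (qb + (f x * 27 + f y)) : ℝ) - 70368744177664) =
        ∑ k ∈ Finset.range n, (W x * ((dg L (lb + n * f x + k) : ℝ) - 1073741824)) *
          (W y * ((dg L (lb + n * f y + k) : ℝ) - 1073741824)) := by
      intro x y
      rw [psd_real h (f x) (f y) (hf x) (hf y), Finset.mul_sum]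
      refine Finset.sum_congr rfl fun k _ => ?_
      ring
    simp_rw [h2]
    have h3 : ∀ x, ∑ y, ∑ k ∈ Finset.range n, (W x * ((dg L (lb + n * f x + k) : ℝ) - 1073741824)) *
          (W y * ((dg L (lb + n * f y + k) : ℝ) - 1073741824)) =
        ∑ k ∈ Finset.range n, (W x * ((dg L (lb + n * f x + k) : ℝ) - 1073741824)) *
          ∑ y, (W y * ((dg L (lb + n * f y + k) : ℝ) - 1073741824)) := by
      intro x
      rw [Finset.sum_comm]
      refine Finset.sum_congr rfl fun k _ => ?_
      rw [Finset.mul_sum]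
    simp_rw [h3]
    rw [Finset.sum_comm]
    refine Finset.sum_congr rfl fun k _ => ?_
    rw [← Finset.sum_mul, sq]
  rw [h1]
  exact Finset.sum_nonneg fun k _ => sq_nonneg _

end FDF
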