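import Mathlib
import Pool.Agent.FDF.CDig
import Pool.Agent.FDF.CPerm
/-! FDF-Mat. From the checker to the inequality for sorted relation matrices.
PLAN. `mat`: take `u = r 0 1, v = r 0 2, w = r 1 2, a = r 0 3, b = r 1 3, c = r 2 3, d = r 0 4, e = r 1 4, f = r 2 4, g = r 3 4`
(all < 3); `chkAll` unfolds by `all3_iff`, `fz_eq` to `chk1 C M = true` for the matrix of `pack_eq` (CDig.lean), `M = ofD [...]`;
`gt_ofD` gives `gt M i j = r i j` (25 cases, `fin_cases i <;> fin_cases j`, using `hrev`, `h0`; all digits < 4).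
`c4_ok`: `c4ok M` is `List.all` over the explicit list `cyc4` (30 quadruples, all entries < 5): `List.all_eq_true`, for each member rewrite
`gt M` by `r` and use `hc4`. `sorted_ok`: `sortedB` says `k0 ≤ k1 ≤ k2 ≤ k3 ≤ k4` with `key M i = kk r i` (`Fin.sum_univ_five`, `wt`).
`sum_HN`, `sum_HP`: `sumP_eq`, `perm_sum` (CPerm.lean) with `F a b c x y = HN C (gt M) a b c x y`, and `HN C (gt M) a b c x y` depends only on
ten values of `gt M` (`HN_congr`: unfold and rewrite). -/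
namespace FDF
open scoped BigOperators

/-- key of a point -/
def kk (r : Fin 5 → Fin 5 → ℕ) (i : Fin 5) : ℕ := ∑ j, wt (r i j)

theorem HN_congr {α β : Type} (C : Cert) (r : α → α → ℕ) (r' : β → β → ℕ) (a b c x y : α) (a' b' c' x' y' : β)
    (h1 : r a b = r' a' b') (h2 : r a c = r' a' c') (h3 : r a x = r' a' x') (h4 : r a y = r' a' y') (h5 : r x y = r' x' y')
    (h6 : r b c = r' b' c') (h7 : r b x = r' b' x') (h8 : r c x = r' c' x') (h9 : r b y = r' b' y') (h10 : r c y = r' c' y') :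
    HN C r a b c x y = HN C r' a' b' c' x' y' := by
  simp only [HN, h1, h2, h3, h4, h5, h6, h7, h8, h9, h10]

theorem HP_congr {α β : Type} (C : Cert) (r : α → α → ℕ) (r' : β → β → ℕ) (a b c x y : α) (a' b' c' x' y' : β)
    (h1 : r a b = r' a' b') (h2 : r a c = r' a' c') (h3 : r a x = r' a' x') (h4 : r a y = r' a' y') (h5 : r x y = r' x' y')
    (h6 : r b c = r' b' c') :
    HP C r a b c x y = HP C r' a' b' c' x' y' := by
  simp only [HP, h1, h2, h3, h4, h5, h6]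

theorem mat (C : Cert) (hC : ∀ u < 3, ∀ v < 3, ∀ w < 3, chkAll C (M0 u v w) = true)
    (r : Fin 5 → Fin 5 → ℕ) (h3 : ∀ i j, r i j < 3) (hrev : ∀ i j, r j i = (3 - r i j) % 3) (h0 : ∀ i, r i i = 0) :
    ∃ M, chk1 C M = true ∧ ∀ i j : Fin 5, gt M i j = r i j := by
  have hx := hC (r 0 1) (h3 _ _) (r 0 2) (h3 _ _) (r 1 2) (h3 _ _)
  unfold chkAll at hx
  simp only [all3_iff, fz_eq] at hx
  have h := hx (r 0 3) (h3 _ _) (r 1 3) (h3 _ _) (r 2 3) (h3 _ _) (r 0 4) (h3 _ _) (r 1 4) (h3 _ _)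
    (r 2 4) (h3 _ _) (r 3 4) (h3 _ _)
  rw [pack_eq] at h
  refine ⟨_, h, fun i j => ?_⟩
  rw [gt_ofD]
  · fin_cases i <;> fin_cases j
    · exact (h0 0).symm
    · rfl
    · rfl
    · rfl
    · rfl
    · exact (hrev 0 1).symm
    · exact (h0 1).symm
    · rfl
    · rfl
    · rfl
    · exact (hrev 0 2).symm
    · exact (hrev 1 2).symm
    · exact (h0 2).symm
    · rfl
    · rfl
    · exact (hrev 0 3).symm
    · exact (hrev 1 3).symm
    · exact (hrev 2 3).symm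
    · exact (h0 3).symm
    · rfl
    · exact (hrev 0 4).symm
    · exact (hrev 1 4).symm
    · exact (hrev 2 4).symm
    · exact (hrev 3 4).symm
    · exact (h0 4).symm
  · have hm : ∀ i j, r i j < 4 := fun i j => (h3 i j).trans (by norm_num)
    have hm' : ∀ i j, (3 - r i j) % 3 < 4 := fun i j => (Nat.mod_lt _ (by norm_num)).trans (by norm_num)
    intro d hd
    simp only [List.mem_cons, List.not_mem_nil, or_false] at hd
    rcases hd with rfl | rfl | rfl | rfl | rfl | rfl | rfl | rfl | rfl | rfl | rfl | rfl | rfl | rfl |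
      rfl | rfl | rfl | rfl | rfl | rfl | rfl | rfl | rfl | rfl | rfl <;>
      first | exact hm _ _ | exact hm' _ _ | norm_num

theorem c4_ok (M : ℕ) (r : Fin 5 → Fin 5 → ℕ) (hM : ∀ i j : Fin 5, gt M i j = r i j)
    (hc4 : ∀ a b c d : Fin 5, r a b = 1 → r b c = 1 → r c d = 1 → r d a = 1 → r a c ≠ 0 ∨ r b d ≠ 0) : c4ok M = true := by
  have hb : ∀ a b c d : Fin 5, (!(Nat.beq (gt M a b) 1 && Nat.beq (gt M b c) 1 && Nat.beq (gt M c d) 1 &&
      Nat.beq (gt M d a) 1 && Nat.beq (gt M a c) 0 && Nat.beq (gt M b d) 0)) = true := by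
    intro a b c d
    rw [hM, hM, hM, hM, hM, hM, Bool.not_eq_true', Bool.eq_false_iff]
    intro h
    simp only [Bool.and_eq_true] at h
    obtain ⟨⟨⟨⟨⟨k1, k2⟩, k3⟩, k4⟩, k5⟩, k6⟩ := h
    rcases hc4 a b c d (Nat.eq_of_beq_eq_true k1) (Nat.eq_of_beq_eq_true k2) (Nat.eq_of_beq_eq_true k3)
      (Nat.eq_of_beq_eq_true k4) with h | h
    · exact h (Nat.eq_of_beq_eq_true k5)
    · exact h (Nat.eq_of_beq_eq_true k6)
  have hlt : ∀ p ∈ cyc4, p.1 < 5 ∧ p.2.1 < 5 ∧ p.2.2.1 < 5 ∧ p.2.2.2 < 5 := by decide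
  unfold c4ok
  rw [List.all_eq_true]
  intro p hp
  obtain ⟨l1, l2, l3, l4⟩ := hlt p hp
  exact hb ⟨p.1, l1⟩ ⟨p.2.1, l2⟩ ⟨p.2.2.1, l3⟩ ⟨p.2.2.2, l4⟩

theorem sorted_ok (M : ℕ) (r : Fin 5 → Fin 5 → ℕ) (hM : ∀ i j : Fin 5, gt M i j = r i j) (hm : Monotone (kk r)) :
    sortedB M = true := by
  have hk : ∀ i : Fin 5, key M i = kk r i := by
    intro i
    unfold key kk
    rw [Fin.sum_univ_five]
    have e0 : gt M i 0 = r i 0 := hM i 0
    have e1 : gt M i 1 = r i 1 := hM i 1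
    have e2 : gt M i 2 = r i 2 := hM i 2
    have e3 : gt M i 3 = r i 3 := hM i 3
    have e4 : gt M i 4 = r i 4 := hM i 4
    rw [e0, e1, e2, e3, e4]
    ring
  have k0 : key M 0 = kk r 0 := hk 0
  have k1 : key M 1 = kk r 1 := hk 1
  have k2 : key M 2 = kk r 2 := hk 2
  have k3 : key M 3 = kk r 3 := hk 3
  have k4 : key M 4 = kk r 4 := hk 4
  unfold sortedB
  simp only [fz_eq, Bool.and_eq_true, Nat.ble_eq, k0, k1, k2, k3, k4]
  exact ⟨hm (by decide), hm (by decide), hm (by decide), hm (by decide)⟩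

theorem sum_HN (C : Cert) (M : ℕ) (r : Fin 5 → Fin 5 → ℕ) (hM : ∀ i j : Fin 5, gt M i j = r i j) :
    sumP (HN C (gt M)) perms5 = ∑ σ : Equiv.Perm (Fin 5), HN C r (σ 0) (σ 1) (σ 2) (σ 3) (σ 4) := by
  rw [sumP_eq, ← perm_sum (fun a b c x y => HN C (gt M) a b c x y)]
  refine Finset.sum_congr rfl (fun σ _ => ?_)
  exact HN_congr C (gt M) r _ _ _ _ _ _ _ _ _ _ (hM _ _) (hM _ _) (hM _ _) (hM _ _) (hM _ _) (hM _ _)
    (hM _ _) (hM _ _) (hM _ _) (hM _ _)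

theorem sum_HP (C : Cert) (M : ℕ) (r : Fin 5 → Fin 5 → ℕ) (hM : ∀ i j : Fin 5, gt M i j = r i j) :
    sumP (HP C (gt M)) perms5 = ∑ σ : Equiv.Perm (Fin 5), HP C r (σ 0) (σ 1) (σ 2) (σ 3) (σ 4) := by
  rw [sumP_eq, ← perm_sum (fun a b c x y => HP C (gt M) a b c x y)]
  refine Finset.sum_congr rfl (fun σ _ => ?_)
  exact HP_congr C (gt M) r _ _ _ _ _ _ _ _ _ _ (hM _ _) (hM _ _) (hM _ _) (hM _ _) (hM _ _) (hM _ _)

theorem chk_sorted (C : Cert) (hC : ∀ u < 3, ∀ v < 3, ∀ w < 3, chkAll C (M0 u v w) = true)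
    (r : Fin 5 → Fin 5 → ℕ) (h3 : ∀ i j, r i j < 3) (hrev : ∀ i j, r j i = (3 - r i j) % 3) (h0 : ∀ i, r i i = 0)
    (hc4 : ∀ a b c d : Fin 5, r a b = 1 → r b c = 1 → r c d = 1 → r d a = 1 → r a c ≠ 0 ∨ r b d ≠ 0)
    (hm : Monotone (kk r)) :
    ∑ σ : Equiv.Perm (Fin 5), HN C r (σ 0) (σ 1) (σ 2) (σ 3) (σ 4) ≤
      ∑ σ : Equiv.Perm (Fin 5), HP C r (σ 0) (σ 1) (σ 2) (σ 3) (σ 4) := by
  obtain ⟨M, h1, h2⟩ := mat C hC r h3 hrev h0
  unfold chk1 at h1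
  rw [sorted_ok M r h2 hm, c4_ok M r h2 hc4] at h1
  simp only [cond_true] at h1
  rw [← sum_HN C M r h2, ← sum_HP C M r h2]
  exact Nat.ble_eq.mp h1

end FDF
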