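import Mathlib
import Pool.Agent.FDF.Mat
import Pool.Agent.FDF.Code
import Pool.Agent.FDF.CExp
/-! FDF-Srt. Removal of the sorting hypothesis, and the expectation.
PLAN. `chk_all`: let `τ = Tuple.sort (kk r)` and `r' i j = r (τ i) (τ j)`; `kk r' i = kk r (τ i)` (reindex the sum over `j` by `τ`,
`Equiv.sum_comp`), so `kk r'` is monotone (`Tuple.monotone_sort`); apply `chk_sorted` to `r'`; `HN C r' a b .. = HN C r (τ a) (τ b) ..` is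
`HN_congr` with `rfl`s; reindex the sum over `σ` by `σ ↦ τ * σ` (`Equiv.sum_comp (Equiv.mulLeft τ)`).
`chk_v`: `chk_all` for `r i j = G.rel (v i) (v j)` (Code.lean: rel_lt, rel_rev, rel_self, rel_eq_one, rel_eq_zero, NoC4).
`exp_nonneg`: with `F v = (HP C G.rel (v 0) ..: ℝ) - HN C G.rel (v 0) ..`: `0 ≤ ∑_v (∏ w (v i)) * ∑_σ F (v ∘ σ) = 120 * ∑_v (∏ w (v i)) * F v`
(`exp_perm`, `Finset.sum_comm`, `Fintype.card_perm`), then `sum_fin5` (CExp.lean), `Fin.prod_univ_five`. -/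
namespace FDF
open scoped BigOperators Classical

theorem chk_all (C : Cert) (hC : ∀ u < 3, ∀ v < 3, ∀ w < 3, chkAll C (M0 u v w) = true)
    (r : Fin 5 → Fin 5 → ℕ) (h3 : ∀ i j, r i j < 3) (hrev : ∀ i j, r j i = (3 - r i j) % 3) (h0 : ∀ i, r i i = 0)
    (hc4 : ∀ a b c d : Fin 5, r a b = 1 → r b c = 1 → r c d = 1 → r d a = 1 → r a c ≠ 0 ∨ r b d ≠ 0) :
    ∑ σ : Equiv.Perm (Fin 5), HN C r (σ 0) (σ 1) (σ 2) (σ 3) (σ 4) ≤
      ∑ σ : Equiv.Perm (Fin 5), HP C r (σ 0) (σ 1) (σ 2) (σ 3) (σ 4) := by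
  set τ : Equiv.Perm (Fin 5) := Tuple.sort (kk r) with hτ
  have hkk : kk (fun i j => r (τ i) (τ j)) = kk r ∘ τ := by
    funext i
    exact Equiv.sum_comp τ (fun j => wt (r (τ i) j))
  have hm : Monotone (kk (fun i j => r (τ i) (τ j))) := by
    rw [hkk]
    exact Tuple.monotone_sort (kk r)
  have h := chk_sorted C hC (fun i j => r (τ i) (τ j)) (fun i j => h3 _ _) (fun i j => hrev _ _)
    (fun i => h0 _) (fun a b c d => hc4 _ _ _ _) hm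
  have e1 : ∑ σ : Equiv.Perm (Fin 5), HN C (fun i j => r (τ i) (τ j)) (σ 0) (σ 1) (σ 2) (σ 3) (σ 4)
      = ∑ σ : Equiv.Perm (Fin 5), HN C r (σ 0) (σ 1) (σ 2) (σ 3) (σ 4) := by
    rw [← Equiv.sum_comp (Equiv.mulLeft τ)
      (fun σ : Equiv.Perm (Fin 5) => HN C r (σ 0) (σ 1) (σ 2) (σ 3) (σ 4))]
    refine Finset.sum_congr rfl fun σ _ => ?_
    exact HN_congr C _ _ _ _ _ _ _ _ _ _ _ _ rfl rfl rfl rfl rfl rfl rfl rfl rfl rfl
  have e2 : ∑ σ : Equiv.Perm (Fin 5), HP C (fun i j => r (τ i) (τ j)) (σ 0) (σ 1) (σ 2) (σ 3) (σ 4)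
      = ∑ σ : Equiv.Perm (Fin 5), HP C r (σ 0) (σ 1) (σ 2) (σ 3) (σ 4) := by
    rw [← Equiv.sum_comp (Equiv.mulLeft τ)
      (fun σ : Equiv.Perm (Fin 5) => HP C r (σ 0) (σ 1) (σ 2) (σ 3) (σ 4))]
    refine Finset.sum_congr rfl fun σ _ => ?_
    exact HP_congr C _ _ _ _ _ _ _ _ _ _ _ _ rfl rfl rfl rfl rfl rfl
  rw [e1, e2] at h
  exact h

theorem chk_v (C : Cert) (hC : ∀ u < 3, ∀ v < 3, ∀ w < 3, chkAll C (M0 u v w) = true)
    {V : Type} (G : OG V) (h4 : G.NoC4) (v : Fin 5 → V) :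
    ∑ σ : Equiv.Perm (Fin 5), HN C G.rel (v (σ 0)) (v (σ 1)) (v (σ 2)) (v (σ 3)) (v (σ 4)) ≤
      ∑ σ : Equiv.Perm (Fin 5), HP C G.rel (v (σ 0)) (v (σ 1)) (v (σ 2)) (v (σ 3)) (v (σ 4)) := by
  have h := chk_all C hC (fun i j => G.rel (v i) (v j)) (fun i j => G.rel_lt _ _)
    (fun i j => G.rel_rev _ _) (fun i => G.rel_self _) (by
      intro a b c d h1 h2 h3 h5
      have k := h4 (v a) (v b) (v c) (v d) ((G.rel_eq_one _ _).1 h1) ((G.rel_eq_one _ _).1 h2)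
        ((G.rel_eq_one _ _).1 h3) ((G.rel_eq_one _ _).1 h5)
      rcases k with k | k
      · exact Or.inl fun h => (G.rel_eq_zero _ _).1 h k
      · exact Or.inr fun h => (G.rel_eq_zero _ _).1 h k)
  have e1 : ∑ σ : Equiv.Perm (Fin 5), HN C (fun i j => G.rel (v i) (v j)) (σ 0) (σ 1) (σ 2) (σ 3) (σ 4)
      = ∑ σ : Equiv.Perm (Fin 5), HN C G.rel (v (σ 0)) (v (σ 1)) (v (σ 2)) (v (σ 3)) (v (σ 4)) := by
    refine Finset.sum_congr rfl fun σ _ => ?_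
    exact HN_congr C _ _ _ _ _ _ _ _ _ _ _ _ rfl rfl rfl rfl rfl rfl rfl rfl rfl rfl
  have e2 : ∑ σ : Equiv.Perm (Fin 5), HP C (fun i j => G.rel (v i) (v j)) (σ 0) (σ 1) (σ 2) (σ 3) (σ 4)
      = ∑ σ : Equiv.Perm (Fin 5), HP C G.rel (v (σ 0)) (v (σ 1)) (v (σ 2)) (v (σ 3)) (v (σ 4)) := by
    refine Finset.sum_congr rfl fun σ _ => ?_
    exact HP_congr C _ _ _ _ _ _ _ _ _ _ _ _ rfl rfl rfl rfl rfl rfl
  rw [e1, e2] at h
  exact h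

theorem exp_nonneg (C : Cert) (hC : ∀ u < 3, ∀ v < 3, ∀ w < 3, chkAll C (M0 u v w) = true)
    {V : Type} [Fintype V] (G : OG V) (h4 : G.NoC4) (w : V → ℝ) (hw : ∀ v, 0 ≤ w v) :
    0 ≤ ∑ a, ∑ b, ∑ c, ∑ x, ∑ y, w a * w b * w c * w x * w y *
      ((HP C G.rel a b c x y : ℝ) - (HN C G.rel a b c x y : ℝ)) := by
  set F : (Fin 5 → V) → ℝ := fun u =>
    (HP C G.rel (u 0) (u 1) (u 2) (u 3) (u 4) : ℝ) - (HN C G.rel (u 0) (u 1) (u 2) (u 3) (u 4) : ℝ) with hF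
  have hpos : ∀ v : Fin 5 → V, 0 ≤ ∑ σ : Equiv.Perm (Fin 5), F (v ∘ σ) := by
    intro v
    have h := chk_v C hC G h4 v
    have h' : ((∑ σ : Equiv.Perm (Fin 5), HN C G.rel (v (σ 0)) (v (σ 1)) (v (σ 2)) (v (σ 3)) (v (σ 4)) : ℕ) : ℝ)
        ≤ ((∑ σ : Equiv.Perm (Fin 5), HP C G.rel (v (σ 0)) (v (σ 1)) (v (σ 2)) (v (σ 3)) (v (σ 4)) : ℕ) : ℝ) :=
      Nat.cast_le.2 h
    rw [Nat.cast_sum, Nat.cast_sum] at h'
    rw [hF]
    simp only [Function.comp_apply, Finset.sum_sub_distrib]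
    exact sub_nonneg.2 h'
  have h1 : 0 ≤ ∑ v : Fin 5 → V, (∏ i, w (v i)) * ∑ σ : Equiv.Perm (Fin 5), F (v ∘ σ) :=
    Finset.sum_nonneg fun v _ => mul_nonneg (Finset.prod_nonneg fun i _ => hw (v i)) (hpos v)
  have h2 : ∑ v : Fin 5 → V, (∏ i, w (v i)) * ∑ σ : Equiv.Perm (Fin 5), F (v ∘ σ)
      = (Fintype.card (Equiv.Perm (Fin 5)) : ℝ) * ∑ v : Fin 5 → V, (∏ i, w (v i)) * F v := by
    simp only [Finset.mul_sum]
    rw [Finset.sum_comm]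
    rw [Finset.sum_congr rfl fun σ _ => exp_perm w F σ]
    rw [Finset.sum_const, Finset.card_univ, nsmul_eq_mul, Finset.mul_sum]
  rw [h2] at h1
  have hc : (0 : ℝ) < (Fintype.card (Equiv.Perm (Fin 5)) : ℝ) := Nat.cast_pos.2 Fintype.card_pos
  have h3 : 0 ≤ ∑ v : Fin 5 → V, (∏ i, w (v i)) * F v := nonneg_of_mul_nonneg_right h1 hc
  have h5 : ∑ v : Fin 5 → V, (∏ i, w (v i)) * F v = ∑ a, ∑ b, ∑ c, ∑ x, ∑ y, w a * w b * w c * w x * w y *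
      ((HP C G.rel a b c x y : ℝ) - (HN C G.rel a b c x y : ℝ)) := by
    rw [← sum_fin5 (fun a b c x y => w a * w b * w c * w x * w y *
      ((HP C G.rel a b c x y : ℝ) - (HN C G.rel a b c x y : ℝ)))]
    refine Finset.sum_congr rfl fun v _ => ?_
    rw [Fin.prod_univ_five]
  rw [h5] at h3
  exact h3

end FDF
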