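import Mathlib
import Pool.Agent.FDF.PsdR
import Pool.Agent.FDF.Srt
/-! FDF-Ev. Evaluation of the certificate function.
PLAN. `eval`: unfold `HP`, `HN`, remove `fz` (`fz_eq`), `hit_code'`, `all_code'`, `bad_code` (Code.lean), `Nat.beq` conditions; cast to ℝ.
(`cond (Nat.beq s 7) A B`: by_cases; `cond (Nat.beq C.DB 0) ..`: if DB = 0 both sides vanish; `allN = 0` likewise, `allN` is 0 or 1.)
`master`: sum `eval` with the weights (all sums over `a b c x y`): the term `qq` is nonnegative for every `(a,b,c)` by `psd_nonneg` with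
`W = w`, `f x = 9 rel a x + (3 rel b x + rel c x) < 27` (slot < 7: `hP`), or zero (slot = 7: then `qq = 0`);
the term `q1` is nonnegative for every `a` by `psd_nonneg` with `ι = V × V`, `W (b,c) = w b * w c`, `f (b,c) = 9 rel a b + (3 rel a c + rel b c)`
(`Fintype.sum_prod_type`); the term `mu` : for every `(a,b,c)` `∑_x ∑_y w x w y (4 - 9 hh a x y) = 4 - 9 ee a ≥ 0`. -/
namespace FDF
open scoped BigOperators Classical

/-- the real value of the `Q` term -/
noncomputable def qq (C : Cert) (tc fx fy : ℕ) : ℝ :=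
  if slot tc = 7 then 0 else (dg C.tabQ (slot tc * 729 + (fx * 27 + fy)) : ℝ) - 70368744177664

noncomputable def q1 (C : Cert) (tc tx : ℕ) : ℝ := (dg C.tabQ1 (27 * tc + tx) : ℝ) - 70368744177664

theorem slot_le (tc : ℕ) : slot tc ≤ 7 := by
  unfold slot
  exact Nat.le_of_lt_succ (Nat.mod_lt _ (by norm_num))

private theorem condb (n m A B : ℕ) : cond (Nat.beq n m) A B = if n = m then A else B := by
  by_cases h : n = m
  · subst h
    simp
  · have : Nat.beq n m = false := by
      cases hb : Nat.beq n m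
      · rfl
      · exact absurd (Nat.eq_of_beq_eq_true hb) h
    rw [this, if_neg h]
    rfl

theorem eval (C : Cert) {V : Type} (G : OG V) (a b c x y : V) :
    (HP C G.rel a b c x y : ℝ) - (HN C G.rel a b c x y : ℝ) =
      (C.K : ℝ) - 140737488355328 - dg C.tabO (9 * G.rel a b + (3 * G.rel a c + G.rel b c))
      - qq C (9 * G.rel a b + (3 * G.rel a c + G.rel b c)) (9 * G.rel a x + (3 * G.rel b x + G.rel c x))
          (9 * G.rel a y + (3 * G.rel b y + G.rel c y))
      - q1 C (9 * G.rel a b + (3 * G.rel a c + G.rel b c)) (9 * G.rel a x + (3 * G.rel a y + G.rel x y))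
      - dg C.tabMu (9 * G.rel a b + (3 * G.rel a c + G.rel b c)) * (4 - 9 * G.hh a x y)
      - C.DB * (G.t3 a b c * G.bad a b c x y) := by
  have hh' := G.hit_code' a x y
  have hall := G.all_code' a b c
  have hbad := G.bad_code a b c x y
  have hallN : allN (9 * G.rel a b + (3 * G.rel a c + G.rel b c)) = 0 ∨
      allN (9 * G.rel a b + (3 * G.rel a c + G.rel b c)) = 1 := by
    unfold allN bt
    omega
  unfold HP HN qq q1
  simp only [fz_eq, condb]
  set tc := 9 * G.rel a b + (3 * G.rel a c + G.rel b c) with htc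
  set tx := 9 * G.rel a x + (3 * G.rel a y + G.rel x y) with htx
  set fx := 9 * G.rel a x + (3 * G.rel b x + G.rel c x) with hfx
  set fy := 9 * G.rel a y + (3 * G.rel b y + G.rel c y) with hfy
  set bd := badN fx fy (G.rel x y) with hbd
  rw [← hall, ← hbad, hh']
  have hdb : ((if C.DB = 0 then 0 else if allN tc = 0 then 0 else C.DB * bd : ℕ) : ℝ) =
      C.DB * ((allN tc : ℝ) * (bd : ℝ)) := by
    by_cases h0 : C.DB = 0
    · rw [if_pos h0, h0]
      simp
    · rw [if_neg h0]
      rcases hallN with h1 | h1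
      · rw [h1]
        simp
      · rw [h1]
        simp
  have hmu1 : ((if (if G.hit a x y then 1 else 0) = 0 then 0 else 5 * dg C.tabMu tc : ℕ) : ℝ) =
      5 * dg C.tabMu tc * G.hh a x y := by
    unfold OG.hh
    by_cases h : G.hit a x y
    · simp [h]
    · simp [h]
  have hmu2 : ((if (if G.hit a x y then 1 else 0) = 0 then 4 * dg C.tabMu tc else 0 : ℕ) : ℝ) =
      4 * dg C.tabMu tc * (1 - G.hh a x y) := by
    unfold OG.hh
    by_cases h : G.hit a x y
    · simp [h]
    · simp [h]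
  have hs7 : ((if slot tc = 7 then 70368744177664 else dg C.tabQ (slot tc * 729 + (fx * 27 + fy)) : ℕ) : ℝ) =
      70368744177664 + (if slot tc = 7 then 0 else (dg C.tabQ (slot tc * 729 + (fx * 27 + fy)) : ℝ) - 70368744177664) := by
    by_cases h : slot tc = 7
    · simp [h]
    · simp [h]
  rw [Nat.cast_add, Nat.cast_add, Nat.cast_add, Nat.cast_add, Nat.cast_add, hdb, hmu1, hmu2, hs7]
  ring

theorem master (C : Cert) (hC : ∀ u < 3, ∀ v < 3, ∀ w < 3, chkAll C (M0 u v w) = true)
    (hP : ∀ s < 7, ∃ L lb n, psdB C.tabQ L (s * 729) lb n = true) (hP1 : ∃ L lb n, psdB C.tabQ1 L 0 lb n = true)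
    {V : Type} [Fintype V] (G : OG V) (h4 : G.NoC4) (w : V → ℝ) (hw : ∀ v, 0 ≤ w v) (hs : ∑ v, w v = 1)
    (he : ∀ v, G.ee w v ≤ 4 / 9) :
    0 ≤ ∑ a, ∑ b, ∑ c, ∑ x, ∑ y, w a * w b * w c * w x * w y *
      ((C.K : ℝ) - 140737488355328 - dg C.tabO (9 * G.rel a b + (3 * G.rel a c + G.rel b c))
        - C.DB * (G.t3 a b c * G.bad a b c x y)) := by
  have h0 := exp_nonneg C hC G h4 w hw
  have hq : ∀ a b c, 0 ≤ ∑ x, ∑ y, w x * w y * qq C (9 * G.rel a b + (3 * G.rel a c + G.rel b c))
      (9 * G.rel a x + (3 * G.rel b x + G.rel c x)) (9 * G.rel a y + (3 * G.rel b y + G.rel c y)) := by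
    intro a b c
    unfold qq
    by_cases h7 : slot (9 * G.rel a b + (3 * G.rel a c + G.rel b c)) = 7
    · simp [h7]
    · have hlt : slot (9 * G.rel a b + (3 * G.rel a c + G.rel b c)) < 7 := lt_of_le_of_ne (slot_le _) h7
      obtain ⟨L, lb, n, hL⟩ := hP _ hlt
      have := psd_nonneg hL w (fun x => 9 * G.rel a x + (3 * G.rel b x + G.rel c x)) (by
        intro x
        have h1 := G.rel_lt a x
        have h2 := G.rel_lt b x
        have h3 := G.rel_lt c x
        show 9 * G.rel a x + (3 * G.rel b x + G.rel c x) < 27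
        omega)
      simp only [if_neg h7]
      exact this
  have hq1 : ∀ a, 0 ≤ ∑ b, ∑ c, ∑ x, ∑ y, (w b * w c) * (w x * w y) * q1 C (9 * G.rel a b + (3 * G.rel a c + G.rel b c))
      (9 * G.rel a x + (3 * G.rel a y + G.rel x y)) := by
    intro a
    obtain ⟨L, lb, n, hL⟩ := hP1
    have := psd_nonneg hL (fun p : V × V => w p.1 * w p.2) (fun p => 9 * G.rel a p.1 + (3 * G.rel a p.2 + G.rel p.1 p.2)) (by
        intro p
        have h1 := G.rel_lt a p.1
        have h2 := G.rel_lt a p.2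
        have h3 := G.rel_lt p.1 p.2
        show 9 * G.rel a p.1 + (3 * G.rel a p.2 + G.rel p.1 p.2) < 27
        omega)
    simp only [Fintype.sum_prod_type] at this
    refine this.trans (le_of_eq ?_)
    refine Finset.sum_congr rfl fun b _ => Finset.sum_congr rfl fun c _ => Finset.sum_congr rfl fun x _ =>
      Finset.sum_congr rfl fun y _ => ?_
    unfold q1
    rw [zero_add, mul_comm 27 (9 * G.rel a b + (3 * G.rel a c + G.rel b c))]
  have hm : ∀ a b c, 0 ≤ ∑ x, ∑ y, w x * w y * (dg C.tabMu (9 * G.rel a b + (3 * G.rel a c + G.rel b c)) *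
      (4 - 9 * G.hh a x y)) := by
    intro a b c
    have h1 : ∑ x, ∑ y, w x * w y * ((dg C.tabMu (9 * G.rel a b + (3 * G.rel a c + G.rel b c)) : ℝ) *
        (4 - 9 * G.hh a x y)) = dg C.tabMu (9 * G.rel a b + (3 * G.rel a c + G.rel b c)) * (4 - 9 * G.ee w a) := by
      have h2 : ∑ x, ∑ y, w x * w y = 1 := by
        rw [← Finset.sum_mul_sum, hs, one_mul]
      have h3 : (4 : ℝ) - 9 * G.ee w a = ∑ x, ∑ y, w x * w y * (4 - 9 * G.hh a x y) := by
        have h4' : ∑ x, ∑ y, w x * w y * (4 - 9 * G.hh a x y) =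
            4 * (∑ x, ∑ y, w x * w y) - 9 * (∑ x, ∑ y, w x * w y * G.hh a x y) := by
          rw [Finset.mul_sum, Finset.mul_sum, ← Finset.sum_sub_distrib]
          refine Finset.sum_congr rfl fun x _ => ?_
          rw [Finset.mul_sum, Finset.mul_sum, ← Finset.sum_sub_distrib]
          refine Finset.sum_congr rfl fun y _ => ?_
          ring
        rw [h4', h2]
        unfold OG.ee
        ring
      rw [h3, Finset.mul_sum]
      refine Finset.sum_congr rfl fun x _ => ?_
      rw [Finset.mul_sum]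
      refine Finset.sum_congr rfl fun y _ => ?_
      ring
    rw [h1]
    exact mul_nonneg (Nat.cast_nonneg _) (by linarith [he a])
  have key : ∑ a, ∑ b, ∑ c, ∑ x, ∑ y, w a * w b * w c * w x * w y *
      ((C.K : ℝ) - 140737488355328 - dg C.tabO (9 * G.rel a b + (3 * G.rel a c + G.rel b c))
        - C.DB * (G.t3 a b c * G.bad a b c x y)) =
      ∑ a, ∑ b, ∑ c, ∑ x, ∑ y, w a * w b * w c * w x * w y *
      ((HP C G.rel a b c x y : ℝ) - (HN C G.rel a b c x y : ℝ)) +
      (∑ a, ∑ b, ∑ c, w a * w b * w c * ∑ x, ∑ y, w x * w y * qq C (9 * G.rel a b + (3 * G.rel a c + G.rel b c))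
      (9 * G.rel a x + (3 * G.rel b x + G.rel c x)) (9 * G.rel a y + (3 * G.rel b y + G.rel c y))) +
      (∑ a, w a * ∑ b, ∑ c, ∑ x, ∑ y, (w b * w c) * (w x * w y) * q1 C (9 * G.rel a b + (3 * G.rel a c + G.rel b c))
      (9 * G.rel a x + (3 * G.rel a y + G.rel x y))) +
      (∑ a, ∑ b, ∑ c, w a * w b * w c * ∑ x, ∑ y, w x * w y *
        (dg C.tabMu (9 * G.rel a b + (3 * G.rel a c + G.rel b c)) * (4 - 9 * G.hh a x y))) := by
    simp only [Finset.mul_sum]
    simp only [← Finset.sum_add_distrib]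
    refine Finset.sum_congr rfl fun a _ => Finset.sum_congr rfl fun b _ => Finset.sum_congr rfl fun c _ =>
      Finset.sum_congr rfl fun x _ => Finset.sum_congr rfl fun y _ => ?_
    rw [eval]
    ring
  rw [key]
  have e1 : 0 ≤ ∑ a, ∑ b, ∑ c, w a * w b * w c * ∑ x, ∑ y, w x * w y *
      qq C (9 * G.rel a b + (3 * G.rel a c + G.rel b c))
      (9 * G.rel a x + (3 * G.rel b x + G.rel c x)) (9 * G.rel a y + (3 * G.rel b y + G.rel c y)) :=
    Finset.sum_nonneg fun a _ => Finset.sum_nonneg fun b _ => Finset.sum_nonneg fun c _ =>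
      mul_nonneg (mul_nonneg (mul_nonneg (hw a) (hw b)) (hw c)) (hq a b c)
  have e2 : 0 ≤ ∑ a, w a * ∑ b, ∑ c, ∑ x, ∑ y, (w b * w c) * (w x * w y) *
      q1 C (9 * G.rel a b + (3 * G.rel a c + G.rel b c)) (9 * G.rel a x + (3 * G.rel a y + G.rel x y)) :=
    Finset.sum_nonneg fun a _ => mul_nonneg (hw a) (hq1 a)
  have e3 : 0 ≤ ∑ a, ∑ b, ∑ c, w a * w b * w c * ∑ x, ∑ y, w x * w y *
        (dg C.tabMu (9 * G.rel a b + (3 * G.rel a c + G.rel b c)) * (4 - 9 * G.hh a x y)) :=
    Finset.sum_nonneg fun a _ => Finset.sum_nonneg fun b _ => Finset.sum_nonneg fun c _ =>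
      mul_nonneg (mul_nonneg (mul_nonneg (hw a) (hw b)) (hw c)) (hm a b c)
  linarith

end FDF
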