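import Pool.Agent.FDF.D1
/-! FDF: kernel verification of certificate 1, codes with r01 = 0 (helper3) -/
namespace FDF
set_option maxRecDepth 100000
theorem k1_000 : chkAll D1.C (M0 0 0 0) = true := by decide +kernel
theorem k1_001 : chkAll D1.C (M0 0 0 1) = true := by decide +kernel
theorem k1_002 : chkAll D1.C (M0 0 0 2) = true := by decide +kernel
theorem k1_010 : chkAll D1.C (M0 0 1 0) = true := by decide +kernel
theorem k1_011 : chkAll D1.C (M0 0 1 1) = true := by decide +kernel
theorem k1_012 : chkAll D1.C (M0 0 1 2) = true := by decide +kernel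
theorem k1_020 : chkAll D1.C (M0 0 2 0) = true := by decide +kernel
theorem k1_021 : chkAll D1.C (M0 0 2 1) = true := by decide +kernel
theorem k1_022 : chkAll D1.C (M0 0 2 2) = true := by decide +kernel
end FDF
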