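import Mathlib
import Pool.Agent.FDF.Ev
import Pool.Agent.FDF.Col
import Pool.Agent.FDF.KA0
import Pool.Agent.FDF.KA1
import Pool.Agent.FDF.KA2
import Pool.Agent.FDF.Psd1
/-! FDF: certificate 1 (helper3) -/
namespace FDF
open scoped BigOperators Classical

/-- 1 at zero -/
def zN (n : ℕ) : ℕ := if n = 0 then 1 else 0

theorem o1 : ∀ i < 3, ∀ j < 3, ∀ k < 3, dg D1.C.tabO (9 * i + (3 * j + k)) =
    D1.D * zN i + 7 * D1.D * (zN i * zN j * (1 - zN k) + zN i * (1 - zN j) * zN k + (1 - zN i) * zN j * zN k) := by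
  decide +kernel

namespace OG
variable {V : Type} (G : OG V)

lemma zN_rel (u v : V) : (zN (G.rel u v) : ℝ) = G.mm u v := by
  unfold zN mm
  by_cases h : G.adj u v
  · rw [if_neg (fun h' => (G.rel_eq_zero u v).mp h' h), if_pos h]; norm_num
  · rw [if_pos ((G.rel_eq_zero u v).mpr h), if_neg h]; norm_num

lemma zN_le (n : ℕ) : zN n ≤ 1 := by
  unfold zN; split_ifs <;> norm_num

lemma zN_sub (u v : V) : ((1 - zN (G.rel u v) : ℕ) : ℝ) = 1 - G.mm u v := by
  rw [Nat.cast_sub (zN_le _), zN_rel]; norm_num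

lemma O1 (a b c : V) : (dg D1.C.tabO (9 * G.rel a b + (3 * G.rel a c + G.rel b c)) : ℝ) =
    (D1.D : ℝ) * G.mm a b + 7 * (D1.D : ℝ) * G.t1 a b c := by
  rw [o1 _ (G.rel_lt a b) _ (G.rel_lt a c) _ (G.rel_lt b c)]
  push_cast
  rw [zN_sub, zN_sub, zN_sub, zN_rel, zN_rel, zN_rel]
  unfold t1
  ring

end OG

theorem chk1_all : ∀ u < 3, ∀ v < 3, ∀ w < 3, chkAll D1.C (M0 u v w) = true := by
  intro u hu v hv w hw
  interval_cases u <;> interval_cases v <;> interval_cases w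
  · exact k1_000
  · exact k1_001
  · exact k1_002
  · exact k1_010
  · exact k1_011
  · exact k1_012
  · exact k1_020
  · exact k1_021
  · exact k1_022
  · exact k1_100
  · exact k1_101
  · exact k1_102
  · exact k1_110
  · exact k1_111
  · exact k1_112
  · exact k1_120
  · exact k1_121
  · exact k1_122
  · exact k1_200
  · exact k1_201
  · exact k1_202
  · exact k1_210
  · exact k1_211
  · exact k1_212
  · exact k1_220
  · exact k1_221
  · exact k1_222

theorem psd1_all : ∀ s < 7, ∃ L lb n, psdB D1.C.tabQ L (s * 729) lb n = true := by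
  intro s hs
  interval_cases s
  · exact ⟨_, _, _, p1_0⟩
  · exact ⟨_, _, _, p1_1⟩
  · exact ⟨_, _, _, p1_2⟩
  · exact ⟨_, _, _, p1_3⟩
  · exact ⟨_, _, _, p1_4⟩
  · exact ⟨_, _, _, p1_5⟩
  · exact ⟨_, _, _, p1_6⟩

theorem stC1 : StC1 := by
  intro V _ G w h4 hw hs he
  have hm := master D1.C chk1_all psd1_all ⟨_, _, _, p1_q1⟩ G h4 w hw hs he
  have h1 : ∀ a b c x y : V, w a * w b * w c * w x * w y *
      ((D1.C.K : ℝ) - 140737488355328 - dg D1.C.tabO (9 * G.rel a b + (3 * G.rel a c + G.rel b c))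
        - D1.C.DB * (G.t3 a b c * G.bad a b c x y)) =
      w a * w b * w c * w x * w y * (((D1.C.K : ℝ) - 140737488355328) - (D1.D : ℝ) * G.mm a b - 7 * (D1.D : ℝ) * G.t1 a b c) := by
    intro a b c x y
    rw [G.O1 a b c]
    have : ((D1.C.DB : ℕ) : ℝ) = 0 := by norm_num [D1.C]
    rw [this]
    ring
  simp only [h1] at hm
  rw [col3 w hs (fun a b c => ((D1.C.K : ℝ) - 140737488355328) - (D1.D : ℝ) * G.mm a b - 7 * (D1.D : ℝ) * G.t1 a b c)] at hm
  have h2 : ∑ a, ∑ b, ∑ c, w a * w b * w c *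
      (((D1.C.K : ℝ) - 140737488355328) - (D1.D : ℝ) * G.mm a b - 7 * (D1.D : ℝ) * G.t1 a b c) =
      ((D1.C.K : ℝ) - 140737488355328) * (∑ a, ∑ b, ∑ c, w a * w b * w c)
        - (D1.D : ℝ) * (∑ a, ∑ b, ∑ c, w a * w b * w c * G.mm a b) - 7 * (D1.D : ℝ) * G.T1 w := by
    unfold OG.T1
    simp only [Finset.mul_sum, ← Finset.sum_sub_distrib]
    refine Finset.sum_congr rfl fun a _ => Finset.sum_congr rfl fun b _ => Finset.sum_congr rfl fun c _ => ?_
    ring
  rw [h2, col0 w hs, col2 w hs (fun a b => G.mm a b)] at hm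
  have h3 : ∑ a, ∑ b, w a * w b * G.mm a b = G.gam w + 1 / 3 := by
    unfold OG.gam
    have h4 : ∀ a, ∑ b, w a * w b * G.mm a b = w a * (G.nn w a - 1 / 3) + 1 / 3 * w a := by
      intro a
      unfold OG.nn
      simp only [mul_assoc]
      rw [← Finset.mul_sum]
      ring
    rw [Finset.sum_congr rfl fun a _ => h4 a, Finset.sum_add_distrib, ← Finset.mul_sum, hs]
    ring
  rw [h3] at hm
  have hD : ((D1.D : ℕ) : ℝ) = 53084160000 := by norm_num [D1.D]
  have hK : ((D1.C.K : ℕ) : ℝ) = 140737488355328 + 53084160000 / 10000 * 126 + 53084160000 / 3 := by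
    norm_num [D1.C, D1.K]
  rw [hD, hK] at hm
  linarith

end FDF
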