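import Pool.Agent.FDF.D2
import Pool.Agent.FDF.PsdB
/-! FDF: kernel verification of the factorisations of certificate 2 (helper3) -/
namespace FDF
set_option maxRecDepth 100000
theorem p2_0 : psdB D2.tabQ D2.tabL (0 * 729) (0 * 729) 27 = true := by decide +kernel
theorem p2_1 : psdB D2.tabQ D2.tabL (1 * 729) (1 * 729) 27 = true := by decide +kernel
theorem p2_2 : psdB D2.tabQ D2.tabL (2 * 729) (2 * 729) 27 = true := by decide +kernel
theorem p2_3 : psdB D2.tabQ D2.tabL (3 * 729) (3 * 729) 27 = true := by decide +kernel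
theorem p2_4 : psdB D2.tabQ D2.tabL (4 * 729) (4 * 729) 27 = true := by decide +kernel
theorem p2_5 : psdB D2.tabQ D2.tabL (5 * 729) (5 * 729) 27 = true := by decide +kernel
theorem p2_6 : psdB D2.tabQ D2.tabL (6 * 729) (6 * 729) 27 = true := by decide +kernel
theorem p2_q1 : psdB D2.tabQ1 D2.tabL1 0 0 15 = true := by decide +kernel
end FDF
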