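import Mathlib
import Pool.Agent.FDF.Ev
import Pool.Agent.FDF.Col
import Pool.Agent.FDF.KB0
import Pool.Agent.FDF.KB1
import Pool.Agent.FDF.KB2
import Pool.Agent.FDF.Psd2
/-! FDF: certificate 2 (helper3) -/
namespace FDF
open scoped BigOperators Classical

/-- 1 at one -/
def uN (n : ℕ) : ℕ := if n = 1 then 1 else 0

theorem o2 : ∀ i < 3, ∀ j < 3, ∀ k < 3, dg D2.C.tabO (9 * i + (3 * j + k)) +
    D2.D / 100 * allN (9 * i + (3 * j + k)) + D2.D / 27 * 20 * (3 * uN i + 3 * uN j) =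
    (D2.D / 100 + D2.D / 27 * 40) + D2.D / 27 * 20 * (9 * uN i * uN j + 1) := by
  decide +kernel

namespace OG
variable {V : Type} (G : OG V)

lemma uN_rel (u v : V) : (uN (G.rel u v) : ℝ) = G.aa u v := by
  unfold uN aa
  by_cases h : G.A u v
  · rw [if_pos ((G.rel_eq_one u v).mpr h), if_pos h]; norm_num
  · rw [if_neg (fun h' => h ((G.rel_eq_one u v).mp h')), if_neg h]; norm_num

lemma O2 (a b c : V) : (dg D2.C.tabO (9 * G.rel a b + (3 * G.rel a c + G.rel b c)) : ℝ) =
    53084160000 / 100 + 53084160000 / 27 * 40 - 53084160000 / 100 * G.t3 a b c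
      + 53084160000 / 27 * 20 * ((3 * G.aa a b - 1) * (3 * G.aa a c - 1)) := by
  have h := o2 _ (G.rel_lt a b) _ (G.rel_lt a c) _ (G.rel_lt b c)
  have h' : ((dg D2.C.tabO (9 * G.rel a b + (3 * G.rel a c + G.rel b c)) +
    D2.D / 100 * allN (9 * G.rel a b + (3 * G.rel a c + G.rel b c)) + D2.D / 27 * 20 * (3 * uN (G.rel a b) + 3 * uN (G.rel a c)) : ℕ) : ℝ) =
    (((D2.D / 100 + D2.D / 27 * 40) + D2.D / 27 * 20 * (9 * uN (G.rel a b) * uN (G.rel a c) + 1) : ℕ) : ℝ) := by
    rw [h]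
  have e1 : D2.D / 100 = 530841600 := by norm_num [D2.D]
  have e2 : D2.D / 27 = 1966080000 := by norm_num [D2.D]
  rw [e1, e2] at h'
  push_cast at h'
  rw [all_code', uN_rel, uN_rel] at h'
  linear_combination h'

end OG

theorem chk2_all : ∀ u < 3, ∀ v < 3, ∀ w < 3, chkAll D2.C (M0 u v w) = true := by
  intro u hu v hv w hw
  interval_cases u <;> interval_cases v <;> interval_cases w
  · exact k2_000
  · exact k2_001
  · exact k2_002
  · exact k2_010
  · exact k2_011
  · exact k2_012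
  · exact k2_020
  · exact k2_021
  · exact k2_022
  · exact k2_100
  · exact k2_101
  · exact k2_102
  · exact k2_110
  · exact k2_111
  · exact k2_112
  · exact k2_120
  · exact k2_121
  · exact k2_122
  · exact k2_200
  · exact k2_201
  · exact k2_202
  · exact k2_210
  · exact k2_211
  · exact k2_212
  · exact k2_220
  · exact k2_221
  · exact k2_222

theorem psd2_all : ∀ s < 7, ∃ L lb n, psdB D2.C.tabQ L (s * 729) lb n = true := by
  intro s hs
  interval_cases s
  · exact ⟨_, _, _, p2_0⟩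
  · exact ⟨_, _, _, p2_1⟩
  · exact ⟨_, _, _, p2_2⟩
  · exact ⟨_, _, _, p2_3⟩
  · exact ⟨_, _, _, p2_4⟩
  · exact ⟨_, _, _, p2_5⟩
  · exact ⟨_, _, _, p2_6⟩

theorem stC2 : StC2 := by
  intro V _ G w h4 hw hs he
  have hm := master D2.C chk2_all psd2_all ⟨_, _, _, p2_q1⟩ G h4 w hw hs he
  have hK : ((D2.C.K : ℕ) : ℝ) = 140737488355328 + 53084160000 / 100 + 53084160000 / 27 * 40 := by
    norm_num [D2.C, D2.K]
  have hB : ((D2.C.DB : ℕ) : ℝ) = 53084160000 := by norm_num [D2.C, D2.D]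
  have h1 : ∀ a b c x y : V, w a * w b * w c * w x * w y *
      ((D2.C.K : ℝ) - 140737488355328 - dg D2.C.tabO (9 * G.rel a b + (3 * G.rel a c + G.rel b c))
        - D2.C.DB * (G.t3 a b c * G.bad a b c x y)) =
      w a * w b * w c * w x * w y * (53084160000 / 100 * G.t3 a b c
      - 53084160000 / 27 * 20 * ((3 * G.aa a b - 1) * (3 * G.aa a c - 1))) -
      53084160000 * (w a * w b * w c * w x * w y * (G.t3 a b c * G.bad a b c x y)) := by
    intro a b c x y
    rw [G.O2 a b c, hK, hB]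
    ring
  simp only [h1, Finset.sum_sub_distrib] at hm
  rw [col3 w hs (fun a b c => 53084160000 / 100 * G.t3 a b c
      - 53084160000 / 27 * 20 * ((3 * G.aa a b - 1) * (3 * G.aa a c - 1)))] at hm
  have hb : ∑ a, ∑ b, ∑ c, ∑ x, ∑ y, 53084160000 * (w a * w b * w c * w x * w y * (G.t3 a b c * G.bad a b c x y)) =
      53084160000 * G.Bad5 w := by
    unfold OG.Bad5
    simp only [Finset.mul_sum]
  have h2 : ∑ a, ∑ b, ∑ c, w a * w b * w c *
      (53084160000 / 100 * G.t3 a b c - 53084160000 / 27 * 20 * ((3 * G.aa a b - 1) * (3 * G.aa a c - 1))) =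
      53084160000 / 100 * G.T0 w
        - 53084160000 / 27 * 20 * (∑ a, ∑ b, ∑ c, w a * w b * w c * ((3 * G.aa a b - 1) * (3 * G.aa a c - 1))) := by
    unfold OG.T0
    simp only [Finset.mul_sum, ← Finset.sum_sub_distrib]
    refine Finset.sum_congr rfl fun a _ => Finset.sum_congr rfl fun b _ => Finset.sum_congr rfl fun c _ => ?_
    ring
  have h3 : ∑ a, ∑ b, ∑ c, w a * w b * w c * ((3 * G.aa a b - 1) * (3 * G.aa a c - 1)) = 9 * G.E2 w := by
    unfold OG.E2
    rw [Finset.mul_sum]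
    refine Finset.sum_congr rfl fun a _ => ?_
    have h4 : ∑ b, w b * (3 * G.aa a b - 1) = 3 * (G.oo w a - 1 / 3) := by
      unfold OG.oo
      have : ∀ b, w b * (3 * G.aa a b - 1) = 3 * (w b * G.aa a b) - w b := by intro b; ring
      rw [Finset.sum_congr rfl fun b _ => this b, Finset.sum_sub_distrib, ← Finset.mul_sum, hs]
      ring
    have h5 : ∑ b, ∑ c, w a * w b * w c * ((3 * G.aa a b - 1) * (3 * G.aa a c - 1)) =
        w a * ((∑ b, w b * (3 * G.aa a b - 1)) * (∑ c, w c * (3 * G.aa a c - 1))) := by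
      rw [Finset.sum_mul_sum, Finset.mul_sum]
      refine Finset.sum_congr rfl fun b _ => ?_
      rw [Finset.mul_sum]
      refine Finset.sum_congr rfl fun c _ => ?_
      ring
    rw [h5, h4]
    ring
  rw [hb, h2, h3] at hm
  linarith

end FDF
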