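import Pool.Agent.FDF.ResDefs
/-! FDF-Low. Turán's construction. PLAN. `A u v := (v : ℕ) % 3 = ((u : ℕ) + 1) % 3` on `Fin n` (balanced complete 3-partite orgraph,
cyclically oriented). `IsOrgraph`: omega. `NoInducedC4`: nonadjacent = same class, so a cycle a→b→c→d→a with a,c in one class and b = a+1,
c = b + 1 = a + 2: contradiction (omega on residues). Edges of `fdf A`: a 3-set {a,b,c} with residues {0,1,2}, or two equal residues i,i and
one i+1. Lower bound for the number: with m = n / 3 every residue class contains at least m elements (3 j + i < n for j < m).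
The map p ↦ {p.1, p.2.1, p.2.2} from ordered triples of different vertices to 3-sets is 6 : 1 (at most 6 : 1 is enough: a 3-set has 6
orderings), ordered triples: residues (i,j,k) a permutation of (0,1,2): 6 m³; residues two equal and the third larger by one: 9 patterns,
each at least m (m-1) m: in total 6 #E ≥ 6 m³ + 9 m² (m-1). Any other way of counting is fine (for instance injections: m³ transversals
`(a,b,c) ∈ (Fin m)^3 ↦ {3a, 3b+1, 3c+2}` and for each i the `m * C(m,2)` sets {3a+i, 3b+i, 3c+(i+1)%3}, a < b). -/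
namespace FDF.Res
open Finset
open scoped BigOperators Classical

/-- The orgraph of Turán's construction. -/
private def lowA (n : ℕ) : Fin n → Fin n → Prop := fun u v => (v : ℕ) % 3 = ((u : ℕ) + 1) % 3

private theorem low_mem {n : ℕ} {u v w : Fin n} (huv : u ≠ v) (huw : u ≠ w) (hvw : v ≠ w)
    (h : ((v : ℕ) % 3 = ((u : ℕ) + 1) % 3 ∧ (w : ℕ) % 3 = ((v : ℕ) + 1) % 3) ∨
      ((v : ℕ) % 3 = (u : ℕ) % 3 ∧ (w : ℕ) % 3 = ((u : ℕ) + 1) % 3)) :
    ({u, v, w} : Finset (Fin n)) ∈ fdf (lowA n) := by
  unfold fdf
  rw [mem_filter, mem_powersetCard]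
  refine ⟨⟨subset_univ _, card_eq_three.mpr ⟨u, v, w, huv, huw, hvw, rfl⟩⟩, ?_⟩
  have hu : u ∈ ({u, v, w} : Finset (Fin n)) := by simp
  have hv : v ∈ ({u, v, w} : Finset (Fin n)) := by simp
  have hw : w ∈ ({u, v, w} : Finset (Fin n)) := by simp
  rintro ⟨x, hx, h1⟩
  simp only [mem_insert, mem_singleton] at hx
  unfold lowA at h1
  rcases hx with rfl | rfl | rfl
  · rcases h1 with h1 | h1
    · have h2 := (h1 v hv huv.symm).1
      have h3 := (h1 w hw huw.symm).1
      omega
    · have h2 := h1 v hv huv.symm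
      have h3 := h1 w hw huw.symm
      omega
  · rcases h1 with h1 | h1
    · have h2 := (h1 u hu huv).1
      have h3 := (h1 w hw hvw.symm).1
      omega
    · have h2 := h1 u hu huv
      have h3 := h1 w hw hvw.symm
      omega
  · rcases h1 with h1 | h1
    · have h2 := h1 u hu huw
      have h3 := h1 v hv hvw
      omega
    · have h2 := h1 u hu huw
      have h3 := h1 v hv hvw
      omega

theorem low (n : ℕ) : ∃ A : Fin n → Fin n → Prop, IsOrgraph A ∧ NoInducedC4 A ∧
    15 * (n / 3) ^ 3 ≤ 6 * (fdf A).card + 9 * (n / 3) ^ 2 := by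
  refine ⟨lowA n, ?_, ?_, ?_⟩
  · intro u v h1 h2
    unfold lowA at h1 h2
    omega
  · rintro ⟨a, b, c, d, h1, h2, h3, h4, h5, h6, h7, h8⟩
    unfold lowA at h1 h2 h3 h4 h5 h6 h7 h8
    omega
  rcases Nat.eq_zero_or_pos n with rfl | hn
  · simp
  obtain ⟨m, hm⟩ : ∃ m, m = n / 3 := ⟨_, rfl⟩
  rw [← hm]
  have hmn : 3 * m ≤ n := by omega
  let g : ℕ → Fin n := fun x => ⟨x % n, Nat.mod_lt _ hn⟩
  have hg : ∀ x, x < n → ((g x : Fin n) : ℕ) = x := fun x hx => Nat.mod_eq_of_lt hx
  let f : ((ℕ × ℕ) × ℕ) ⊕ ((ℕ × ℕ) × (Σ _ : ℕ, ℕ)) → Finset (Fin n) := fun p =>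
    match p with
    | Sum.inl q => {g (3 * q.1.1), g (3 * q.1.2 + 1), g (3 * q.2 + 2)}
    | Sum.inr q => {g (3 * q.2.1 + q.1.1), g (3 * q.2.2 + q.1.1), g (3 * q.1.2 + (q.1.1 + 1) % 3)}
  let D : Finset (((ℕ × ℕ) × ℕ) ⊕ ((ℕ × ℕ) × (Σ _ : ℕ, ℕ))) :=
    ((range m ×ˢ range m) ×ˢ range m).disjSum
      ((range 3 ×ˢ range m) ×ˢ ((range m).sigma fun b => range b))
  have hne : ∀ x y, x < n → y < n → x ≠ y → g x ≠ g y := by
    intro x y hx hy hxy h1
    apply hxy
    rw [← hg x hx, ← hg y hy, h1]
  have hcard : D.card ≤ (fdf (lowA n)).card := by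
    refine card_le_card_of_injOn f ?_ ?_
    · intro p hp
      rcases p with ⟨⟨a, b⟩, c⟩ | ⟨⟨i, c⟩, ⟨b, a⟩⟩
      · simp only [D, mem_coe, inl_mem_disjSum, mem_product, mem_range] at hp
        change ({g (3 * a), g (3 * b + 1), g (3 * c + 2)} : Finset (Fin n)) ∈ fdf (lowA n)
        refine low_mem (hne _ _ (by omega) (by omega) (by omega))
          (hne _ _ (by omega) (by omega) (by omega)) (hne _ _ (by omega) (by omega) (by omega)) ?_
        rw [hg _ (by omega), hg _ (by omega), hg _ (by omega)]
        omega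
      · simp only [D, mem_coe, inr_mem_disjSum, mem_product, mem_range, mem_sigma] at hp
        change ({g (3 * b + i), g (3 * a + i), g (3 * c + (i + 1) % 3)} : Finset (Fin n)) ∈
          fdf (lowA n)
        refine low_mem (hne _ _ (by omega) (by omega) (by omega))
          (hne _ _ (by omega) (by omega) (by omega)) (hne _ _ (by omega) (by omega) (by omega)) ?_
        rw [hg _ (by omega), hg _ (by omega), hg _ (by omega)]
        omega
    · -- injectivity
      have key : ∀ x y z x' y' z' : ℕ, x < n → y < n → z < n → x' < n → y' < n → z' < n →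
          ({g x, g y, g z} : Finset (Fin n)) = {g x', g y', g z'} →
          (x = x' ∨ x = y' ∨ x = z') ∧ (y = x' ∨ y = y' ∨ y = z') ∧
            (z = x' ∨ z = y' ∨ z = z') := by
        intro x y z x' y' z' hx hy hz hx' hy' hz' h1
        have h2 : ∀ w, w < n → g w ∈ ({g x, g y, g z} : Finset (Fin n)) →
            (w = x' ∨ w = y' ∨ w = z') := by
          intro w hw h3
          rw [h1] at h3
          simp only [mem_insert, mem_singleton] at h3
          rcases h3 with h3 | h3 | h3
          · left
            rw [← hg w hw, h3, hg x' hx']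
          · right; left
            rw [← hg w hw, h3, hg y' hy']
          · right; right
            rw [← hg w hw, h3, hg z' hz']
        exact ⟨h2 x hx (by simp), h2 y hy (by simp), h2 z hz (by simp)⟩
      intro p hp q hq hpq
      rcases p with ⟨⟨a, b⟩, c⟩ | ⟨⟨i, c⟩, ⟨b, a⟩⟩ <;>
        rcases q with ⟨⟨a', b'⟩, c'⟩ | ⟨⟨i', c'⟩, ⟨b', a'⟩⟩
      · simp only [D, mem_coe, inl_mem_disjSum, mem_product, mem_range] at hp hq
        have h1 := key (3 * a) (3 * b + 1) (3 * c + 2) (3 * a') (3 * b' + 1) (3 * c' + 2)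
          (by omega) (by omega) (by omega) (by omega) (by omega) (by omega) hpq
        have e1 : a = a' := by omega
        have e2 : b = b' := by omega
        have e3 : c = c' := by omega
        rw [e1, e2, e3]
      · exfalso
        simp only [D, mem_coe, inl_mem_disjSum, inr_mem_disjSum, mem_product, mem_range,
          mem_sigma] at hp hq
        have h1 := key (3 * a) (3 * b + 1) (3 * c + 2) (3 * b' + i') (3 * a' + i')
          (3 * c' + (i' + 1) % 3)
          (by omega) (by omega) (by omega) (by omega) (by omega) (by omega) hpq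
        omega
      · exfalso
        simp only [D, mem_coe, inl_mem_disjSum, inr_mem_disjSum, mem_product, mem_range,
          mem_sigma] at hp hq
        have h1 := key (3 * a') (3 * b' + 1) (3 * c' + 2) (3 * b + i) (3 * a + i)
          (3 * c + (i + 1) % 3)
          (by omega) (by omega) (by omega) (by omega) (by omega) (by omega) hpq.symm
        omega
      · simp only [D, mem_coe, inr_mem_disjSum, mem_product, mem_range,
          mem_sigma] at hp hq
        have h1 := key (3 * b + i) (3 * a + i) (3 * c + (i + 1) % 3) (3 * b' + i') (3 * a' + i')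
          (3 * c' + (i' + 1) % 3)
          (by omega) (by omega) (by omega) (by omega) (by omega) (by omega) hpq
        have h2 := key (3 * b' + i') (3 * a' + i') (3 * c' + (i' + 1) % 3) (3 * b + i) (3 * a + i)
          (3 * c + (i + 1) % 3)
          (by omega) (by omega) (by omega) (by omega) (by omega) (by omega) hpq.symm
        have e0 : i = i' := by omega
        subst e0
        have e1 : a = a' := by omega
        have e2 : b = b' := by omega
        have e3 : c = c' := by omega
        rw [e1, e2, e3]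
  have hD : D.card = m * m * m + 3 * m * ∑ b ∈ range m, b := by
    simp only [D, card_disjSum, card_product, card_range, card_sigma]
  have hS := Finset.sum_range_id_mul_two m
  rw [hD] at hcard
  rcases Nat.eq_zero_or_pos m with h0 | h0
  · rw [h0]
    simp
  · obtain ⟨k, rfl⟩ : ∃ k, m = k + 1 := ⟨m - 1, by omega⟩
    rw [Nat.add_sub_cancel] at hS
    nlinarith [hcard, hS]

end FDF.Res
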