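import Pool.Agent.FDF.Rel
/-! FDF-OptEx. Existence of an optimal counterexample (compactness + first variation). PLAN:
(1) The set of `w ≥ 0, ∑ w = 1` is compact (`isCompact_stdSimplex ℝ V` or IsCompact of stdSimplex), `dd` is continuous (finite sums and
products: `continuity`/`fun_prop`), so there is a minimiser `w1`, `dd w1 ≤ dd w < 4/9`.
(2) First variation: for v and t ∈ [0,1], `w_t = (1-t) w1 + t 1_v` is in the simplex, so `dd w_t ≥ dd w1`;
 `dd w_t = (1-t)^3 dd w1 + 3 (1-t)^2 t ee w1 v + t² (...)` (hh is symmetric in its three arguments: prove `hh_perm`), so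
 `3 t (ee v - dd) ≥ - C t²` for all t ∈ (0,1], i.e. `ee w1 v ≥ dd w1`. Simplest: the function t ↦ dd w_t is a polynomial of degree 3,
 `HasDerivAt` at 0 ... or by hand: put P(t) = dd w_t - dd w1 = a t + b t² + c t³ ≥ 0 on [0,1] implies a ≥ 0, a = 3 (ee v - dd).
(3) `∑ w1 v (ee v - dd) = 0`, so `ee v = dd` whenever `w1 v > 0`.
(4) Restrict to the support `V' = {v // 0 < w1 v}`, `G'.A u v = G.A u v`: sums over V' equal sums over V (the weights outside vanish:
 `Finset.sum_subtype`-like lemma; prove once: `∑ v : V', F v = ∑ v, if 0 < w1 v then F v else 0`, and all summands carry the factor w1). -/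
namespace FDF
open Finset
open scoped BigOperators Classical
namespace OG

section tri
variable {V : Type} (G : OG V)

private lemma hit_swap12 (a b c : V) : G.hit a b c ↔ G.hit b a c := by
  unfold hit
  have h1 := G.adj_comm a b
  have h2 := G.adj_comm a c
  have h3 := G.adj_comm b c
  tauto

private lemma hit_swap23 (a b c : V) : G.hit a b c ↔ G.hit a c b := by
  unfold hit
  have h1 := G.adj_comm a b
  have h2 := G.adj_comm a c
  have h3 := G.adj_comm b c
  tauto

private lemma hh_swap12 (a b c : V) : G.hh a b c = G.hh b a c := by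
  unfold hh
  rw [G.hit_swap12 a b c]

private lemma hh_swap23 (a b c : V) : G.hh a b c = G.hh a c b := by
  unfold hh
  rw [G.hit_swap23 a b c]

variable [Fintype V]

private noncomputable def B3f (x y z : V → ℝ) : ℝ :=
  ∑ a, ∑ b, ∑ c, x a * y b * z c * G.hh a b c

private lemma B3f_add1 (x x' y z : V → ℝ) (t : ℝ) :
    G.B3f (fun v => x v + t * x' v) y z = G.B3f x y z + t * G.B3f x' y z := by
  unfold B3f
  rw [Finset.mul_sum, ← Finset.sum_add_distrib]
  refine Finset.sum_congr rfl fun a _ => ?_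
  rw [Finset.mul_sum, ← Finset.sum_add_distrib]
  refine Finset.sum_congr rfl fun b _ => ?_
  rw [Finset.mul_sum, ← Finset.sum_add_distrib]
  refine Finset.sum_congr rfl fun c _ => ?_
  ring

private lemma B3f_swap12 (x y z : V → ℝ) : G.B3f x y z = G.B3f y x z := by
  unfold B3f
  rw [Finset.sum_comm]
  refine Finset.sum_congr rfl fun a _ => Finset.sum_congr rfl fun b _ =>
    Finset.sum_congr rfl fun c _ => ?_
  rw [G.hh_swap12 b a c]
  ring

private lemma B3f_swap23 (x y z : V → ℝ) : G.B3f x y z = G.B3f x z y := by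
  unfold B3f
  refine Finset.sum_congr rfl fun a _ => ?_
  rw [Finset.sum_comm]
  refine Finset.sum_congr rfl fun b _ =>
    Finset.sum_congr rfl fun c _ => ?_
  rw [G.hh_swap23 a c b]
  ring

private lemma B3f_add2 (x y y' z : V → ℝ) (t : ℝ) :
    G.B3f x (fun v => y v + t * y' v) z = G.B3f x y z + t * G.B3f x y' z := by
  rw [G.B3f_swap12, G.B3f_add1, G.B3f_swap12 y x z, G.B3f_swap12 y' x z]

private lemma B3f_add3 (x y z z' : V → ℝ) (t : ℝ) :
    G.B3f x y (fun v => z v + t * z' v) = G.B3f x y z + t * G.B3f x y z' := by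
  rw [G.B3f_swap23, G.B3f_add2, G.B3f_swap23 x z y, G.B3f_swap23 x z' y]

private lemma dd_eq (w : V → ℝ) : G.dd w = G.B3f w w w := by
  unfold dd ee B3f
  refine Finset.sum_congr rfl fun a _ => ?_
  rw [Finset.mul_sum]
  refine Finset.sum_congr rfl fun b _ => ?_
  rw [Finset.mul_sum]
  refine Finset.sum_congr rfl fun c _ => ?_
  ring

private lemma B3f_ee (x w : V → ℝ) : G.B3f x w w = ∑ a, x a * G.ee w a := by
  unfold ee B3f
  refine Finset.sum_congr rfl fun a _ => ?_
  rw [Finset.mul_sum]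
  refine Finset.sum_congr rfl fun b _ => ?_
  rw [Finset.mul_sum]
  refine Finset.sum_congr rfl fun c _ => ?_
  ring

private lemma dd_line (w d : V → ℝ) (t : ℝ) :
    G.dd (fun v => w v + t * d v) = G.dd w + (3 * ∑ a, d a * G.ee w a) * t +
      (3 * G.B3f d d w) * t ^ 2 + G.B3f d d d * t ^ 3 := by
  rw [G.dd_eq, G.dd_eq, G.B3f_add1, G.B3f_add2, G.B3f_add2, G.B3f_add3, G.B3f_add3,
    G.B3f_add3, G.B3f_add3, ← G.B3f_ee d w]
  have h1 : G.B3f w d w = G.B3f d w w := G.B3f_swap12 _ _ _
  have h2 : G.B3f w w d = G.B3f d w w := by rw [G.B3f_swap23, G.B3f_swap12]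
  have h3 : G.B3f d w d = G.B3f d d w := G.B3f_swap23 _ _ _
  have h4 : G.B3f w d d = G.B3f d d w := by rw [G.B3f_swap12, G.B3f_swap23]
  rw [h1, h2, h3, h4]
  ring

private lemma dd_cont : Continuous fun w : V → ℝ => G.dd w := by
  unfold dd ee
  fun_prop

end tri

private lemma coef_nonneg {a b c : ℝ}
    (h : ∀ t : ℝ, 0 < t → t ≤ 1 → 0 ≤ a * t + b * t ^ 2 + c * t ^ 3) : 0 ≤ a := by
  by_contra ha
  push Not at ha
  have hM : 0 < |b| + |c| + 1 := by positivity
  obtain ⟨t, ht0, ht1, ht2⟩ : ∃ t : ℝ, 0 < t ∧ t ≤ 1 ∧ (|b| + |c| + 1) * t ≤ -a / 2 := by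
    refine ⟨min 1 (-a / (2 * (|b| + |c| + 1))), ?_, min_le_left _ _, ?_⟩
    · refine lt_min one_pos ?_
      apply div_pos (by linarith) (by positivity)
    · have h1 : min 1 (-a / (2 * (|b| + |c| + 1))) ≤ -a / (2 * (|b| + |c| + 1)) := min_le_right _ _
      calc (|b| + |c| + 1) * min 1 (-a / (2 * (|b| + |c| + 1)))
          ≤ (|b| + |c| + 1) * (-a / (2 * (|b| + |c| + 1))) :=
            mul_le_mul_of_nonneg_left h1 hM.le
        _ = -a / 2 := by field_simp
  have h1 := h t ht0 ht1
  have h2 : a * t + b * t ^ 2 + c * t ^ 3 = t * (a + b * t + c * t ^ 2) := by ring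
  rw [h2] at h1
  have h3 : 0 ≤ a + b * t + c * t ^ 2 := by
    by_contra hneg
    push Not at hneg
    have := mul_neg_of_pos_of_neg ht0 hneg
    linarith
  have h4 : b * t ≤ |b| * t := mul_le_mul_of_nonneg_right (le_abs_self b) ht0.le
  have h5 : c * t ^ 2 ≤ |c| * t := by
    have h6 : t ^ 2 ≤ t := by nlinarith
    calc c * t ^ 2 ≤ |c| * t ^ 2 := mul_le_mul_of_nonneg_right (le_abs_self c) (by positivity)
      _ ≤ |c| * t := mul_le_mul_of_nonneg_left h6 (abs_nonneg c)
  nlinarith

private lemma sum_supp {V : Type} [Fintype V] (w : V → ℝ) (hw : ∀ v, 0 ≤ w v) (H : V → ℝ) :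
    ∑ v : {v : V // 0 < w v}, w v * H v = ∑ v, w v * H v := by
  rw [← Finset.sum_subtype (Finset.univ.filter fun v => 0 < w v) (by simp) (fun v => w v * H v)]
  refine Finset.sum_filter_of_ne fun v _ hv => ?_
  rcases (hw v).lt_or_eq with h | h
  · exact h
  · exact absurd (by rw [← h, zero_mul]) hv

theorem exists_opt {V : Type} [Fintype V] (G : OG V) (h4 : G.NoC4) (w : V → ℝ) (hw : ∀ v, 0 ≤ w v)
    (hs : ∑ v, w v = 1) (hlow : G.dd w < 4 / 9) :
    ∃ (V' : Type) (_ : Fintype V') (G' : OG V') (w' : V' → ℝ), G'.Opt w' := by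
  obtain ⟨w1, hw1, hmin⟩ := (isCompact_stdSimplex ℝ V).exists_isMinOn ⟨w, hw, hs⟩
    G.dd_cont.continuousOn
  obtain ⟨hw1n, hw1s⟩ := hw1
  have hle : G.dd w1 ≤ G.dd w := hmin (show w ∈ stdSimplex ℝ V from ⟨hw, hs⟩)
  have hee : ∀ v, G.dd w1 ≤ G.ee w1 v := by
    intro v
    have key : 0 ≤ 3 * ∑ a, ((if a = v then (1 : ℝ) else 0) - w1 a) * G.ee w1 a := by
      refine coef_nonneg (b := 3 * G.B3f (fun a => (if a = v then (1 : ℝ) else 0) - w1 a)
        (fun a => (if a = v then (1 : ℝ) else 0) - w1 a) w1)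
        (c := G.B3f (fun a => (if a = v then (1 : ℝ) else 0) - w1 a)
          (fun a => (if a = v then (1 : ℝ) else 0) - w1 a)
          (fun a => (if a = v then (1 : ℝ) else 0) - w1 a)) ?_
      intro t ht0 ht1
      have hmem : (fun a => w1 a + t * ((if a = v then (1 : ℝ) else 0) - w1 a)) ∈
          stdSimplex ℝ V := by
        constructor
        · intro a
          have h0 : (0 : ℝ) ≤ if a = v then (1 : ℝ) else 0 := by split_ifs <;> norm_num
          have h1 : 0 ≤ (1 - t) * w1 a := mul_nonneg (by linarith) (hw1n a)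
          have h2 : 0 ≤ t * (if a = v then (1 : ℝ) else 0) := mul_nonneg ht0.le h0
          have h3 : w1 a + t * ((if a = v then (1 : ℝ) else 0) - w1 a) =
            (1 - t) * w1 a + t * (if a = v then (1 : ℝ) else 0) := by ring
          change 0 ≤ w1 a + t * ((if a = v then (1 : ℝ) else 0) - w1 a)
          rw [h3]
          linarith
        · rw [Finset.sum_add_distrib, ← Finset.mul_sum, Finset.sum_sub_distrib, hw1s]
          simp
      have h := hmin hmem
      have h5 : G.dd w1 ≤ G.dd (fun a => w1 a + t * ((if a = v then (1 : ℝ) else 0) - w1 a)) := h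
      rw [G.dd_line] at h5
      linarith
    have h6 : ∑ a, ((if a = v then (1 : ℝ) else 0) - w1 a) * G.ee w1 a =
        G.ee w1 v - G.dd w1 := by
      unfold dd
      simp only [sub_mul, Finset.sum_sub_distrib, ite_mul, one_mul, zero_mul,
        Finset.sum_ite_eq', Finset.mem_univ, if_true]
    rw [h6] at key
    linarith
  have hzero : ∀ v, w1 v * (G.ee w1 v - G.dd w1) = 0 := by
    have hsum : ∑ v, w1 v * (G.ee w1 v - G.dd w1) = 0 := by
      simp only [mul_sub, Finset.sum_sub_distrib]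
      rw [← Finset.sum_mul, hw1s, one_mul]
      exact sub_self _
    have := (Finset.sum_eq_zero_iff_of_nonneg (fun v _ =>
      mul_nonneg (hw1n v) (sub_nonneg.2 (hee v)))).1 hsum
    exact fun v => this v (Finset.mem_univ v)
  let V' : Type := {v : V // 0 < w1 v}
  let G' : OG V' := ⟨fun u v => G.A u v, fun u v h => G.asymm _ _ h⟩
  let w' : V' → ℝ := fun v => w1 v
  have hhh : ∀ a b c : V', G'.hh a b c = G.hh a b c := fun _ _ _ => rfl
  have hee' : ∀ v : V', G'.ee w' v = G.ee w1 v := by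
    intro v
    unfold ee
    have h1 : ∀ a : V', ∑ b : V', w' a * w' b * G'.hh v a b =
        w1 a * ∑ b, w1 b * G.hh v a b := by
      intro a
      rw [← sum_supp w1 hw1n (fun b => G.hh v a b), Finset.mul_sum]
      refine Finset.sum_congr rfl fun b _ => ?_
      rw [hhh]
      ring
    have h2 : ∀ a : V, ∑ b : V, w1 a * w1 b * G.hh v a b =
        w1 a * ∑ b, w1 b * G.hh v a b := by
      intro a
      rw [Finset.mul_sum]
      refine Finset.sum_congr rfl fun b _ => ?_
      ring
    rw [Finset.sum_congr rfl fun a _ => h1 a, Finset.sum_congr rfl fun a _ => h2 a]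
    exact sum_supp w1 hw1n (fun a => ∑ b, w1 b * G.hh v a b)
  have hdd' : G'.dd w' = G.dd w1 := by
    have h1 : G'.dd w' = ∑ v : V', w1 v * G.ee w1 v := by
      unfold dd
      refine Finset.sum_congr rfl fun v _ => ?_
      rw [hee']
    rw [h1]
    exact sum_supp w1 hw1n (fun v => G.ee w1 v)
  refine ⟨V', inferInstance, G', w', ?_, ?_, ?_, ?_, ?_⟩
  · intro a b c d h1 h2 h3 h5
    exact h4 a b c d h1 h2 h3 h5
  · exact fun v => v.2
  · have h1 := sum_supp w1 hw1n (fun _ => 1)
    simp only [mul_one] at h1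
    rw [hw1s] at h1
    exact h1
  · intro v
    rw [hee', hdd']
    have h1 := hzero v
    have h2 : w1 (v : V) ≠ 0 := (v.2).ne'
    have h3 := (mul_eq_zero.1 h1).resolve_left h2
    linarith
  · rw [hdd']
    exact lt_of_le_of_lt hle hlow

end OG
end FDF
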