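import Pool.Agent.FDF.B4
import Pool.Agent.FDF.Corner
import Pool.Agent.FDF.Num
import Pool.Agent.FDF.OptEx
/-! FDF-Main (helper3): no optimal counterexample. -/
namespace FDF
open Finset
open scoped BigOperators Classical
namespace OG
variable {V : Type} {G : OG V} [Fintype V] {w : V → ℝ}

theorem no_opt (h1 : StC1) (h2 : StC2) (h : G.Opt w) : False := by
  obtain ⟨f, hf⟩ := exists_Part h h1 h2
  obtain ⟨iA, iB, iC, m, l, e1, e2⟩ := hf.lab
  have hm0 : 0 < m := by
    have := l.sum; have := l.hA; have := l.hB; linarith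
  have hm1 : m ≤ 1 / 3 := by nlinarith
  set A : Finset V := univ.filter (fun v => f v = iA) with hA
  set B : Finset V := univ.filter (fun v => f v = iB) with hB
  have hAB : Disjoint A B := by
    rw [Finset.disjoint_left]
    intro v ha hb
    simp only [hA, hB, mem_filter, mem_univ, true_and] at ha hb
    exact l.ab (ha.symm.trans hb)
  have sA : ∑ a ∈ A, w a = pp w f iA := by rw [hA, Finset.sum_filter]; rfl
  have sB : ∑ a ∈ B, w a = pp w f iB := by rw [hB, Finset.sum_filter]; rfl
  have key := G.corner w h.c4 h.pos h.sum A B hAB m hm0 hm1 (by rw [sA]; exact l.hA.le)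
    (by rw [sB]; exact l.hB.le) (by rw [sA, sB]; have := l.sum; linarith)
  have hb1 : (∑ a ∈ A, w a * G.be w A B a + ∑ b ∈ B, w b * G.be w B A b) = B1 G w f iA iB := by
    unfold B1
    have e : ∀ v, w v * be1 G w f iA iB v =
        (if f v = iA then w v * G.be w A B v else 0) + (if f v = iB then w v * G.be w B A v else 0) := by
      intro v
      unfold be1
      by_cases h1 : f v = iA
      · have h2 : f v ≠ iB := by rw [h1]; exact l.ab
        rw [if_pos h1, if_pos h1, if_neg h2, add_zero]
        unfold be bin al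
        rw [hA, hB, Finset.sum_filter, Finset.sum_filter, h1]
      · rw [if_neg h1, if_neg h1]
        by_cases h2 : f v = iB
        · rw [if_pos h2, if_pos h2, zero_add]
          unfold be bin al
          rw [hA, hB, Finset.sum_filter, Finset.sum_filter, h2]
        · rw [if_neg h2, if_neg h2]; ring
    rw [Finset.sum_congr rfl (fun v _ => e v), Finset.sum_add_distrib, hA, hB, Finset.sum_filter,
      Finset.sum_filter]
  rw [hb1] at key
  have hb0 : 0 ≤ B1 G w f iA iB := by
    rw [← hb1]
    have hn : ∀ (P Q : Finset V) v, 0 ≤ G.be w P Q v := fun P Q v => by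
      unfold be
      refine add_nonneg (Finset.sum_nonneg fun u _ => mul_nonneg (h.pos u).le ?_)
        (Finset.sum_nonneg fun u _ => mul_nonneg (h.pos u).le (G.mm_nonneg v u))
      have := G.mm_le_one v u
      linarith
    exact add_nonneg (Finset.sum_nonneg fun u _ => mul_nonneg (h.pos u).le (hn _ _ u))
      (Finset.sum_nonneg fun u _ => mul_nonneg (h.pos u).le (hn _ _ u))
  rw [← lam_sq (fun v => (h.pos v).le)] at key
  exact num m _ _ hm0 hb0 key (hf.fin1 l e1 e2) (hf.fin2 l e1 e2)

theorem weighted (h1 : StC1) (h2 : StC2) (G : OG V) (h4 : G.NoC4) (w : V → ℝ) (hw : ∀ v, 0 ≤ w v)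
    (hs : ∑ v, w v = 1) : 4 / 9 ≤ G.dd w := by
  by_contra hc
  obtain ⟨V', _, G', w', ho⟩ := exists_opt G h4 w hw hs (not_le.1 hc)
  exact no_opt h1 h2 ho

end OG
end FDF
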