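import Pool.Agent.FDF.ResDefs
import Pool.Agent.FDF.Low
import Pool.Agent.FDF.Main
import Pool.Agent.FDF.Count
import Pool.Agent.FDF.Fin1
import Pool.Agent.FDF.Fin2
/-! FDF: the final theorems (helper3) -/
namespace FDF.Res
open Finset Filter
open scoped BigOperators Classical Topology

/-- the orgraph of a relation -/
def toOG {n : ℕ} (A : Fin n → Fin n → Prop) (h : IsOrgraph A) : OG (Fin n) := ⟨A, h⟩

lemma toOG_noC4 {n : ℕ} (A : Fin n → Fin n → Prop) (h : IsOrgraph A) (h4 : NoInducedC4 A) : (toOG A h).NoC4 := by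
  intro a b c d h1 h2 h3 h5
  by_contra hc
  rw [not_or] at hc
  obtain ⟨hc1, hc2⟩ := hc
  unfold OG.adj at hc1 hc2
  rw [not_or] at hc1 hc2
  exact h4 ⟨a, b, c, d, h1, h2, h3, h5, hc1.1, hc1.2, hc2.1, hc2.2⟩

lemma hitSet_eq {n : ℕ} (A : Fin n → Fin n → Prop) (h : IsOrgraph A) (s : Finset (Fin n)) (hs : s.card = 3) :
    (toOG A h).HitSet s ↔ ∃ x ∈ s, (∀ y ∈ s, y ≠ x → (¬ A x y ∧ ¬ A y x)) ∨ (∀ y ∈ s, y ≠ x → A x y) := by
  unfold OG.HitSet
  refine exists_congr fun x => and_congr_right fun hx => ?_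
  refine or_congr ?_ ?_
  · unfold OG.adj
    constructor
    · intro h1 y hy _
      have := h1 y hy
      rw [not_or] at this
      exact this
    · intro h1 y hy
      rw [not_or]
      by_cases hyx : y = x
      · subst hyx
        exact ⟨(toOG A h).A_irrefl y, (toOG A h).A_irrefl y⟩
      · exact h1 y hy hyx
  · constructor
    · rintro ⟨y, hy, z, hz, hyz, h1, h2⟩ u hu hux
      have hyx : y ≠ x := by
        intro e; subst e; exact (toOG A h).A_irrefl y h1
      have hzx : z ≠ x := by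
        intro e; subst e; exact (toOG A h).A_irrefl z h2
      by_contra hc
      have huy : u ≠ y := by
        intro e; subst e; exact hc h1
      have huz : u ≠ z := by
        intro e; subst e; exact hc h2
      have hsub : ({x, y, z, u} : Finset (Fin n)) ⊆ s := by
        intro t ht
        simp only [mem_insert, mem_singleton] at ht
        rcases ht with rfl | rfl | rfl | rfl <;> assumption
      have hcard : ({x, y, z, u} : Finset (Fin n)).card = 4 := by
        rw [card_insert_of_notMem, card_insert_of_notMem, card_insert_of_notMem, card_singleton]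
        · simp only [mem_singleton]; exact fun e => huz e.symm
        · simp only [mem_insert, mem_singleton, not_or]; exact ⟨hyz, fun e => huy e.symm⟩
        · simp only [mem_insert, mem_singleton, not_or]
          exact ⟨fun e => hyx e.symm, fun e => hzx e.symm, fun e => hux e.symm⟩
      have := card_le_card hsub
      omega
    · intro h1
      have he : (s.erase x).card = 2 := by rw [card_erase_of_mem hx, hs]
      obtain ⟨y, z, hyz, hyz2⟩ := card_eq_two.1 he
      have hy : y ∈ s.erase x := by rw [hyz2]; simp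
      have hz : z ∈ s.erase x := by rw [hyz2]; simp
      rw [mem_erase] at hy hz
      exact ⟨y, hy.2, z, hz.2, hyz, h1 y hy.2 hy.1, h1 z hz.2 hz.1⟩

lemma fdf_eq {n : ℕ} (A : Fin n → Fin n → Prop) (h : IsOrgraph A) :
    fdf A = ((univ : Finset (Fin n)).powersetCard 3).filter (fun s => ¬ (toOG A h).HitSet s) := by
  unfold fdf
  ext s
  simp only [mem_filter, mem_powersetCard]
  constructor
  · rintro ⟨h1, h2⟩
    exact ⟨h1, fun h3 => h2 ((hitSet_eq A h s h1.2).1 h3)⟩
  · rintro ⟨h1, h2⟩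
    exact ⟨h1, fun h3 => h2 ((hitSet_eq A h s h1.2).2 h3)⟩

/-- the upper bound -/
theorem upper {n : ℕ} (A : Fin n → Fin n → Prop) (h : IsOrgraph A) (h4 : NoInducedC4 A) :
    54 * (fdf A).card ≤ 5 * n ^ 3 := by
  have := (toOG A h).count (fun w hw hs => OG.weighted stC1 stC2 _ (toOG_noC4 A h h4) w hw hs)
  rw [Fintype.card_fin] at this
  rw [fdf_eq A h]
  exact this

/-- the complement: every 4-set contains a 3-set which is not an edge -/
theorem free {n : ℕ} (A : Fin n → Fin n → Prop) (h : IsOrgraph A) (h4 : NoInducedC4 A) (t : Finset (Fin n))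
    (ht : t.card = 4) : ∃ s ⊆ t, s.card = 3 ∧ s ∉ fdf A := by
  obtain ⟨s, hst, hs, hh⟩ := (toOG A h).four (toOG_noC4 A h h4) t ht
  refine ⟨s, hst, hs, ?_⟩
  rw [fdf_eq A h, mem_filter]
  exact fun hc => hc.2 hh

lemma exFDF_le (n : ℕ) : 54 * exFDF n ≤ 5 * n ^ 3 := by
  unfold exFDF
  have hne : {k | ∃ A : Fin n → Fin n → Prop, IsOrgraph A ∧ NoInducedC4 A ∧ k = (fdf A).card}.Nonempty := by
    obtain ⟨A, h1, h2, -⟩ := low n
    exact ⟨_, A, h1, h2, rfl⟩
  have hb : BddAbove {k | ∃ A : Fin n → Fin n → Prop, IsOrgraph A ∧ NoInducedC4 A ∧ k = (fdf A).card} := by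
    refine ⟨5 * n ^ 3, ?_⟩
    rintro k ⟨A, h1, h2, rfl⟩
    have := upper A h1 h2
    omega
  obtain ⟨A, h1, h2, h3⟩ := Nat.sSup_mem hne hb
  rw [h3]
  exact upper A h1 h2

lemma le_exFDF (n : ℕ) : 15 * (n / 3) ^ 3 ≤ 6 * exFDF n + 9 * (n / 3) ^ 2 := by
  obtain ⟨A, h1, h2, h3⟩ := low n
  have hb : BddAbove {k | ∃ A : Fin n → Fin n → Prop, IsOrgraph A ∧ NoInducedC4 A ∧ k = (fdf A).card} := by
    refine ⟨5 * n ^ 3, ?_⟩
    rintro k ⟨A, h1, h2, rfl⟩
    have := upper A h1 h2
    omega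
  have h4 : (fdf A).card ≤ exFDF n := le_csSup hb ⟨A, h1, h2, rfl⟩
  omega

end FDF.Res
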