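import Pool.Agent.FDF.Fin3
/-! FDF: the density (helper3) -/
namespace FDF.Res
open Finset Filter
open scoped BigOperators Classical Topology

lemma choose3 (n : ℕ) (hn : 2 ≤ n) : (6 : ℝ) * (n.choose 3 : ℝ) = (n : ℝ) * ((n : ℝ) - 1) * ((n : ℝ) - 2) := by
  have h := Nat.descFactorial_eq_factorial_mul_choose n 3
  have h3 : Nat.factorial 3 = 6 := rfl
  rw [h3] at h
  have h2 : n.descFactorial 3 = (n - 2) * ((n - 1) * n) := by
    simp [Nat.descFactorial]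
  rw [h2] at h
  have h' : (((n - 2) * ((n - 1) * n) : ℕ) : ℝ) = ((6 * n.choose 3 : ℕ) : ℝ) := by rw [h]
  rw [Nat.cast_mul, Nat.cast_mul, Nat.cast_mul, Nat.cast_sub hn, Nat.cast_sub (by omega : 1 ≤ n)] at h'
  push_cast at h'
  linarith

lemma bounds (n : ℕ) (hn : 6 ≤ n) :
    5 / 9 - 5 / (n : ℝ) ≤ (exFDF n : ℝ) / (n.choose 3 : ℝ) ∧
      (exFDF n : ℝ) / (n.choose 3 : ℝ) ≤ 5 / 9 + 5 / (n : ℝ) := by
  have hN : (6 : ℝ) ≤ (n : ℝ) := by exact_mod_cast hn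
  have hc := choose3 n (by omega)
  have hup : 54 * (exFDF n : ℝ) ≤ 5 * (n : ℝ) ^ 3 := by exact_mod_cast exFDF_le n
  have hlo0 : 15 * ((n / 3 : ℕ) : ℝ) ^ 3 ≤ 6 * (exFDF n : ℝ) + 9 * ((n / 3 : ℕ) : ℝ) ^ 2 := by exact_mod_cast le_exFDF n
  have hm1 : ((n / 3 : ℕ) : ℝ) * 3 ≤ (n : ℝ) := by
    have : (n / 3) * 3 ≤ n := Nat.div_mul_le_self n 3
    exact_mod_cast this
  have hm2 : (n : ℝ) - 2 ≤ ((n / 3 : ℕ) : ℝ) * 3 := by
    have : n ≤ (n / 3) * 3 + 2 := by omega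
    have h' : (n : ℝ) ≤ ((n / 3 : ℕ) : ℝ) * 3 + 2 := by exact_mod_cast this
    linarith
  set N : ℝ := (n : ℝ) with hNdef
  set C : ℝ := (n.choose 3 : ℝ) with hC
  have hNpos : 0 < N := by linarith
  have hCpos : 0 < C := by
    have : 0 < N * (N - 1) * (N - 2) := by
      have h1 : 0 < N - 1 := by linarith
      have h2 : 0 < N - 2 := by linarith
      positivity
    linarith
  set m : ℝ := ((n / 3 : ℕ) : ℝ) with hm
  have hm0 : 0 ≤ m := Nat.cast_nonneg _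
  have he0 : (0 : ℝ) ≤ (exFDF n : ℝ) := Nat.cast_nonneg _
  set e : ℝ := (exFDF n : ℝ) with he
  have hlo : 5 / 9 * (N - 2) ^ 3 - N ^ 2 ≤ 6 * e := by
    have h1 : (N - 2) ^ 3 ≤ (m * 3) ^ 3 := pow_le_pow_left₀ (by linarith) hm2 3
    have h2 : (m * 3) ^ 2 ≤ N ^ 2 := pow_le_pow_left₀ (by linarith) hm1 2
    nlinarith
  have hC3 : 6 * C ≤ N ^ 3 := by
    rw [hc]; nlinarith
  constructor
  · rw [le_div_iff₀ hCpos]
    have h1 : (5 / 9 - 5 / N) * C ≤ (5 / 9 - 5 / N) * C := le_rfl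
    by_cases h9 : N ≤ 9
    · have : 5 / 9 - 5 / N ≤ 0 := by
        rw [sub_nonpos, div_le_div_iff₀ (by norm_num) hNpos]; linarith
      nlinarith
    · have hpos : 0 ≤ 5 / 9 - 5 / N := by
        rw [sub_nonneg, div_le_div_iff₀ hNpos (by norm_num)]; linarith
      have h2 : (5 / 9 - 5 / N) * (6 * C) ≤ (5 / 9 - 5 / N) * N ^ 3 := mul_le_mul_of_nonneg_left hC3 hpos
      have h3 : (5 / 9 - 5 / N) * N ^ 3 = 5 / 9 * N ^ 3 - 5 * N ^ 2 := by field_simp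
      have h4 : 5 / 9 * N ^ 3 - 5 * N ^ 2 ≤ 5 / 9 * (N - 2) ^ 3 - N ^ 2 := by nlinarith
      linarith
  · rw [div_le_iff₀ hCpos]
    have h1 : (5 / 9 + 5 / N) * (6 * C) = (5 / 9 * N + 5) * ((N - 1) * (N - 2)) := by
      rw [hc]; field_simp
    have h2 : 6 * e ≤ (5 / 9 * N + 5) * ((N - 1) * (N - 2)) := by nlinarith
    linarith

theorem density : Tendsto (fun n : ℕ => (exFDF n : ℝ) / (n.choose 3 : ℝ)) atTop (𝓝 (5 / 9)) := by
  have h0 : Tendsto (fun n : ℕ => 5 / (n : ℝ)) atTop (𝓝 0) := tendsto_const_div_atTop_nhds_zero_nat 5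
  have h1 : Tendsto (fun n : ℕ => 5 / 9 - 5 / (n : ℝ)) atTop (𝓝 (5 / 9)) := by
    simpa using h0.const_sub (5 / 9 : ℝ)
  have h2 : Tendsto (fun n : ℕ => 5 / 9 + 5 / (n : ℝ)) atTop (𝓝 (5 / 9)) := by
    simpa using h0.const_add (5 / 9 : ℝ)
  refine tendsto_of_tendsto_of_tendsto_of_le_of_le' h1 h2 ?_ ?_
  · filter_upwards [eventually_ge_atTop 6] with n hn using (bounds n hn).1
  · filter_upwards [eventually_ge_atTop 6] with n hn using (bounds n hn).2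

end FDF.Res
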