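import Pool.Agent.FDF.Rel
/-! FDF-Four. PLAN. `hitSet_iff`: unfold, `simp` over the three elements (`not_adj_self`, `A_irrefl`, `adj_comm`), `tauto`.
`four`: s = {a,b,c,d} (Finset.card_eq_four? or `Finset.card_eq_succ`); suppose no 3-subset is hit. Then in every triple every vertex is
adjacent to some other one and no vertex has two out-neighbours. So each vertex of s has outdegree ≤ 1 in s; number of arcs in s ≤ 4;
each triple has at least 2 arcs (no vertex isolated in the triple); every arc lies in 2 triples: 2·arcs ≥ 8, so exactly 4 arcs, every vertex has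
outdegree exactly 1 and each triple exactly 2 arcs: the nonadjacency graph has 2 edges, one in each triple: a perfect matching; so the
arcs form a directed 4-cycle whose opposite pairs are nonadjacent: contradiction to NoC4. Alternative: brute force: the 6 relations of
the four vertices by `G.tri` (3^6 cases) and `simp`/`decide`; better first reduce to a `decide` statement over `Fin 3` codes. -/
namespace FDF

private def htb (ab ba ac ca bc cb : Bool) : Bool :=
  (!(ab || ba) && !(ac || ca)) || (!(ba || ab) && !(bc || cb)) || (!(ca || ac) && !(cb || bc)) ||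
    (ab && ac) || (ba && bc) || (ca && cb)

private def c4b (ab bc cd da ac ca bd db : Bool) : Bool :=
  ab && bc && cd && da && !((ac || ca) || (bd || db))

private def chk (ab ba ac ca ad da bc cb bd db cd dc : Bool) : Bool :=
  (ab && ba) || (ac && ca) || (ad && da) || (bc && cb) || (bd && db) || (cd && dc) ||
  htb ab ba ac ca bc cb || htb ab ba ad da bd db || htb ac ca ad da cd dc || htb bc cb bd db cd dc ||
  c4b ab bc cd da ac ca bd db || c4b ab bd dc ca ad da bc cb || c4b ac cb bd da ab ba cd dc ||
  c4b ac cd db ba ad da cb bc || c4b ad db bc ca ab ba dc cd || c4b ad dc cb ba ac ca db bd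

private def chk6 (ab ba ac ca ad da : Bool) : Bool :=
  decide (∀ bc cb bd db cd dc : Bool, chk ab ba ac ca ad da bc cb bd db cd dc = true)

private lemma key6 : ∀ ab ba ac ca ad da : Bool, chk6 ab ba ac ca ad da = true := by
  decide +kernel

private lemma key (ab ba ac ca ad da bc cb bd db cd dc : Bool) :
    chk ab ba ac ca ad da bc cb bd db cd dc = true :=
  of_decide_eq_true (key6 ab ba ac ca ad da) bc cb bd db cd dc

private lemma htb_iff : ∀ ab ba ac ca bc cb : Bool, htb ab ba ac ca bc cb = true →
    (¬ (ab = true ∨ ba = true) ∧ ¬ (ac = true ∨ ca = true)) ∨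
      (¬ (ba = true ∨ ab = true) ∧ ¬ (bc = true ∨ cb = true)) ∨
      (¬ (ca = true ∨ ac = true) ∧ ¬ (cb = true ∨ bc = true)) ∨
      (ab = true ∧ ac = true) ∨ (ba = true ∧ bc = true) ∨ (ca = true ∧ cb = true) := by
  decide +kernel

private lemma and_t : ∀ a b : Bool, (a && b) = true → a = true ∧ b = true := by
  decide

private lemma nor_t : ∀ ac ca bd db : Bool, (!((ac || ca) || (bd || db))) = true →
    ¬ ((ac = true ∨ ca = true) ∨ (bd = true ∨ db = true)) := by
  decide

private lemma c4b_iff (ab bc cd da ac ca bd db : Bool) (h : c4b ab bc cd da ac ca bd db = true) :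
    ab = true ∧ bc = true ∧ cd = true ∧ da = true ∧ ¬ ((ac = true ∨ ca = true) ∨ (bd = true ∨ db = true)) := by
  unfold c4b at h
  obtain ⟨h, h5⟩ := and_t _ _ h
  obtain ⟨h, h4⟩ := and_t _ _ h
  obtain ⟨h, h3⟩ := and_t _ _ h
  obtain ⟨h1, h2⟩ := and_t _ _ h
  exact ⟨h1, h2, h3, h4, nor_t _ _ _ _ h5⟩

open Finset
open scoped BigOperators Classical
namespace OG
variable {V : Type} (G : OG V)

/-- the 3-set `s` is hit: it has a vertex adjacent to no other vertex of `s`, or a vertex with two out-neighbours in `s` -/
def HitSet (s : Finset V) : Prop :=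
  ∃ x ∈ s, (∀ y ∈ s, ¬ G.adj x y) ∨ (∃ y ∈ s, ∃ z ∈ s, y ≠ z ∧ G.A x y ∧ G.A x z)

theorem hitSet_iff (a b c : V) (hab : a ≠ b) (hac : a ≠ c) (hbc : b ≠ c) :
    G.HitSet {a, b, c} ↔ G.hit a b c := by
  have ha := G.A_irrefl a
  have hb := G.A_irrefl b
  have hc := G.A_irrefl c
  unfold HitSet hit adj
  simp only [Finset.mem_insert, Finset.mem_singleton, exists_eq_or_imp, forall_eq_or_imp, forall_eq,
    exists_eq_left, ha, hb, hc, hab, hac, hbc, hab.symm, hac.symm, hbc.symm, ne_eq, not_true_eq_false,
    not_false_eq_true, false_and, and_false, or_false, false_or, true_and, and_true, or_self]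
  tauto

/-- every 4-set of vertices contains a hit 3-set (Fon-der-Flaass 1988) -/
theorem four (h4 : G.NoC4) (s : Finset V) (hs : s.card = 4) : ∃ t ⊆ s, t.card = 3 ∧ G.HitSet t := by
  obtain ⟨a, s3, has, rfl, hs3⟩ := Finset.card_eq_succ.mp hs
  obtain ⟨b, c, d, hbc, hbd, hcd, rfl⟩ := Finset.card_eq_three.mp hs3
  simp only [Finset.mem_insert, Finset.mem_singleton, not_or] at has
  obtain ⟨hab, hac, had⟩ := has
  by_contra hcon
  have H : ∀ x y z : V, x ≠ y → x ≠ z → y ≠ z → ({x, y, z} : Finset V) ⊆ insert a {b, c, d} → ¬ G.hit x y z := by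
    intro x y z hxy hxz hyz hsub hh
    exact hcon ⟨{x, y, z}, hsub, Finset.card_eq_three.mpr ⟨x, y, z, hxy, hxz, hyz, rfl⟩,
      (G.hitSet_iff x y z hxy hxz hyz).mpr hh⟩
  have h1 := H a b c hab hac hbc (by intro x; simp only [Finset.mem_insert, Finset.mem_singleton]; tauto)
  have h2 := H a b d hab had hbd (by intro x; simp only [Finset.mem_insert, Finset.mem_singleton]; tauto)
  have h3 := H a c d hac had hcd (by intro x; simp only [Finset.mem_insert, Finset.mem_singleton]; tauto)
  have h5 := H b c d hbc hbd hcd (by intro x; simp only [Finset.mem_insert, Finset.mem_singleton]; tauto)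
  have k := key (decide (G.A a b)) (decide (G.A b a)) (decide (G.A a c)) (decide (G.A c a))
    (decide (G.A a d)) (decide (G.A d a)) (decide (G.A b c)) (decide (G.A c b))
    (decide (G.A b d)) (decide (G.A d b)) (decide (G.A c d)) (decide (G.A d c))
  have as : ∀ x y : V, (decide (G.A x y) && decide (G.A y x)) = true → False := by
    intro x y h
    have h' := and_t _ _ h
    simp only [decide_eq_true_eq] at h'
    exact G.asymm x y h'.1 h'.2
  have hb : ∀ x y z : V, ¬ G.hit x y z → htb (decide (G.A x y)) (decide (G.A y x)) (decide (G.A x z))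
      (decide (G.A z x)) (decide (G.A y z)) (decide (G.A z y)) = true → False := by
    intro x y z hh h
    have h' := htb_iff _ _ _ _ _ _ h
    simp only [decide_eq_true_eq] at h'
    exact hh h'
  have cb : ∀ x y z t : V, c4b (decide (G.A x y)) (decide (G.A y z)) (decide (G.A z t))
      (decide (G.A t x)) (decide (G.A x z)) (decide (G.A z x)) (decide (G.A y t)) (decide (G.A t y)) = true → False := by
    intro x y z t h
    have h' := c4b_iff _ _ _ _ _ _ _ _ h
    simp only [decide_eq_true_eq] at h'
    exact h'.2.2.2.2 (h4 x y z t h'.1 h'.2.1 h'.2.2.1 h'.2.2.2.1)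
  unfold chk at k
  simp only [Bool.or_eq_true] at k
  rcases k with ((((((((((((((k | k) | k) | k) | k) | k) | k) | k) | k) | k) | k) | k) | k) | k) | k) | k
  · exact as _ _ k
  · exact as _ _ k
  · exact as _ _ k
  · exact as _ _ k
  · exact as _ _ k
  · exact as _ _ k
  · exact hb _ _ _ h1 k
  · exact hb _ _ _ h2 k
  · exact hb _ _ _ h3 k
  · exact hb _ _ _ h5 k
  · exact cb _ _ _ _ k
  · exact cb _ _ _ _ k
  · exact cb _ _ _ _ k
  · exact cb _ _ _ _ k
  · exact cb _ _ _ _ k
  · exact cb _ _ _ _ k

end OG
end FDF
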