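import Pool.Agent.FDF.IdE
/-! FDF-IdD. PLAN: `chi_sum`: expand; `T1` is a sum of three terms, each equal to `∑ w chi` after renaming variables
(`Finset.sum_comm`, `mm_comm`): the term `mm a b (1-mm a c) mm b c` is `chi a` (pair (b,c)) ; the term
`(1-mm a b) mm a c mm b c` is `chi a` with (c,b) ; the term `mm a b mm a c (1 - mm b c)` is `chi b` with (a,c).
`oo_sum`: `∑ w oo = ∑∑ w w aa u v = ∑ w ii`, and `nn+oo+ii=1`, so `∑ w oo = (1-∑ w nn)/2`.
`dd_eq`: average of `ee_eq'` over v; `∑_v w v ∑_b w b aa b v (oo b - 1/3) = ∑_b w b (oo b) (oo b - 1/3)`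
 `= E2 + (1/3) ∑ w (oo-1/3) = E2 - gam/6`.
`T0_eq`: with `m_k` = mm: expand t3 = 1 - (mab+mac+mbc) + (mab mac + mab mbc + mac mbc) - mab mac mbc and
 t1 = (mab mac + mab mbc + mac mbc) - 3 mab mac mbc; `∑∑∑ w w w mab mac = ∑ w nn²` (all three equal by symmetry),
 `∑ w nn = 1/3+gam`, `∑ w nn² = N2 + (2/3) gam + 1/9`. -/
namespace FDF
open Finset
open scoped BigOperators Classical
namespace OG
variable {V : Type} (G : OG V) [Fintype V] (w : V → ℝ)

omit G in
private lemma sw12 (F : V → V → V → ℝ) :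
    ∑ a, ∑ b, ∑ c, F a b c = ∑ a, ∑ b, ∑ c, F b a c := Finset.sum_comm

omit G in
private lemma sw23 (F : V → V → V → ℝ) :
    ∑ a, ∑ b, ∑ c, F a b c = ∑ a, ∑ b, ∑ c, F a c b :=
  Finset.sum_congr rfl fun _ _ => Finset.sum_comm

theorem chi_sum : ∑ v, w v * G.chi w v = G.T1 w / 3 := by
  have hS : ∑ v, w v * G.chi w v =
      ∑ a, ∑ b, ∑ c, w a * w b * w c * (G.mm a b * (1 - G.mm a c) * G.mm b c) := by
    refine Finset.sum_congr rfl fun a _ => ?_
    unfold chi
    rw [Finset.mul_sum]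
    refine Finset.sum_congr rfl fun b _ => ?_
    rw [Finset.mul_sum]
    refine Finset.sum_congr rfl fun c _ => ?_
    ring
  have hA : ∑ a, ∑ b, ∑ c, w a * w b * w c * (G.mm a b * G.mm a c * (1 - G.mm b c)) =
      ∑ a, ∑ b, ∑ c, w a * w b * w c * (G.mm a b * (1 - G.mm a c) * G.mm b c) := by
    rw [sw12]
    refine Finset.sum_congr rfl fun a _ => Finset.sum_congr rfl fun b _ =>
      Finset.sum_congr rfl fun c _ => ?_
    rw [G.mm_comm b a]
    ring
  have hC : ∑ a, ∑ b, ∑ c, w a * w b * w c * ((1 - G.mm a b) * G.mm a c * G.mm b c) =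
      ∑ a, ∑ b, ∑ c, w a * w b * w c * (G.mm a b * (1 - G.mm a c) * G.mm b c) := by
    rw [sw23]
    refine Finset.sum_congr rfl fun a _ => Finset.sum_congr rfl fun b _ =>
      Finset.sum_congr rfl fun c _ => ?_
    rw [G.mm_comm c b]
    ring
  have hT : G.T1 w = ∑ a, ∑ b, ∑ c, w a * w b * w c * (G.mm a b * G.mm a c * (1 - G.mm b c)) +
      ∑ a, ∑ b, ∑ c, w a * w b * w c * (G.mm a b * (1 - G.mm a c) * G.mm b c) +
      ∑ a, ∑ b, ∑ c, w a * w b * w c * ((1 - G.mm a b) * G.mm a c * G.mm b c) := by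
    unfold T1
    simp only [← Finset.sum_add_distrib]
    refine Finset.sum_congr rfl fun a _ => Finset.sum_congr rfl fun b _ =>
      Finset.sum_congr rfl fun c _ => ?_
    unfold t1
    ring
  rw [hT, hA, hC, hS]
  ring

private lemma oo_ii : ∑ v, w v * G.oo w v = ∑ v, w v * G.ii w v := by
  have h1 : ∑ v, w v * G.oo w v = ∑ v, ∑ u, w v * w u * G.aa v u := by
    refine Finset.sum_congr rfl fun a _ => ?_
    unfold oo
    rw [Finset.mul_sum]
    refine Finset.sum_congr rfl fun b _ => ?_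
    ring
  have h2 : ∑ v, w v * G.ii w v = ∑ v, ∑ u, w v * w u * G.aa u v := by
    refine Finset.sum_congr rfl fun a _ => ?_
    unfold ii
    rw [Finset.mul_sum]
    refine Finset.sum_congr rfl fun b _ => ?_
    ring
  rw [h1, h2, Finset.sum_comm]
  refine Finset.sum_congr rfl fun a _ => Finset.sum_congr rfl fun b _ => ?_
  ring

private lemma nn_sum (hs : ∑ v, w v = 1) : ∑ v, w v * G.nn w v = 1 / 3 + G.gam w := by
  unfold gam
  have h : ∑ v, w v * (G.nn w v - 1 / 3) = ∑ v, w v * G.nn w v - (∑ v, w v) * (1 / 3) := by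
    rw [Finset.sum_mul, ← Finset.sum_sub_distrib]
    refine Finset.sum_congr rfl fun v _ => ?_
    ring
  rw [h, hs]
  ring

theorem oo_sum (hs : ∑ v, w v = 1) : ∑ v, w v * (G.oo w v - 1 / 3) = - G.gam w / 2 := by
  have h : ∑ v, w v * (G.oo w v - 1 / 3) = ∑ v, w v * G.oo w v - (∑ v, w v) * (1 / 3) := by
    rw [Finset.sum_mul, ← Finset.sum_sub_distrib]
    refine Finset.sum_congr rfl fun v _ => ?_
    ring
  have h1 : ∑ v, w v * G.nn w v + ∑ v, w v * G.oo w v + ∑ v, w v * G.ii w v = 1 := by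
    rw [← Finset.sum_add_distrib, ← Finset.sum_add_distrib, ← hs]
    refine Finset.sum_congr rfl fun v _ => ?_
    have := G.nn_add_oo_add_ii w hs v
    linear_combination w v * this
  have h2 := G.oo_ii w
  have h3 := G.nn_sum w hs
  rw [h, hs]
  linarith

theorem dd_eq (hs : ∑ v, w v = 1) :
    G.dd w = 4 / 9 + (G.N2 w - G.gam w / 3 + 2 / 3 * G.T1 w) + 3 * G.E2 w := by
  have h1 : G.dd w = (∑ v, w v) * (4 / 9) + G.N2 w + G.E2 w + 2 * ∑ v, w v * G.chi w v +
      2 * ∑ v, ∑ b, w v * (w b * G.aa b v * (G.oo w b - 1 / 3)) := by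
    unfold dd N2 E2
    rw [Finset.sum_mul, Finset.mul_sum, Finset.mul_sum, ← Finset.sum_add_distrib,
      ← Finset.sum_add_distrib, ← Finset.sum_add_distrib, ← Finset.sum_add_distrib]
    refine Finset.sum_congr rfl fun v _ => ?_
    rw [G.ee_eq' w hs v, ← Finset.mul_sum]
    ring
  have h2 : ∑ v, ∑ b, w v * (w b * G.aa b v * (G.oo w b - 1 / 3)) =
      G.E2 w + 1 / 3 * ∑ v, w v * (G.oo w v - 1 / 3) := by
    rw [Finset.sum_comm]
    unfold E2
    rw [Finset.mul_sum, ← Finset.sum_add_distrib]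
    refine Finset.sum_congr rfl fun b _ => ?_
    have h3 : ∑ v, w v * (w b * G.aa b v * (G.oo w b - 1 / 3)) =
        w b * (G.oo w b - 1 / 3) * G.oo w b := by
      conv_rhs => unfold oo
      rw [Finset.mul_sum]
      refine Finset.sum_congr rfl fun v _ => ?_
      unfold oo
      ring
    rw [h3]
    ring
  rw [h1, h2, G.oo_sum w hs, G.chi_sum w, hs]
  ring

theorem T0_eq (hs : ∑ v, w v = 1) :
    G.T0 w = 2 / 9 - 5 / 3 * G.gam w + 2 * G.N2 w + G.T1 w / 3 := by
  -- the seven triple sums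
  have h1 : ∑ a, ∑ b, ∑ c, w a * w b * w c = 1 := by
    have e : ∀ a b, ∑ c, w a * w b * w c = w a * w b := by
      intro a b
      rw [← Finset.mul_sum, hs, mul_one]
    have e2 : ∀ a, ∑ b, w a * w b = w a := by
      intro a
      rw [← Finset.mul_sum, hs, mul_one]
    simp only [e, e2]
    exact hs
  have hab : ∑ a, ∑ b, ∑ c, w a * w b * w c * G.mm a b = 1 / 3 + G.gam w := by
    rw [← G.nn_sum w hs]
    refine Finset.sum_congr rfl fun a _ => ?_
    unfold nn
    rw [Finset.mul_sum]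
    refine Finset.sum_congr rfl fun b _ => ?_
    have e : ∑ c, w a * w b * w c * G.mm a b = (∑ c, w c) * (w a * w b * G.mm a b) := by
      rw [Finset.sum_mul]
      refine Finset.sum_congr rfl fun c _ => ?_
      ring
    rw [e, hs]
    ring
  have hac : ∑ a, ∑ b, ∑ c, w a * w b * w c * G.mm a c = 1 / 3 + G.gam w := by
    rw [← hab, sw23]
    refine Finset.sum_congr rfl fun a _ => Finset.sum_congr rfl fun b _ =>
      Finset.sum_congr rfl fun c _ => ?_
    ring
  have hbc : ∑ a, ∑ b, ∑ c, w a * w b * w c * G.mm b c = 1 / 3 + G.gam w := by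
    rw [← hac, sw12]
    refine Finset.sum_congr rfl fun a _ => Finset.sum_congr rfl fun b _ =>
      Finset.sum_congr rfl fun c _ => ?_
    ring
  have hq : ∑ v, w v * G.nn w v ^ 2 = G.N2 w + 2 / 3 * G.gam w + 1 / 9 := by
    have e : G.N2 w = ∑ v, w v * G.nn w v ^ 2 - 2 / 3 * ∑ v, w v * G.nn w v +
        (∑ v, w v) * (1 / 9) := by
      unfold N2
      rw [Finset.mul_sum, Finset.sum_mul, ← Finset.sum_sub_distrib, ← Finset.sum_add_distrib]
      refine Finset.sum_congr rfl fun v _ => ?_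
      ring
    rw [e, hs, G.nn_sum w hs]
    ring
  have p1 : ∑ a, ∑ b, ∑ c, w a * w b * w c * (G.mm a b * G.mm a c) =
      ∑ v, w v * G.nn w v ^ 2 := by
    refine Finset.sum_congr rfl fun a _ => ?_
    unfold nn
    rw [sq, Finset.sum_mul_sum, Finset.mul_sum]
    refine Finset.sum_congr rfl fun b _ => ?_
    rw [Finset.mul_sum]
    refine Finset.sum_congr rfl fun c _ => ?_
    ring
  have p2 : ∑ a, ∑ b, ∑ c, w a * w b * w c * (G.mm a b * G.mm b c) =
      ∑ v, w v * G.nn w v ^ 2 := by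
    rw [← p1, sw12]
    refine Finset.sum_congr rfl fun a _ => Finset.sum_congr rfl fun b _ =>
      Finset.sum_congr rfl fun c _ => ?_
    rw [G.mm_comm b a]
    ring
  have p3 : ∑ a, ∑ b, ∑ c, w a * w b * w c * (G.mm a c * G.mm b c) =
      ∑ v, w v * G.nn w v ^ 2 := by
    rw [← p2, sw23]
    refine Finset.sum_congr rfl fun a _ => Finset.sum_congr rfl fun b _ =>
      Finset.sum_congr rfl fun c _ => ?_
    rw [G.mm_comm c b]
    ring
  have hT : G.T0 w = ∑ a, ∑ b, ∑ c, w a * w b * w c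
      - ∑ a, ∑ b, ∑ c, w a * w b * w c * G.mm a b
      - ∑ a, ∑ b, ∑ c, w a * w b * w c * G.mm a c
      - ∑ a, ∑ b, ∑ c, w a * w b * w c * G.mm b c
      + 2 / 3 * ∑ a, ∑ b, ∑ c, w a * w b * w c * (G.mm a b * G.mm a c)
      + 2 / 3 * ∑ a, ∑ b, ∑ c, w a * w b * w c * (G.mm a b * G.mm b c)
      + 2 / 3 * ∑ a, ∑ b, ∑ c, w a * w b * w c * (G.mm a c * G.mm b c)
      + 1 / 3 * G.T1 w := by
    unfold T0 T1
    simp only [Finset.mul_sum, ← Finset.sum_sub_distrib, ← Finset.sum_add_distrib]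
    refine Finset.sum_congr rfl fun a _ => Finset.sum_congr rfl fun b _ =>
      Finset.sum_congr rfl fun c _ => ?_
    unfold t1 t3
    ring
  rw [hT, h1, hab, hac, hbc, p1, p2, p3, hq]
  ring

end OG
end FDF
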