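import Pool.Agent.FDF.Rel
/-! FDF-IdE. PLAN: `hh_eq`: case analysis with `G.tri v x`, `G.tri v y`, `G.tri x y` (27 cases; in each case `unfold hh hit`,
decide the propositions by `simp` from the data of `tri` (use `G.adj_comm` and `G.mm_comm` to orient), then `norm_num`).
`ee_eq`: sum `hh_eq`: `∑∑ w w mm mm = nn²`, `∑∑ w w aa aa = oo²`, the two `chi` terms are equal after `Finset.sum_comm`
(and `mm_comm`), the two last terms are `∑_b w b aa b v (∑_x w x aa b x) = ∑_b w b aa b v oo b`.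
`ee_eq'`: algebra: `nn = 1/3+ν, oo = 1/3+δ, ii = 1-nn-oo` (`nn_add_oo_add_ii`), `∑_b w b aa b v (oo b) = ∑_b w b aa b v (oo b - 1/3) + ii/3`. -/
namespace FDF
open Finset
open scoped BigOperators Classical
namespace OG
variable {V : Type} (G : OG V)

theorem hh_eq (v x y : V) : G.hh v x y = G.mm v x * G.mm v y + G.aa v x * G.aa v y +
    G.mm v x * (1 - G.mm v y) * G.mm x y + G.mm v y * (1 - G.mm v x) * G.mm y x +
    G.aa x v * G.aa x y + G.aa y v * G.aa y x := by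
  have e1 : G.adj x v = G.adj v x := propext (G.adj_comm x v)
  have e2 : G.adj y v = G.adj v y := propext (G.adj_comm y v)
  have e3 : G.adj y x = G.adj x y := propext (G.adj_comm y x)
  rw [G.mm_comm y x]
  unfold hh hit
  rw [e1, e2, e3]
  rcases G.tri v x with ⟨a1, a2, a3, a4, a5, a6⟩ | ⟨a1, a2, a3, a4, a5, a6⟩ |
      ⟨a1, a2, a3, a4, a5, a6⟩ <;>
    rcases G.tri v y with ⟨b1, b2, b3, b4, b5, b6⟩ | ⟨b1, b2, b3, b4, b5, b6⟩ |
      ⟨b1, b2, b3, b4, b5, b6⟩ <;>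
    rcases G.tri x y with ⟨c1, c2, c3, c4, c5, c6⟩ | ⟨c1, c2, c3, c4, c5, c6⟩ |
      ⟨c1, c2, c3, c4, c5, c6⟩ <;>
    simp [a1, a2, a3, a4, a5, a6, b1, b2, b3, b4, b5, b6, c1, c2, c3, c4, c5, c6]


variable [Fintype V] (w : V → ℝ)

theorem ee_eq (v : V) : G.ee w v = G.nn w v ^ 2 + G.oo w v ^ 2 + 2 * G.chi w v +
    2 * ∑ b, w b * G.aa b v * G.oo w b := by
  have h1 : ∑ a, ∑ b, w a * w b * (G.mm v a * G.mm v b) = G.nn w v ^ 2 := by
    unfold nn
    rw [sq, Finset.sum_mul_sum]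
    refine Finset.sum_congr rfl fun a _ => Finset.sum_congr rfl fun b _ => ?_
    ring
  have h2 : ∑ a, ∑ b, w a * w b * (G.aa v a * G.aa v b) = G.oo w v ^ 2 := by
    unfold oo
    rw [sq, Finset.sum_mul_sum]
    refine Finset.sum_congr rfl fun a _ => Finset.sum_congr rfl fun b _ => ?_
    ring
  have h3 : ∑ a, ∑ b, w a * w b * (G.mm v a * (1 - G.mm v b) * G.mm a b) = G.chi w v := rfl
  have h4 : ∑ a, ∑ b, w a * w b * (G.mm v b * (1 - G.mm v a) * G.mm b a) = G.chi w v := by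
    rw [← h3, Finset.sum_comm]
    refine Finset.sum_congr rfl fun a _ => Finset.sum_congr rfl fun b _ => ?_
    ring
  have h5 : ∑ a, ∑ b, w a * w b * (G.aa a v * G.aa a b) = ∑ b, w b * G.aa b v * G.oo w b := by
    refine Finset.sum_congr rfl fun a _ => ?_
    unfold oo
    rw [Finset.mul_sum]
    refine Finset.sum_congr rfl fun b _ => ?_
    ring
  have h6 : ∑ a, ∑ b, w a * w b * (G.aa b v * G.aa b a) = ∑ b, w b * G.aa b v * G.oo w b := by
    rw [← h5, Finset.sum_comm]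
    refine Finset.sum_congr rfl fun a _ => Finset.sum_congr rfl fun b _ => ?_
    ring
  have h0 : G.ee w v = ∑ a, ∑ b, w a * w b * (G.mm v a * G.mm v b) +
      ∑ a, ∑ b, w a * w b * (G.aa v a * G.aa v b) +
      ∑ a, ∑ b, w a * w b * (G.mm v a * (1 - G.mm v b) * G.mm a b) +
      ∑ a, ∑ b, w a * w b * (G.mm v b * (1 - G.mm v a) * G.mm b a) +
      ∑ a, ∑ b, w a * w b * (G.aa a v * G.aa a b) +
      ∑ a, ∑ b, w a * w b * (G.aa b v * G.aa b a) := by
    unfold ee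
    simp only [← Finset.sum_add_distrib]
    refine Finset.sum_congr rfl fun a _ => Finset.sum_congr rfl fun b _ => ?_
    rw [G.hh_eq v a b]
    ring
  rw [h0, h1, h2, h3, h4, h5, h6]
  ring


theorem ee_eq' (hs : ∑ v, w v = 1) (v : V) : G.ee w v = 4 / 9 + (G.nn w v - 1 / 3) ^ 2 +
    (G.oo w v - 1 / 3) ^ 2 + 2 * G.chi w v + 2 * ∑ b, w b * G.aa b v * (G.oo w b - 1 / 3) := by
  have h1 := G.nn_add_oo_add_ii w hs v
  have h2 : ∑ b, w b * G.aa b v * G.oo w b =
      ∑ b, w b * G.aa b v * (G.oo w b - 1 / 3) + G.ii w v / 3 := by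
    unfold ii
    rw [Finset.sum_div, ← Finset.sum_add_distrib]
    refine Finset.sum_congr rfl fun b _ => ?_
    ring
  rw [G.ee_eq w v, h2]
  linear_combination (2 / 3) * h1


end OG
end FDF
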