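import Pool.Agent.FDF.Rel
/-! FDF-PSum. Bookkeeping for a partition `f : V → Fin 3`. PLAN: all are rearrangements of finite sums.
`sum_sq`: `∑_v w v nn v = ∑_{u,v} w w mm`, `mm v u = [f u = f v] - [f u = f v](1-mm) + [f u ≠ f v] mm`, and
`∑_j pp j ^2 = ∑_{u,v} w w [f u = f v]`. Then expand `(pp j - 1/3)^2`. -/
namespace FDF
open Finset
open scoped BigOperators Classical
variable {V : Type} [Fintype V] (w : V → ℝ) (f : V → Fin 3)

private theorem sum_part0 (g : Fin 3 → ℝ) : ∑ v, w v * g (f v) = ∑ j, pp w f j * g j := by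
  have h : ∀ j, pp w f j * g j = ∑ v, if f v = j then w v * g (f v) else 0 := by
    intro j
    unfold pp
    rw [Finset.sum_mul]
    refine Finset.sum_congr rfl fun v _ => ?_
    by_cases hv : f v = j
    · rw [if_pos hv, if_pos hv, hv]
    · rw [if_neg hv, if_neg hv, zero_mul]
  rw [Finset.sum_congr rfl fun j _ => h j, Finset.sum_comm]
  refine Finset.sum_congr rfl fun v _ => ?_
  rw [Finset.sum_ite_eq Finset.univ (f v) (fun _ => w v * g (f v)), if_pos (Finset.mem_univ _)]

private theorem off_sum (G : OG V) (v : V) (d : Fin 3 → ℝ) :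
    (∑ j, if j = f v then 0 else d j * G.al w f v j) =
      ∑ u, if f u = f v then 0 else d (f u) * (w u * G.mm v u) := by
  have h : ∀ j, (if j = f v then 0 else d j * G.al w f v j) =
      ∑ u, if f u = j then (if f u = f v then 0 else d (f u) * (w u * G.mm v u)) else 0 := by
    intro j
    by_cases hj : j = f v
    · rw [if_pos hj]
      symm
      refine Finset.sum_eq_zero fun u _ => ?_
      by_cases hu : f u = j
      · rw [if_pos hu, if_pos (hu.trans hj)]
      · rw [if_neg hu]
    · rw [if_neg hj]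
      unfold OG.al
      rw [Finset.mul_sum]
      refine Finset.sum_congr rfl fun u _ => ?_
      by_cases hu : f u = j
      · have hne : ¬ f u = f v := fun h => hj (hu.symm.trans h)
        rw [if_pos hu, if_pos hu, if_neg hne, hu]
      · rw [if_neg hu, if_neg hu, mul_zero]
  rw [Finset.sum_congr rfl fun j _ => h j, Finset.sum_comm]
  refine Finset.sum_congr rfl fun u _ => ?_
  rw [Finset.sum_ite_eq Finset.univ (f u)
    (fun _ => if f u = f v then 0 else d (f u) * (w u * G.mm v u)), if_pos (Finset.mem_univ _)]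

theorem pp_sum (hs : ∑ v, w v = 1) : ∑ j, pp w f j = 1 := by
  have h := sum_part0 w f (fun _ => 1)
  simp only [mul_one] at h
  rw [← h, hs]


theorem pp_nonneg (hw : ∀ v, 0 ≤ w v) (j : Fin 3) : 0 ≤ pp w f j := by
  refine Finset.sum_nonneg fun v _ => ?_
  by_cases hv : f v = j
  · rw [if_pos hv]
    exact hw v
  · rw [if_neg hv]


namespace OG
variable (G : OG V)

theorem al_nonneg (hw : ∀ v, 0 ≤ w v) (v : V) (j : Fin 3) : 0 ≤ G.al w f v j := by
  refine Finset.sum_nonneg fun u _ => ?_
  by_cases hu : f u = j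
  · rw [if_pos hu]
    exact mul_nonneg (hw u) (G.mm_nonneg v u)
  · rw [if_neg hu]


theorem al_le (hw : ∀ v, 0 ≤ w v) (v : V) (j : Fin 3) : G.al w f v j ≤ pp w f j := by
  refine Finset.sum_le_sum fun u _ => ?_
  by_cases hu : f u = j
  · rw [if_pos hu, if_pos hu]
    exact mul_le_of_le_one_right (hw u) (G.mm_le_one v u)
  · rw [if_neg hu, if_neg hu]


theorem al_sum (v : V) : ∑ j, G.al w f v j = G.nn w v := by
  unfold al nn
  rw [Finset.sum_comm]
  refine Finset.sum_congr rfl fun u _ => ?_
  rw [Finset.sum_ite_eq Finset.univ (f u) (fun _ => w u * G.mm v u),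
    if_pos (Finset.mem_univ _)]


theorem bin_eq (v : V) : G.bin w f v = pp w f (f v) - G.al w f v (f v) := by
  unfold bin pp al
  rw [← Finset.sum_sub_distrib]
  refine Finset.sum_congr rfl fun u _ => ?_
  by_cases hu : f u = f v
  · rw [if_pos hu, if_pos hu, if_pos hu]
    ring
  · rw [if_neg hu, if_neg hu, if_neg hu]
    ring


theorem bcr_eq (v : V) : G.bcr w f v = ∑ j, if j = f v then 0 else G.al w f v j := by
  have h := off_sum w f G v (fun _ => 1)
  simp only [one_mul] at h
  rw [h]
  rfl


theorem nn_eq (v : V) : G.nn w v = pp w f (f v) - G.bin w f v + G.bcr w f v := by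
  unfold nn pp bin bcr
  rw [← Finset.sum_sub_distrib, ← Finset.sum_add_distrib]
  refine Finset.sum_congr rfl fun u _ => ?_
  by_cases hu : f u = f v
  · rw [if_pos hu, if_pos hu, if_pos hu]
    ring
  · rw [if_neg hu, if_neg hu, if_neg hu]
    ring


theorem bin_nonneg (hw : ∀ v, 0 ≤ w v) (v : V) : 0 ≤ G.bin w f v := by
  refine Finset.sum_nonneg fun u _ => ?_
  by_cases hu : f u = f v
  · rw [if_pos hu]
    exact mul_nonneg (hw u) (by linarith [G.mm_le_one v u])
  · rw [if_neg hu]


theorem bcr_nonneg (hw : ∀ v, 0 ≤ w v) (v : V) : 0 ≤ G.bcr w f v := by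
  refine Finset.sum_nonneg fun u _ => ?_
  by_cases hu : f u = f v
  · rw [if_pos hu]
  · rw [if_neg hu]
    exact mul_nonneg (hw u) (G.mm_nonneg v u)


theorem Btot_eq : G.Btot w f = G.Bin w f + G.Bcr w f := by
  unfold Btot Bin Bcr bb
  rw [← Finset.sum_add_distrib]
  refine Finset.sum_congr rfl fun v _ => ?_
  ring


theorem sum_sq (hs : ∑ v, w v = 1) :
    ∑ j, (pp w f j - 1 / 3) ^ 2 = G.gam w + G.Bin w f - G.Bcr w f := by
  have h1 : ∑ v, w v * pp w f (f v) = ∑ j, pp w f j * pp w f j := sum_part0 w f (pp w f)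
  have h2 : ∑ j, pp w f j = 1 := by
    have h := sum_part0 w f (fun _ => 1)
    simp only [mul_one] at h
    rw [← h, hs]
  have h3 : ∑ j, (pp w f j - 1 / 3) ^ 2 = ∑ j, pp w f j * pp w f j - 1 / 3 := by
    have h4 : ∀ j, (pp w f j - 1 / 3) ^ 2 =
        pp w f j * pp w f j - 2 / 3 * pp w f j + 1 / 9 := fun j => by ring
    rw [Finset.sum_congr rfl fun j _ => h4 j, Finset.sum_add_distrib, Finset.sum_sub_distrib,
      ← Finset.mul_sum, h2]
    simp only [Finset.sum_const, Finset.card_univ, Fintype.card_fin, nsmul_eq_mul]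
    norm_num
    ring
  have h5 : ∑ v, w v * pp w f (f v) = G.gam w + 1 / 3 + G.Bin w f - G.Bcr w f := by
    have h6 : G.gam w = ∑ v, w v * G.nn w v - 1 / 3 := by
      unfold gam
      simp only [mul_sub]
      rw [Finset.sum_sub_distrib, ← Finset.sum_mul, hs, one_mul]
    rw [h6]
    unfold Bin Bcr
    have h7 : ∀ v, w v * pp w f (f v) =
        w v * G.nn w v + w v * G.bin w f v - w v * G.bcr w f v := by
      intro v
      have h8 : G.nn w v = pp w f (f v) - G.bin w f v + G.bcr w f v := by
        unfold nn pp bin bcr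
        rw [← Finset.sum_sub_distrib, ← Finset.sum_add_distrib]
        refine Finset.sum_congr rfl fun u _ => ?_
        by_cases hu : f u = f v
        · rw [if_pos hu, if_pos hu, if_pos hu]
          ring
        · rw [if_neg hu, if_neg hu, if_neg hu]
          ring
      rw [h8]
      ring
    rw [Finset.sum_congr rfl fun v _ => h7 v, Finset.sum_sub_distrib, Finset.sum_add_distrib]
    ring
  rw [h3, ← h1, h5]
  ring


/-- averages of functions of the part: `∑_v w v g(f v) = ∑_j pp j g(j)` -/
theorem sum_part (g : Fin 3 → ℝ) : ∑ v, w v * g (f v) = ∑ j, pp w f j * g j := by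
  exact sum_part0 w f g


/-- symmetry of the cross terms -/
theorem cross_symm (c : Fin 3 → Fin 3 → ℝ) :
    ∑ v, w v * (∑ j, if j = f v then 0 else c (f v) j * G.al w f v j) =
      ∑ v, w v * (∑ j, if j = f v then 0 else c j (f v) * G.al w f v j) := by
  have h1 : ∀ v, (∑ j, if j = f v then 0 else c (f v) j * G.al w f v j) =
      ∑ u, if f u = f v then 0 else c (f v) (f u) * (w u * G.mm v u) := fun v =>
    off_sum w f G v (fun j => c (f v) j)
  have h2 : ∀ v, (∑ j, if j = f v then 0 else c j (f v) * G.al w f v j) =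
      ∑ u, if f u = f v then 0 else c (f u) (f v) * (w u * G.mm v u) := fun v =>
    off_sum w f G v (fun j => c j (f v))
  rw [Finset.sum_congr rfl fun v _ => congrArg (w v * ·) (h1 v),
    Finset.sum_congr rfl fun v _ => congrArg (w v * ·) (h2 v)]
  simp only [Finset.mul_sum]
  rw [Finset.sum_comm]
  refine Finset.sum_congr rfl fun v _ => Finset.sum_congr rfl fun u _ => ?_
  by_cases hu : f u = f v
  · rw [if_pos hu, if_pos hu.symm, mul_zero, mul_zero]
  · rw [if_neg hu, if_neg fun h => hu h.symm, G.mm_comm u v]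
    ring


end OG
end FDF
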