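import Pool.Agent.FDF.PSum
import Pool.Agent.FDF.IdD
/-! FDF-PT1. Lower bound for `T1` from triples with exactly one bad pair. PLAN.
Let `W(u,v)` = measure of the third vertices x for which {u,v,x} has exactly one arc, x in the part of u or of v and both pairs ux, vx good.
Formally: t1 is symmetric; for (a,b,c) the three events 'ab is the only bad pair and c lies in the part of a or of b',
'ac ...', 'bc ...' are disjoint and imply t1 = 1, so
`t1 a b c ≥ E(a,b;c) + E(a,c;b) + E(b,c;a)` with
`E(u,v;x) = [f u = f v = f x] (1-mm u v) mm u x mm v x + [f u ≠ f v] mm u v ([f x = f u] mm u x (1 - mm v x) + [f x = f v] mm v x (1-mm u x))`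
(case analysis: `rcases mm_zero_or_one` for the three pairs, and decide on f a, f b, f c ∈ Fin 3). Hence `T1 ≥ 3 ∑_{u,v,x} w w w E(u,v;x)`.
Inside: for f u = f v = j, u ~ v: `∑_x w x [f x=j] mm u x mm v x ≥ p_j - bin u - bin v` (mm mm' ≥ 1-(1-mm)-(1-mm')),
so the inside part is `≥ ∑_u w u (p_j bin u) - 2 ∑_u w u bin(u)²` (symmetry in u,v).
Cross: `∑_x w x [f x = f u] mm u x (1-mm v x) ≥ p_{f u} - bin u - al v (f u)`; the cross part is
`≥ ∑_u w u ∑_{i≠f u} (p_i+p_{f u}) al u i - 2 ∑ w bin bcr - 2 ∑_u w u ∑_{i≠f u} (al u i)²`, and `∑_{i≠f u} (al u i)² ≤ bcr²`.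
Finally `bin² + bin bcr + bcr² ≤ (bin+bcr)² = bb²`. -/
namespace FDF
open Finset
open scoped BigOperators Classical
namespace OG
variable {V : Type} [Fintype V] (G : OG V) (w : V → ℝ) (f : V → Fin 3)

private noncomputable def ss (f : V → Fin 3) (u v : V) : ℝ := if f u = f v then 1 else 0

omit [Fintype V] in
private lemma ss_comm (u v : V) : ss f u v = ss f v u := by
  unfold ss; simp only [eq_comm]

omit [Fintype V] in
private lemma ss_nonneg (u v : V) : 0 ≤ ss f u v := by
  unfold ss; split_ifs <;> norm_num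

omit [Fintype V] in
private lemma ss_le (u v : V) : ss f u v ≤ 1 := by
  unfold ss; split_ifs <;> norm_num

private noncomputable def EE (u v x : V) : ℝ :=
  ss f u v * (1 - G.mm u v) * (ss f x u * (G.mm u x * G.mm v x)) +
    (1 - ss f u v) * G.mm u v * (ss f x u * (G.mm u x * (1 - G.mm v x)) +
      ss f x v * (G.mm v x * (1 - G.mm u x)))

omit [Fintype V] in
private lemma t1_point (a b c : V) :
    G.EE f a b c + G.EE f a c b + G.EE f b c a ≤ G.t1 a b c := by
  unfold EE t1 ss
  rw [G.mm_comm c b, G.mm_comm b a, G.mm_comm c a]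
  have key : ∀ p q r : ℝ, (p = 0 ∨ p = 1) → (q = 0 ∨ q = 1) → (r = 0 ∨ r = 1) →
      ∀ i j k : Fin 3,
      (if i = j then (1 : ℝ) else 0) * (1 - p) * ((if k = i then (1 : ℝ) else 0) * (q * r)) +
        (1 - (if i = j then (1 : ℝ) else 0)) * p * ((if k = i then (1 : ℝ) else 0) * (q * (1 - r)) +
        (if k = j then (1 : ℝ) else 0) * (r * (1 - q))) +
      ((if i = k then (1 : ℝ) else 0) * (1 - q) * ((if j = i then (1 : ℝ) else 0) * (p * r)) +
        (1 - (if i = k then (1 : ℝ) else 0)) * q * ((if j = i then (1 : ℝ) else 0) * (p * (1 - r)) +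
        (if j = k then (1 : ℝ) else 0) * (r * (1 - p)))) +
      ((if j = k then (1 : ℝ) else 0) * (1 - r) * ((if i = j then (1 : ℝ) else 0) * (p * q)) +
        (1 - (if j = k then (1 : ℝ) else 0)) * r * ((if i = j then (1 : ℝ) else 0) * (p * (1 - q)) +
        (if i = k then (1 : ℝ) else 0) * (q * (1 - p)))) ≤
      p * q * (1 - r) + p * (1 - q) * r + (1 - p) * q * r := by
    intro p q r hp hq hr i j k
    by_cases h1 : i = j
    · subst h1
      by_cases h2 : i = k
      · subst h2
        rcases hp with rfl | rfl <;> rcases hq with rfl | rfl <;> rcases hr with rfl | rfl <;>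
          norm_num
      · have h3 : k ≠ i := fun h => h2 h.symm
        simp only [if_neg h2, if_neg h3]
        rcases hp with rfl | rfl <;> rcases hq with rfl | rfl <;> rcases hr with rfl | rfl <;>
          norm_num
    · have h1' : j ≠ i := fun h => h1 h.symm
      by_cases h2 : i = k
      · subst h2
        simp only [if_neg h1, if_neg h1']
        rcases hp with rfl | rfl <;> rcases hq with rfl | rfl <;> rcases hr with rfl | rfl <;>
          norm_num
      · have h2' : k ≠ i := fun h => h2 h.symm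
        by_cases h3 : j = k
        · subst h3
          simp only [if_neg h1, if_neg h1']
          rcases hp with rfl | rfl <;> rcases hq with rfl | rfl <;> rcases hr with rfl | rfl <;>
            norm_num
        · have h3' : k ≠ j := fun h => h3 h.symm
          simp only [if_neg h1, if_neg h1', if_neg h2, if_neg h2', if_neg h3, if_neg h3']
          rcases hp with rfl | rfl <;> rcases hq with rfl | rfl <;> rcases hr with rfl | rfl <;>
            norm_num
  exact key _ _ _ (G.mm_zero_or_one a b) (G.mm_zero_or_one a c) (G.mm_zero_or_one b c)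
    (f a) (f b) (f c)

private lemma sum_EE_le (hw : ∀ v, 0 ≤ w v) :
    3 * ∑ u, ∑ v, ∑ x, w u * w v * w x * G.EE f u v x ≤ G.T1 w := by
  have e1 : ∑ a, ∑ b, ∑ c, w a * w b * w c * G.EE f a c b
      = ∑ u, ∑ v, ∑ x, w u * w v * w x * G.EE f u v x := by
    refine sum_congr rfl fun a _ => ?_
    rw [sum_comm]
    refine sum_congr rfl fun b _ => sum_congr rfl fun c _ => ?_
    ring
  have e2 : ∑ a, ∑ b, ∑ c, w a * w b * w c * G.EE f b c a
      = ∑ u, ∑ v, ∑ x, w u * w v * w x * G.EE f u v x := by
    rw [sum_comm]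
    refine sum_congr rfl fun a _ => ?_
    rw [sum_comm]
    refine sum_congr rfl fun b _ => sum_congr rfl fun c _ => ?_
    ring
  have e3 : 3 * ∑ u, ∑ v, ∑ x, w u * w v * w x * G.EE f u v x
      = ∑ a, ∑ b, ∑ c, w a * w b * w c * (G.EE f a b c + G.EE f a c b + G.EE f b c a) := by
    have : ∑ a, ∑ b, ∑ c, w a * w b * w c * (G.EE f a b c + G.EE f a c b + G.EE f b c a)
        = ∑ a, ∑ b, ∑ c, w a * w b * w c * G.EE f a b c
          + ∑ a, ∑ b, ∑ c, w a * w b * w c * G.EE f a c b
          + ∑ a, ∑ b, ∑ c, w a * w b * w c * G.EE f b c a := by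
      simp only [← sum_add_distrib]
      refine sum_congr rfl fun a _ => sum_congr rfl fun b _ => sum_congr rfl fun c _ => ?_
      ring
    rw [this, e1, e2]
    ring
  rw [e3]
  unfold T1
  refine sum_le_sum fun a _ => sum_le_sum fun b _ => sum_le_sum fun c _ => ?_
  exact mul_le_mul_of_nonneg_left (G.t1_point f a b c)
    (mul_nonneg (mul_nonneg (hw a) (hw b)) (hw c))

private lemma pp_eq (u : V) : pp w f (f u) = ∑ x, w x * ss f x u := by
  unfold pp ss
  refine sum_congr rfl fun x _ => ?_
  split_ifs <;> ring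

private lemma bin_eq' (u : V) : G.bin w f u = ∑ x, w x * (ss f x u * (1 - G.mm u x)) := by
  unfold bin ss
  refine sum_congr rfl fun x _ => ?_
  split_ifs <;> ring

private lemma bcr_eq' (u : V) : G.bcr w f u = ∑ x, w x * ((1 - ss f x u) * G.mm u x) := by
  unfold bcr ss
  refine sum_congr rfl fun x _ => ?_
  split_ifs <;> ring

private lemma al_eq' (v u : V) : G.al w f v (f u) = ∑ x, w x * (ss f x u * G.mm v x) := by
  unfold al ss
  refine sum_congr rfl fun x _ => ?_
  split_ifs <;> ring

/-- third vertex for an inner bad pair -/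
private lemma inner_x (hw : ∀ v, 0 ≤ w v) (u v : V) (huv : f u = f v) :
    pp w f (f u) - G.bin w f u - G.bin w f v ≤ ∑ x, w x * (ss f x u * (G.mm u x * G.mm v x)) := by
  have e : ∀ x, ss f x v = ss f x u := by
    intro x; unfold ss; rw [huv]
  rw [pp_eq, G.bin_eq' w f u, G.bin_eq' w f v, ← sum_sub_distrib, ← sum_sub_distrib]
  refine sum_le_sum fun x _ => ?_
  rw [e x]
  have h1 := G.mm_le_one u x
  have h2 := G.mm_le_one v x
  have h3 : 0 ≤ (1 - G.mm u x) * (1 - G.mm v x) := mul_nonneg (by linarith) (by linarith)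
  have h4 : 0 ≤ w x * ss f x u := mul_nonneg (hw x) (ss_nonneg f x u)
  nlinarith [mul_nonneg h4 h3]

/-- third vertex for a cross bad pair -/
private lemma cross_x (hw : ∀ v, 0 ≤ w v) (u v : V) :
    pp w f (f u) - G.bin w f u - G.al w f v (f u) ≤
      ∑ x, w x * (ss f x u * (G.mm u x * (1 - G.mm v x))) := by
  rw [pp_eq, G.bin_eq' w f u, G.al_eq' w f v u, ← sum_sub_distrib, ← sum_sub_distrib]
  refine sum_le_sum fun x _ => ?_
  have h1 := G.mm_le_one u x
  have h2 := G.mm_nonneg v x
  have h3 : 0 ≤ (1 - G.mm u x) * G.mm v x := mul_nonneg (by linarith) h2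
  have h4 : 0 ≤ w x * ss f x u := mul_nonneg (hw x) (ss_nonneg f x u)
  nlinarith [mul_nonneg h4 h3]

private lemma sum_al_sq (v : V) :
    ∑ u, w u * ((1 - ss f u v) * G.mm u v * G.al w f v (f u)) =
      ∑ i, if i = f v then 0 else G.al w f v i ^ 2 := by
  have h1 : ∀ i : Fin 3, (if i = f v then 0 else G.al w f v i ^ 2)
      = ∑ u, if f u = i then (if i = f v then 0 else w u * G.mm v u * G.al w f v i) else 0 := by
    intro i
    by_cases hi : i = f v
    · simp [hi]
    · simp only [if_neg hi]
      rw [pow_two]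
      nth_rewrite 1 [al]
      rw [sum_mul]
      refine sum_congr rfl fun u _ => ?_
      split_ifs <;> ring
  rw [sum_congr rfl fun i _ => h1 i, sum_comm]
  refine sum_congr rfl fun u _ => ?_
  rw [sum_ite_eq]
  simp only [mem_univ, if_true]
  unfold ss
  rw [G.mm_comm u v]
  split_ifs <;> ring

private lemma sum_EE_ge (hw : ∀ v, 0 ≤ w v) :
    ∑ v, w v * (pp w f (f v) * G.bin w f v +
      (∑ i, if i = f v then 0 else (pp w f i + pp w f (f v)) * G.al w f v i)
      - 2 * (G.bin w f v ^ 2 + G.bin w f v * G.bcr w f v +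
        ∑ i, if i = f v then 0 else G.al w f v i ^ 2)) ≤
      ∑ u, ∑ v, ∑ x, w u * w v * w x * G.EE f u v x := by
  -- the inner sum over x
  have hx : ∀ u v : V, ∑ x, w u * w v * w x * G.EE f u v x =
      w u * w v * (ss f u v * (1 - G.mm u v) * ∑ x, w x * (ss f x u * (G.mm u x * G.mm v x)))
      + w u * w v * ((1 - ss f u v) * G.mm u v *
          ∑ x, w x * (ss f x u * (G.mm u x * (1 - G.mm v x))))
      + w u * w v * ((1 - ss f u v) * G.mm u v *
          ∑ x, w x * (ss f x v * (G.mm v x * (1 - G.mm u x)))) := by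
    intro u v
    simp only [mul_sum, ← sum_add_distrib]
    refine sum_congr rfl fun x _ => ?_
    unfold EE
    ring
  have hsym : ∑ u, ∑ v, w u * w v * ((1 - ss f u v) * G.mm u v *
          ∑ x, w x * (ss f x v * (G.mm v x * (1 - G.mm u x))))
      = ∑ u, ∑ v, w u * w v * ((1 - ss f u v) * G.mm u v *
          ∑ x, w x * (ss f x u * (G.mm u x * (1 - G.mm v x)))) := by
    rw [sum_comm]
    refine sum_congr rfl fun u _ => sum_congr rfl fun v _ => ?_
    rw [ss_comm f v u, G.mm_comm v u]
    ring
  have hS : ∑ u, ∑ v, ∑ x, w u * w v * w x * G.EE f u v x =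
      ∑ u, ∑ v, w u * w v * (ss f u v * (1 - G.mm u v) *
        ∑ x, w x * (ss f x u * (G.mm u x * G.mm v x)))
      + 2 * ∑ u, ∑ v, w u * w v * ((1 - ss f u v) * G.mm u v *
          ∑ x, w x * (ss f x u * (G.mm u x * (1 - G.mm v x)))) := by
    rw [sum_congr rfl fun u _ => sum_congr rfl fun v _ => hx u v]
    simp only [sum_add_distrib]
    rw [hsym]
    ring
  -- inner part
  have hin : ∑ v, w v * (pp w f (f v) * G.bin w f v - 2 * G.bin w f v ^ 2) ≤
      ∑ u, ∑ v, w u * w v * (ss f u v * (1 - G.mm u v) *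
        ∑ x, w x * (ss f x u * (G.mm u x * G.mm v x))) := by
    have h1 : ∑ u, ∑ v, w u * w v * (ss f u v * (1 - G.mm u v) *
          (pp w f (f u) - G.bin w f u - G.bin w f v)) ≤
        ∑ u, ∑ v, w u * w v * (ss f u v * (1 - G.mm u v) *
          ∑ x, w x * (ss f x u * (G.mm u x * G.mm v x))) := by
      refine sum_le_sum fun u _ => sum_le_sum fun v _ => ?_
      refine mul_le_mul_of_nonneg_left ?_ (mul_nonneg (hw u) (hw v))
      by_cases huv : f u = f v
      · refine mul_le_mul_of_nonneg_left (G.inner_x w f hw u v huv) ?_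
        exact mul_nonneg (ss_nonneg f u v) (by linarith [G.mm_le_one u v])
      · have : ss f u v = 0 := by unfold ss; rw [if_neg huv]
        rw [this]
        simp
    refine le_trans (le_of_eq ?_) h1
    have h2 : ∑ u, ∑ v, w u * w v * (ss f u v * (1 - G.mm u v) *
          (pp w f (f u) - G.bin w f u - G.bin w f v))
        = ∑ u, w u * ((pp w f (f u) - G.bin w f u) * ∑ v, w v * (ss f v u * (1 - G.mm u v)))
          - ∑ u, ∑ v, w u * (w v * (ss f u v * (1 - G.mm u v) * G.bin w f v)) := by
      rw [← sum_sub_distrib]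
      refine sum_congr rfl fun u _ => ?_
      rw [mul_sum, mul_sum, ← sum_sub_distrib]
      refine sum_congr rfl fun v _ => ?_
      rw [ss_comm f v u]
      ring
    have h3 : ∑ u, ∑ v, w u * (w v * (ss f u v * (1 - G.mm u v) * G.bin w f v))
        = ∑ v, w v * (G.bin w f v * ∑ u, w u * (ss f u v * (1 - G.mm v u))) := by
      rw [sum_comm]
      refine sum_congr rfl fun v _ => ?_
      rw [mul_sum, mul_sum]
      refine sum_congr rfl fun u _ => ?_
      rw [G.mm_comm v u]
      ring
    rw [h2, h3]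
    simp only [← bin_eq']
    rw [← sum_sub_distrib]
    refine sum_congr rfl fun v _ => ?_
    ring
  -- cross part
  have hcr : ∑ v, w v * (pp w f (f v) * G.bcr w f v - G.bin w f v * G.bcr w f v
        - ∑ i, if i = f v then 0 else G.al w f v i ^ 2) ≤
      ∑ u, ∑ v, w u * w v * ((1 - ss f u v) * G.mm u v *
          ∑ x, w x * (ss f x u * (G.mm u x * (1 - G.mm v x)))) := by
    have h1 : ∑ u, ∑ v, w u * w v * ((1 - ss f u v) * G.mm u v *
          (pp w f (f u) - G.bin w f u - G.al w f v (f u))) ≤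
        ∑ u, ∑ v, w u * w v * ((1 - ss f u v) * G.mm u v *
          ∑ x, w x * (ss f x u * (G.mm u x * (1 - G.mm v x)))) := by
      refine sum_le_sum fun u _ => sum_le_sum fun v _ => ?_
      refine mul_le_mul_of_nonneg_left ?_ (mul_nonneg (hw u) (hw v))
      refine mul_le_mul_of_nonneg_left (G.cross_x w f hw u v) ?_
      exact mul_nonneg (by linarith [ss_le f u v]) (G.mm_nonneg u v)
    refine le_trans (le_of_eq ?_) h1
    have h2 : ∑ u, ∑ v, w u * w v * ((1 - ss f u v) * G.mm u v *
          (pp w f (f u) - G.bin w f u - G.al w f v (f u)))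
        = ∑ u, w u * ((pp w f (f u) - G.bin w f u) * ∑ v, w v * ((1 - ss f v u) * G.mm u v))
          - ∑ u, ∑ v, w u * (w v * ((1 - ss f u v) * G.mm u v * G.al w f v (f u))) := by
      rw [← sum_sub_distrib]
      refine sum_congr rfl fun u _ => ?_
      rw [mul_sum, mul_sum, ← sum_sub_distrib]
      refine sum_congr rfl fun v _ => ?_
      rw [ss_comm f v u]
      ring
    have h3 : ∑ u, ∑ v, w u * (w v * ((1 - ss f u v) * G.mm u v * G.al w f v (f u)))
        = ∑ v, w v * ∑ u, w u * ((1 - ss f u v) * G.mm u v * G.al w f v (f u)) := by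
      rw [sum_comm]
      refine sum_congr rfl fun v _ => ?_
      rw [mul_sum]
      refine sum_congr rfl fun u _ => ?_
      ring
    rw [h2, h3]
    simp only [← bcr_eq', sum_al_sq]
    rw [← sum_sub_distrib]
    refine sum_congr rfl fun v _ => ?_
    ring
  -- symmetrised cross weights
  have hc1 : ∑ v, w v * (∑ j, if j = f v then 0 else pp w f (f v) * G.al w f v j) =
      ∑ v, w v * (∑ j, if j = f v then 0 else pp w f j * G.al w f v j) :=
    G.cross_symm w f (fun a _ => pp w f a)
  have hc2 : ∑ v, w v * (∑ i, if i = f v then 0 else (pp w f i + pp w f (f v)) * G.al w f v i)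
      = 2 * ∑ v, w v * (pp w f (f v) * G.bcr w f v) := by
    have h1 : ∑ v, w v * (∑ i, if i = f v then 0 else (pp w f i + pp w f (f v)) * G.al w f v i)
        = ∑ v, w v * (∑ j, if j = f v then 0 else pp w f j * G.al w f v j)
          + ∑ v, w v * (∑ j, if j = f v then 0 else pp w f (f v) * G.al w f v j) := by
      rw [← sum_add_distrib]
      refine sum_congr rfl fun v _ => ?_
      rw [← mul_add, ← sum_add_distrib]
      congr 1
      refine sum_congr rfl fun i _ => ?_
      split_ifs <;> ring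
    have h2 : ∑ v, w v * (∑ j, if j = f v then 0 else pp w f (f v) * G.al w f v j)
        = ∑ v, w v * (pp w f (f v) * G.bcr w f v) := by
      refine sum_congr rfl fun v _ => ?_
      rw [G.bcr_eq w f v]
      congr 1
      rw [mul_sum]
      refine sum_congr rfl fun j _ => ?_
      split_ifs <;> ring
    rw [h1, ← hc1, h2]
    ring
  have hfin : ∑ v, w v * (pp w f (f v) * G.bin w f v +
      (∑ i, if i = f v then 0 else (pp w f i + pp w f (f v)) * G.al w f v i)
      - 2 * (G.bin w f v ^ 2 + G.bin w f v * G.bcr w f v +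
        ∑ i, if i = f v then 0 else G.al w f v i ^ 2))
      = ∑ v, w v * (pp w f (f v) * G.bin w f v - 2 * G.bin w f v ^ 2)
        + 2 * ∑ v, w v * (pp w f (f v) * G.bcr w f v - G.bin w f v * G.bcr w f v
        - ∑ i, if i = f v then 0 else G.al w f v i ^ 2) := by
    have h4 : ∑ v, w v * (pp w f (f v) * G.bin w f v +
        (∑ i, if i = f v then 0 else (pp w f i + pp w f (f v)) * G.al w f v i)
        - 2 * (G.bin w f v ^ 2 + G.bin w f v * G.bcr w f v +
          ∑ i, if i = f v then 0 else G.al w f v i ^ 2))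
        = ∑ v, w v * (∑ i, if i = f v then 0 else (pp w f i + pp w f (f v)) * G.al w f v i)
          + ∑ v, w v * (pp w f (f v) * G.bin w f v
            - 2 * (G.bin w f v ^ 2 + G.bin w f v * G.bcr w f v +
              ∑ i, if i = f v then 0 else G.al w f v i ^ 2)) := by
      rw [← sum_add_distrib]
      refine sum_congr rfl fun v _ => ?_
      ring
    rw [h4, hc2, mul_sum, mul_sum, ← sum_add_distrib, ← sum_add_distrib]
    refine sum_congr rfl fun v _ => ?_
    ring
  rw [hS, hfin]
  linarith

private lemma sq_sum_le (hw : ∀ v, 0 ≤ w v) (v : V) :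
    (∑ i, if i = f v then 0 else G.al w f v i ^ 2) ≤ G.bcr w f v ^ 2 := by
  rw [G.bcr_eq w f v]
  have h0 : ∀ i : Fin 3, 0 ≤ (if i = f v then 0 else G.al w f v i) := by
    intro i
    split_ifs
    · exact le_rfl
    · exact G.al_nonneg w f hw v i
  have h1 : ∀ i : Fin 3, (if i = f v then 0 else G.al w f v i ^ 2)
      = (if i = f v then 0 else G.al w f v i) ^ 2 := by
    intro i
    split_ifs <;> ring
  rw [sum_congr rfl fun i _ => h1 i, Fin.sum_univ_three, Fin.sum_univ_three]
  nlinarith [mul_nonneg (h0 0) (h0 1), mul_nonneg (h0 0) (h0 2), mul_nonneg (h0 1) (h0 2)]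

/-- sharper form, used for `phi_ge` -/
theorem T1_ge' (hw : ∀ v, 0 ≤ w v) :
    3 * ∑ v, w v * (pp w f (f v) * G.bin w f v +
      (∑ i, if i = f v then 0 else (pp w f i + pp w f (f v)) * G.al w f v i)
      - 2 * (G.bin w f v ^ 2 + G.bin w f v * G.bcr w f v + G.bcr w f v ^ 2)) ≤ G.T1 w := by
  refine le_trans ?_ (G.sum_EE_le w f hw)
  refine mul_le_mul_of_nonneg_left ?_ (by norm_num)
  refine le_trans ?_ (G.sum_EE_ge w f hw)
  refine sum_le_sum fun v _ => mul_le_mul_of_nonneg_left ?_ (hw v)
  linarith [G.sq_sum_le w f hw v]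

theorem T1_ge (hw : ∀ v, 0 ≤ w v) :
    3 * ∑ v, w v * (pp w f (f v) * G.bin w f v +
      (∑ i, if i = f v then 0 else (pp w f i + pp w f (f v)) * G.al w f v i)
      - 2 * G.bb w f v ^ 2) ≤ G.T1 w := by
  refine le_trans ?_ (G.T1_ge' w f hw)
  refine mul_le_mul_of_nonneg_left ?_ (by norm_num)
  refine sum_le_sum fun v _ => mul_le_mul_of_nonneg_left ?_ (hw v)
  unfold bb
  have h1 := G.bin_nonneg w f hw v
  have h2 := G.bcr_nonneg w f hw v
  nlinarith [mul_nonneg h1 h2]

end OG
end FDF
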