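import Pool.Agent.FDF.IdD
/-! FDF-Pt. Consequences for an optimal counterexample. PLAN:
`lam_sq`: Real.sq_sqrt (E2 ≥ 0).
`lam_pos`: if `E2 = 0` then (w > 0) `oo v = 1/3` for all v, so `ee_eq'` gives `ee v ≥ 4/9` (chi ≥ 0), but ee v = dd < 4/9.
`pt`: `ee_eq'`, ee v < 4/9; for every b: `-2 (oo b - 1/3) ≤ lam + (oo b-1/3)²/lam`; sum with the weights `w b aa b v ≤ w b`:
 `-2 ∑ w b aa b v (oo b - 1/3) ≤ lam ii v + E2/lam = lam (1/3 - ν - δ) + lam/3`. Then complete the squares.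
`phi_neg`: `dd_eq` and `low`.  `T0_le`: `T0_eq` and `phi_neg`: T0 ≤ 2/9 - gam - T1 and gam > 0 (phi_neg), T1 ≥ 0.
Needs positivity: `T1_nonneg`, `N2_nonneg`, `E2_nonneg` (prove them here). -/
namespace FDF
open Finset
open scoped BigOperators Classical
namespace OG
variable {V : Type} {G : OG V} [Fintype V] {w : V → ℝ}

theorem T1_nonneg (hw : ∀ v, 0 ≤ w v) : 0 ≤ G.T1 w := by
  refine Finset.sum_nonneg fun a _ => Finset.sum_nonneg fun b _ => Finset.sum_nonneg fun c _ => ?_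
  have h1 : 0 ≤ G.t1 a b c := by
    unfold t1
    have e1 := G.mm_nonneg a b
    have e2 := G.mm_nonneg a c
    have e3 := G.mm_nonneg b c
    have f1 : 0 ≤ 1 - G.mm a b := by have := G.mm_le_one a b; linarith
    have f2 : 0 ≤ 1 - G.mm a c := by have := G.mm_le_one a c; linarith
    have f3 : 0 ≤ 1 - G.mm b c := by have := G.mm_le_one b c; linarith
    positivity
  have := hw a; have := hw b; have := hw c
  positivity

theorem N2_nonneg (hw : ∀ v, 0 ≤ w v) : 0 ≤ G.N2 w :=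
  Finset.sum_nonneg fun v _ => mul_nonneg (hw v) (sq_nonneg _)

theorem E2_nonneg (hw : ∀ v, 0 ≤ w v) : 0 ≤ G.E2 w :=
  Finset.sum_nonneg fun v _ => mul_nonneg (hw v) (sq_nonneg _)

theorem lam_sq (hw : ∀ v, 0 ≤ w v) : G.lam w ^ 2 = 3 * G.E2 w := by
  unfold lam
  exact Real.sq_sqrt (mul_nonneg (by norm_num) (E2_nonneg hw))

theorem lam_pos (h : G.Opt w) : 0 < G.lam w := by
  have hw : ∀ v, 0 ≤ w v := fun v => (h.pos v).le
  have hE := E2_nonneg (G := G) hw
  rcases hE.lt_or_eq with hE | hE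
  · unfold lam
    exact Real.sqrt_pos.mpr (by linarith)
  · exfalso
    have hne : (Finset.univ : Finset V).Nonempty := by
      by_contra hn
      rw [Finset.not_nonempty_iff_eq_empty] at hn
      have := h.sum
      rw [hn, Finset.sum_empty] at this
      exact zero_ne_one this
    obtain ⟨v, -⟩ := hne
    have h0 : ∀ b, G.oo w b - 1 / 3 = 0 := by
      intro b
      have h1 := (Finset.sum_eq_zero_iff_of_nonneg
        (fun v _ => mul_nonneg (hw v) (sq_nonneg (G.oo w v - 1 / 3)))).mp hE.symm b (Finset.mem_univ b)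
      rcases mul_eq_zero.mp h1 with h2 | h2
      · exact absurd h2 (h.pos b).ne'
      · exact pow_eq_zero_iff (two_ne_zero) |>.mp h2
    have h1 := G.ee_eq' w h.sum v
    have h2 : ∑ b, w b * G.aa b v * (G.oo w b - 1 / 3) = 0 :=
      Finset.sum_eq_zero fun b _ => by rw [h0 b, mul_zero]
    rw [h2, h0 v, h.reg v] at h1
    have h3 := G.chi_nonneg w hw v
    have h4 := h.low
    nlinarith [sq_nonneg (G.nn w v - 1 / 3)]

theorem phi_neg (h : G.Opt w) :
    G.N2 w - G.gam w / 3 + 2 / 3 * G.T1 w + G.lam w ^ 2 < 0 := by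
  have hw : ∀ v, 0 ≤ w v := fun v => (h.pos v).le
  have h1 := G.dd_eq w h.sum
  have h2 := lam_sq (G := G) hw
  have h3 := h.low
  rw [h2]
  linarith

theorem gam_pos (h : G.Opt w) : 0 < G.gam w := by
  have hw : ∀ v, 0 ≤ w v := fun v => (h.pos v).le
  have h1 := phi_neg h
  have h2 := N2_nonneg (G := G) hw
  have h3 := T1_nonneg (G := G) hw
  have h4 := sq_nonneg (G.lam w)
  linarith

theorem T0_le (h : G.Opt w) : G.T0 w ≤ 2 / 9 := by
  have hw : ∀ v, 0 ≤ w v := fun v => (h.pos v).le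
  have h1 := phi_neg h
  have h2 := N2_nonneg (G := G) hw
  have h3 := T1_nonneg (G := G) hw
  have h4 := sq_nonneg (G.lam w)
  have h5 := gam_pos h
  have h6 := G.T0_eq w h.sum
  linarith

theorem pt (h : G.Opt w) (v : V) :
    (G.nn w v - 1 / 3 + G.lam w / 2) ^ 2 + (G.oo w v - 1 / 3 + G.lam w / 2) ^ 2 + 2 * G.chi w v <
      2 / 3 * G.lam w + G.lam w ^ 2 / 2 := by
  have hw : ∀ v, 0 ≤ w v := fun v => (h.pos v).le
  have hl := lam_pos h
  have hl2 := lam_sq (G := G) hw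
  have h1 := G.ee_eq' w h.sum v
  rw [h.reg v] at h1
  have h2 := h.low
  have h3 : - 2 * ∑ b, w b * G.aa b v * (G.oo w b - 1 / 3) ≤
      ∑ b, (G.lam w * (w b * G.aa b v) + (w b * (G.oo w b - 1 / 3) ^ 2) / G.lam w) := by
    rw [Finset.mul_sum]
    refine Finset.sum_le_sum fun b _ => ?_
    have e1 : 0 ≤ w b * G.aa b v := mul_nonneg (hw b) (G.aa_nonneg b v)
    have e2 : w b * G.aa b v * ((G.oo w b - 1 / 3) ^ 2 / G.lam w) ≤
        (w b * (G.oo w b - 1 / 3) ^ 2) / G.lam w := by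
      rw [mul_div_assoc]
      have e3 : 0 ≤ (G.oo w b - 1 / 3) ^ 2 / G.lam w := by positivity
      have e4 : w b * G.aa b v ≤ w b := by
        have := mul_le_mul_of_nonneg_left (G.aa_le_one b v) (hw b)
        linarith
      exact mul_le_mul_of_nonneg_right e4 e3
    have e5 : - 2 * (G.oo w b - 1 / 3) ≤ G.lam w + (G.oo w b - 1 / 3) ^ 2 / G.lam w := by
      have e6 : G.lam w + (G.oo w b - 1 / 3) ^ 2 / G.lam w + 2 * (G.oo w b - 1 / 3) =
          (G.lam w + (G.oo w b - 1 / 3)) ^ 2 / G.lam w := by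
        field_simp
        ring
      have e7 : 0 ≤ (G.lam w + (G.oo w b - 1 / 3)) ^ 2 / G.lam w := by positivity
      linarith
    have e8 := mul_le_mul_of_nonneg_left e5 e1
    linarith
  rw [Finset.sum_add_distrib, ← Finset.mul_sum, ← Finset.sum_div] at h3
  have h4 : ∑ b, w b * G.aa b v = G.ii w v := rfl
  have h5 : ∑ b, w b * (G.oo w b - 1 / 3) ^ 2 = G.E2 w := rfl
  rw [h4, h5] at h3
  have h6 : G.E2 w / G.lam w = G.lam w / 3 := by
    have : G.E2 w = G.lam w ^ 2 / 3 := by linarith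
    rw [this]
    field_simp
  rw [h6] at h3
  have h7 := G.nn_add_oo_add_ii w h.sum v
  have h8 : G.ii w v = 1 - G.nn w v - G.oo w v := by linarith
  rw [h8] at h3
  nlinarith

end OG
end FDF
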