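import Pool.Agent.FDF.Defs

namespace FDF
open Finset
open scoped BigOperators Classical

namespace OG
variable {V : Type} (G : OG V)

lemma adj_comm (u v : V) : G.adj u v ↔ G.adj v u := by
  unfold adj; tauto

lemma A_irrefl (u : V) : ¬ G.A u u := fun h => G.asymm u u h h

lemma not_adj_self (u : V) : ¬ G.adj u u := by
  unfold adj; rintro (h | h) <;> exact G.A_irrefl u h

lemma mm_comm (u v : V) : G.mm u v = G.mm v u := by
  unfold mm; simp only [G.adj_comm u v]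

@[simp] lemma mm_self (u : V) : G.mm u u = 1 := by
  unfold mm; rw [if_neg (G.not_adj_self u)]

@[simp] lemma aa_self (u : V) : G.aa u u = 0 := by
  unfold aa; rw [if_neg (G.A_irrefl u)]

lemma mm_zero_or_one (u v : V) : G.mm u v = 0 ∨ G.mm u v = 1 := by
  unfold mm; split_ifs <;> simp

lemma aa_zero_or_one (u v : V) : G.aa u v = 0 ∨ G.aa u v = 1 := by
  unfold aa; split_ifs <;> simp

lemma mm_nonneg (u v : V) : 0 ≤ G.mm u v := by
  rcases G.mm_zero_or_one u v with h | h <;> rw [h]; norm_num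

lemma mm_le_one (u v : V) : G.mm u v ≤ 1 := by
  rcases G.mm_zero_or_one u v with h | h <;> rw [h]; norm_num

lemma aa_nonneg (u v : V) : 0 ≤ G.aa u v := by
  rcases G.aa_zero_or_one u v with h | h <;> rw [h]; norm_num

lemma aa_le_one (u v : V) : G.aa u v ≤ 1 := by
  rcases G.aa_zero_or_one u v with h | h <;> rw [h]; norm_num

/-- the three possible relations of an ordered pair -/
lemma tri (u v : V) :
    (G.mm u v = 1 ∧ G.aa u v = 0 ∧ G.aa v u = 0 ∧ ¬ G.adj u v ∧ ¬ G.A u v ∧ ¬ G.A v u) ∨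
    (G.mm u v = 0 ∧ G.aa u v = 1 ∧ G.aa v u = 0 ∧ G.adj u v ∧ G.A u v ∧ ¬ G.A v u) ∨
    (G.mm u v = 0 ∧ G.aa u v = 0 ∧ G.aa v u = 1 ∧ G.adj u v ∧ ¬ G.A u v ∧ G.A v u) := by
  unfold mm aa adj
  by_cases h1 : G.A u v
  · have h2 := G.asymm u v h1
    simp [h1, h2]
  · by_cases h2 : G.A v u
    · simp [h1, h2]
    · simp [h1, h2]

lemma sum3 (u v : V) : G.mm u v + G.aa u v + G.aa v u = 1 := by
  rcases G.tri u v with h | h | h <;> obtain ⟨h1, h2, h3, -⟩ := h <;> rw [h1, h2, h3] <;> norm_num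

lemma nn_add_oo_add_ii [Fintype V] (w : V → ℝ) (hs : ∑ v, w v = 1) (v : V) :
    G.nn w v + G.oo w v + G.ii w v = 1 := by
  unfold nn oo ii
  rw [← Finset.sum_add_distrib, ← Finset.sum_add_distrib, ← hs]
  refine Finset.sum_congr rfl fun u _ => ?_
  have := G.sum3 v u
  linear_combination w u * this

lemma nn_nonneg [Fintype V] (w : V → ℝ) (hw : ∀ v, 0 ≤ w v) (v : V) : 0 ≤ G.nn w v :=
  Finset.sum_nonneg fun u _ => mul_nonneg (hw u) (G.mm_nonneg v u)

lemma oo_nonneg [Fintype V] (w : V → ℝ) (hw : ∀ v, 0 ≤ w v) (v : V) : 0 ≤ G.oo w v :=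
  Finset.sum_nonneg fun u _ => mul_nonneg (hw u) (G.aa_nonneg v u)

lemma ii_nonneg [Fintype V] (w : V → ℝ) (hw : ∀ v, 0 ≤ w v) (v : V) : 0 ≤ G.ii w v :=
  Finset.sum_nonneg fun u _ => mul_nonneg (hw u) (G.aa_nonneg u v)

lemma chi_nonneg [Fintype V] (w : V → ℝ) (hw : ∀ v, 0 ≤ w v) (v : V) : 0 ≤ G.chi w v := by
  refine Finset.sum_nonneg fun a _ => Finset.sum_nonneg fun b _ => ?_
  have h1 := G.mm_nonneg v a
  have h2 := G.mm_le_one v b
  have h3 := G.mm_nonneg a b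
  have := hw a; have := hw b
  have h4 : 0 ≤ 1 - G.mm v b := by linarith
  positivity

end OG
end FDF
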