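import Mathlib

/-!
# Fon-der-Flaass 3-graphs: the definitions used in the hand-in (helper3)
-/

namespace FDF.Res

open scoped Classical

/-- `A` is the arc relation of an orgraph: no loops, at most one arc between two vertices. -/
def IsOrgraph {n : ℕ} (A : Fin n → Fin n → Prop) : Prop := ∀ u v, A u v → ¬ A v u

/-- The orgraph has no induced directed 4-cycle. -/
def NoInducedC4 {n : ℕ} (A : Fin n → Fin n → Prop) : Prop :=
  ¬ ∃ a b c d : Fin n, A a b ∧ A b c ∧ A c d ∧ A d a ∧ ¬ A a c ∧ ¬ A c a ∧ ¬ A b d ∧ ¬ A d b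

/-- The Fon-der-Flaass 3-graph of an orgraph (in the `K_4^3`-free form): its edges are the 3-sets in which
every vertex is adjacent to another vertex of the set and no vertex sends arcs to both others. -/
noncomputable def fdf {n : ℕ} (A : Fin n → Fin n → Prop) : Finset (Finset (Fin n)) :=
  ((Finset.univ : Finset (Fin n)).powersetCard 3).filter fun s =>
    ¬ ∃ x ∈ s, (∀ y ∈ s, y ≠ x → (¬ A x y ∧ ¬ A y x)) ∨ (∀ y ∈ s, y ≠ x → A x y)

/-- The largest number of edges of a Fon-der-Flaass 3-graph on `n` vertices. -/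
noncomputable def exFDF (n : ℕ) : ℕ :=
  sSup {k | ∃ A : Fin n → Fin n → Prop, IsOrgraph A ∧ NoInducedC4 A ∧ k = (fdf A).card}

end FDF.Res
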