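import Pool.Agent.FDF.Rel
/-! FDF: the two statements which the flag algebra certificates prove (helper3). -/
namespace FDF
open Finset
open scoped BigOperators Classical
namespace OG
variable {V : Type} (G : OG V)

/-- the part of `x` with respect to the triangle `a b c` (3 = none) -/
noncomputable def prt (a b c x : V) : ℕ :=
  if ¬ G.adj a x ∧ G.adj b x ∧ G.adj c x then 0
  else if G.adj a x ∧ ¬ G.adj b x ∧ G.adj c x then 1
  else if G.adj a x ∧ G.adj b x ∧ ¬ G.adj c x then 2 else 3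

/-- the pair `x y` is bad with respect to the triangle `a b c` -/
def badP (a b c x y : V) : Prop :=
  G.prt a b c x = 3 ∨ G.prt a b c y = 3 ∨ (G.prt a b c x = G.prt a b c y ∧ G.adj x y) ∨
    (G.prt a b c x ≠ G.prt a b c y ∧ ¬ G.adj x y)

noncomputable def bad (a b c x y : V) : ℝ := if G.badP a b c x y then 1 else 0

variable [Fintype V] (w : V → ℝ)

noncomputable def Bad5 : ℝ :=
  ∑ a, ∑ b, ∑ c, ∑ x, ∑ y, w a * w b * w c * w x * w y * (G.t3 a b c * G.bad a b c x y)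

end OG

/-- certificate C1 -/
def StC1 : Prop := ∀ (V : Type) [Fintype V] (G : OG V) (w : V → ℝ), G.NoC4 → (∀ v, 0 ≤ w v) →
  ∑ v, w v = 1 → (∀ v, G.ee w v ≤ 4 / 9) → G.gam w + 7 * G.T1 w ≤ 126 / 10000

/-- certificate C2 -/
def StC2 : Prop := ∀ (V : Type) [Fintype V] (G : OG V) (w : V → ℝ), G.NoC4 → (∀ v, 0 ≤ w v) →
  ∑ v, w v = 1 → (∀ v, G.ee w v ≤ 4 / 9) → G.Bad5 w + 20 / 3 * G.E2 w ≤ 1 / 100 * G.T0 w

end FDF
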