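import Pool.Agent.FDF.SDP
import Pool.Agent.FDF.Pt
import Pool.Agent.FDF.PSum
/-! FDF-Tri. A good triangle gives a good partition. -/
namespace FDF
open Finset
open scoped BigOperators Classical
namespace OG
variable {V : Type} {G : OG V} [Fintype V] {w : V → ℝ}

omit [Fintype V] in
private lemma bad_nonneg (a b c x y : V) : 0 ≤ G.bad a b c x y := by
  unfold bad; split_ifs <;> norm_num

omit [Fintype V] in
private lemma t3_nonneg (a b c : V) : 0 ≤ G.t3 a b c := by
  unfold t3
  have h1 := G.mm_le_one a b
  have h2 := G.mm_le_one a c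
  have h3 := G.mm_le_one b c
  have h4 : 0 ≤ 1 - G.mm a b := by linarith
  have h5 : 0 ≤ 1 - G.mm a c := by linarith
  have h6 : 0 ≤ 1 - G.mm b c := by linarith
  positivity

/-- the measure of the bad pairs of a triangle -/
private noncomputable def btr (G : OG V) (w : V → ℝ) (a b c : V) : ℝ :=
  ∑ x, ∑ y, w x * w y * G.bad a b c x y

private lemma Bad5_eq : G.Bad5 w = ∑ a, ∑ b, ∑ c, w a * w b * w c * G.t3 a b c * btr G w a b c := by
  unfold Bad5 btr
  refine Finset.sum_congr rfl fun a _ => Finset.sum_congr rfl fun b _ =>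
    Finset.sum_congr rfl fun c _ => ?_
  rw [Finset.mul_sum]
  refine Finset.sum_congr rfl fun x _ => ?_
  rw [Finset.mul_sum]
  refine Finset.sum_congr rfl fun y _ => ?_
  ring

private lemma total (k : ℝ) : ∑ a, ∑ b, ∑ c, w a * w b * w c * G.t3 a b c * (btr G w a b c + k) =
    G.Bad5 w + k * G.T0 w := by
  rw [Bad5_eq]
  unfold T0
  rw [Finset.mul_sum, ← Finset.sum_add_distrib]
  refine Finset.sum_congr rfl fun a _ => ?_
  rw [Finset.mul_sum, ← Finset.sum_add_distrib]
  refine Finset.sum_congr rfl fun b _ => ?_
  rw [Finset.mul_sum, ← Finset.sum_add_distrib]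
  refine Finset.sum_congr rfl fun c _ => ?_
  ring

private lemma good_tri (h : G.Opt w) (h2 : StC2) :
    ∃ a b c, btr G w a b c ≤ 1 / 100 - 10 * G.lam w ^ 2 := by
  have hw : ∀ v, 0 ≤ w v := fun v => (h.pos v).le
  have hE : 0 ≤ G.E2 w := E2_nonneg hw
  have hlam := lam_sq (G := G) hw
  have hlp := lam_pos h
  have hEpos : 0 < G.E2 w := by nlinarith [sq_nonneg (G.lam w), pow_pos hlp 2]
  have hc2 := h2 V G w h.c4 hw h.sum (fun v => by rw [h.reg v]; exact h.low.le)
  have hT0 := T0_le h
  by_contra hcon
  push Not at hcon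
  have hk : ∀ a b c, 0 < btr G w a b c + (30 * G.E2 w - 1 / 100) := by
    intro a b c
    have := hcon a b c
    rw [hlam] at this
    linarith
  have htot := total (G := G) (w := w) (30 * G.E2 w - 1 / 100)
  have hterm : ∀ a b c, 0 ≤ w a * w b * w c * G.t3 a b c *
      (btr G w a b c + (30 * G.E2 w - 1 / 100)) := by
    intro a b c
    have h1 := t3_nonneg (G := G) a b c
    have h3 := (hk a b c).le
    have := hw a; have := hw b; have := hw c
    positivity
  have hle : G.Bad5 w + (30 * G.E2 w - 1 / 100) * G.T0 w ≤ 0 := by nlinarith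
  have hzero : ∑ a, ∑ b, ∑ c, w a * w b * w c * G.t3 a b c *
      (btr G w a b c + (30 * G.E2 w - 1 / 100)) = 0 := by
    refine le_antisymm (by rw [htot]; exact hle) ?_
    exact Finset.sum_nonneg fun a _ => Finset.sum_nonneg fun b _ =>
      Finset.sum_nonneg fun c _ => hterm a b c
  have ht3 : ∀ a b c, G.t3 a b c = 0 := by
    intro a b c
    have h1 := (Finset.sum_eq_zero_iff_of_nonneg (fun a _ => Finset.sum_nonneg fun b _ =>
      Finset.sum_nonneg fun c _ => hterm a b c)).1 hzero a (Finset.mem_univ a)
    have h3 := (Finset.sum_eq_zero_iff_of_nonneg (fun b _ =>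
      Finset.sum_nonneg fun c _ => hterm a b c)).1 h1 b (Finset.mem_univ b)
    have h4 := (Finset.sum_eq_zero_iff_of_nonneg (fun c _ => hterm a b c)).1 h3 c
      (Finset.mem_univ c)
    have h5 := hk a b c
    have ha := h.pos a; have hb := h.pos b; have hc := h.pos c
    rcases mul_eq_zero.1 h4 with h6 | h6
    · rcases mul_eq_zero.1 h6 with h7 | h7
      · exfalso
        have : 0 < w a * w b * w c := by positivity
        linarith
      · exact h7
    · exfalso; linarith
  have hT00 : G.T0 w = 0 := by
    unfold T0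
    refine Finset.sum_eq_zero fun a _ => Finset.sum_eq_zero fun b _ =>
      Finset.sum_eq_zero fun c _ => ?_
    rw [ht3 a b c, mul_zero]
  have hB : 0 ≤ G.Bad5 w := by
    unfold Bad5
    refine Finset.sum_nonneg fun a _ => Finset.sum_nonneg fun b _ =>
      Finset.sum_nonneg fun c _ => Finset.sum_nonneg fun x _ => Finset.sum_nonneg fun y _ => ?_
    have h1 := t3_nonneg (G := G) a b c
    have h3 := bad_nonneg (G := G) a b c x y
    have := hw a; have := hw b; have := hw c; have := hw x; have := hw y
    positivity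
  rw [hT00] at hc2
  linarith

/-- the partition given by a triangle -/
private noncomputable def ff (G : OG V) (a b c x : V) : Fin 3 :=
  if G.prt a b c x = 0 then 0 else if G.prt a b c x = 1 then 1
    else if G.prt a b c x = 2 then 2 else 0

omit [Fintype V] in
private lemma prt_cases (a b c x : V) : G.prt a b c x = 0 ∨ G.prt a b c x = 1 ∨
    G.prt a b c x = 2 ∨ G.prt a b c x = 3 := by
  unfold prt; split_ifs <;> simp

private lemma ff_bad (a b c v u : V) :
    (if ff G a b c u = ff G a b c v then 1 - G.mm v u else G.mm v u) ≤ G.bad a b c v u := by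
  by_cases hb : G.badP a b c v u
  · have h1 : G.bad a b c v u = 1 := by unfold bad; rw [if_pos hb]
    rw [h1]
    have h2 := G.mm_nonneg v u
    have h3 := G.mm_le_one v u
    split_ifs
    · linarith
    · exact h3
  · have h1 : G.bad a b c v u = 0 := by unfold bad; rw [if_neg hb]
    rw [h1]
    unfold badP at hb
    push Not at hb
    obtain ⟨hv3, hu3, hsame, hdiff⟩ := hb
    have hmm : G.mm v u = if G.adj v u then 0 else 1 := rfl
    split_ifs with hf
    · have hp : G.prt a b c v = G.prt a b c u := by
        unfold ff at hf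
        rcases prt_cases (G := G) a b c v with e1 | e1 | e1 | e1 <;>
          rcases prt_cases (G := G) a b c u with e2 | e2 | e2 | e2 <;>
          simp_all
      rw [hmm, if_neg (hsame hp)]
      norm_num
    · have hp : G.prt a b c v ≠ G.prt a b c u := by
        intro hp
        apply hf
        unfold ff
        rw [hp]
      rw [hmm, if_pos (hdiff hp)]

theorem exists_part (h : G.Opt w) (h2 : StC2) :
    ∃ f : V → Fin 3, G.Btot w f ≤ 1 / 100 - 10 * G.lam w ^ 2 := by
  obtain ⟨a, b, c, habc⟩ := good_tri h h2
  refine ⟨ff G a b c, le_trans ?_ habc⟩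
  unfold Btot btr bb bin bcr
  refine Finset.sum_le_sum fun v _ => ?_
  rw [← Finset.sum_add_distrib, Finset.mul_sum]
  refine Finset.sum_le_sum fun u _ => ?_
  have h1 := ff_bad (G := G) a b c v u
  have hv := (h.pos v).le
  have hu := (h.pos u).le
  have h3 : (if ff G a b c u = ff G a b c v then w u * (1 - G.mm v u) else 0) +
      (if ff G a b c u = ff G a b c v then 0 else w u * G.mm v u) =
      w u * (if ff G a b c u = ff G a b c v then 1 - G.mm v u else G.mm v u) := by
    split_ifs <;> ring
  rw [h3, ← mul_assoc]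
  exact mul_le_mul_of_nonneg_left h1 (mul_nonneg hv hu)

end OG
end FDF
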